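import Pool.Agent.TH980.CN.Cor
import Pool.Agent.TH980.IM.Mom

set_option autoImplicit false

/-! Moments of the conductance operator and minors of the resolvent. -/

open MeasureTheory Filter Topology Set
open scoped ENNReal NNReal
open Pool.Agent.H12R2.And (Rz isUnit_sub sub_Rz im_inner norm_Rz_le diff_inner)
open Pool.Agent.TH980.IM Pool.Agent.TH980.IM.PR

namespace Pool.Agent.TH980.CN

variable {d : ℕ} {a b : ℝ}

theorem mom_zeroC (ha : 0 < a) (hab : a ≤ b) (V : Ed d → ℝ) (y : Sd d) (m : ℕ) :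
    ∀ x : Sd d, (m : ℤ) < n1 (x - y) → (((HC a b V) ^ m) (ee y)) x = 0 := by
  induction m with
  | zero =>
    intro x hx
    rw [pow_zero]
    change (ee y : L2 d) x = 0
    rw [ee_apply, if_neg]
    rintro rfl
    rw [sub_self] at hx
    simp [n1] at hx
  | succ m ih =>
    intro x hx
    push_cast at hx
    have hstep : (((HC a b V) ^ (m + 1)) (ee y)) x = (HC a b V (((HC a b V) ^ m) (ee y))) x := by
      rw [pow_succ']
      rfl
    have e1 : ∀ i : Fin d, (((HC a b V) ^ m) (ee y)) (x + Pi.single i 1) = 0 := by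
      intro i
      apply ih
      have := n1_step (x - y) i 1 (by norm_num)
      rw [sub_add_eq_add_sub] at this
      linarith
    have e2 : ∀ i : Fin d, (((HC a b V) ^ m) (ee y)) (x - Pi.single i 1) = 0 := by
      intro i
      apply ih
      have := n1_step (x - y) i (-1) (by norm_num)
      rw [Pi.single_neg, ← sub_eq_add_neg, sub_right_comm] at this
      linarith
    have e3 : (((HC a b V) ^ m) (ee y)) x = 0 := ih x (by linarith)
    rw [hstep, HC_apply ha hab]
    simp only [e1, e2, e3]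
    simp

theorem mom_plusC (ha : 0 < a) (hab : a ≤ b) (V : Ed d → ℝ) (i0 : Fin d) (y : Sd d) (k : ℕ) :
    (((HC a b V) ^ k) (ee y)) (y + (k : ℤ) • Pi.single i0 1) ≠ 0 := by
  refine (top_layer ha hab V (ee y) i0 y (fun j hj => ?_) ?_ k).2
  · rw [ee_apply, if_neg]
    rintro rfl
    exact lt_irrefl _ hj
  · rw [ee_apply, if_pos rfl]
    exact one_ne_zero

theorem mom_minusC (ha : 0 < a) (hab : a ≤ b) (V : Ed d → ℝ) (i0 : Fin d) (y : Sd d) (k : ℕ) :
    (((HC a b V) ^ k) (ee y)) (y - (k : ℤ) • Pi.single i0 1) ≠ 0 := by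
  have hsa : IsSelfAdjoint ((HC a b V) ^ k) := (HC_sa ha hab V).pow k
  have h := mom_plusC ha hab V i0 (y - (k : ℤ) • Pi.single i0 1) k
  rw [sub_add_cancel] at h
  have h2 := hsa.isSymmetric (ee (y - (k : ℤ) • Pi.single i0 1)) (ee y)
  have h3 : inner ℂ ((((HC a b V) ^ k) : L2 d →L[ℂ] L2 d)
      (ee (y - (k : ℤ) • Pi.single i0 1))) (ee y) =
      inner ℂ (ee (y - (k : ℤ) • Pi.single i0 1)) (((HC a b V) ^ k) (ee y)) := h2
  rw [inner_ee, inner_ee'] at h3
  rw [← h3]
  simpa using h

/-- the far rows of a family in two adjacent layers -/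
noncomputable def rwC [NeZero d] (m : ℤ) {n : ℕ} (p : Fin n → Sd d) (k : ℕ) : Fin n → Sd d :=
  fun i => if p i 0 = m then p i - ((k + 1 : ℕ) : ℤ) • Pi.single 0 1
    else p i + (k : ℤ) • Pi.single 0 1

/-- the minor of the resolvent -/
noncomputable def GC [NeZero d] (a b : ℝ) (V : Ed d → ℝ) {n : ℕ} (x p : Fin n → Sd d) (z : ℂ) :
    Matrix (Fin n) (Fin n) ℂ := fun i j => inner ℂ (be (x i, 0)) (Rz (HC a b V) z (ee (p j)))

theorem GC_det_NC [NeZero d] (ha : 0 < a) (hab : a ≤ b) (V : Ed d → ℝ) {n : ℕ}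
    (x p : Fin n → Sd d) : NC fun z => (GC a b V x p z).det := by
  apply NC.det
  intro i j
  exact NC_inner (HC_sa ha hab V) _ _

/-- exposed families have nonzero minors, whatever the conductances -/
theorem GC_det_ne [NeZero d] (ha : 0 < a) (hab : a ≤ b) (V : Ed d → ℝ) {n : ℕ}
    (x p : Fin n → Sd d) (k : ℕ)
    (h1 : ∀ i j, i ≠ j → ∀ m ≤ k, inner ℂ (be (x i, 0)) (((HC a b V) ^ m) (ee (p j))) = 0)
    (h2 : ∀ i, ∀ m < k, inner ℂ (be (x i, 0)) (((HC a b V) ^ m) (ee (p i))) = 0)
    (h3 : ∀ i, inner ℂ (be (x i, 0)) (((HC a b V) ^ k) (ee (p i))) ≠ 0) :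
    ∃ z : ℂ, 0 < z.im ∧ (GC a b V x p z).det ≠ 0 := by
  by_contra hcon
  push Not at hcon
  have hT := HC_sa ha hab V
  set D : Fin n → ℂ := fun i => - inner ℂ (be (x i, 0)) (((HC a b V) ^ k) (ee (p i))) with hD
  have hent : Tendsto (fun m : ℕ => (zi m ^ (k + 1)) • GC a b V x p (zi m)) atTop
      (𝓝 (Matrix.diagonal D)) := by
    refine tendsto_pi_nhds.2 fun i => tendsto_pi_nhds.2 fun j => ?_
    have e : ∀ m : ℕ, ((zi m ^ (k + 1)) • GC a b V x p (zi m)) i j =
        zi m ^ (k + 1) * inner ℂ (be (x i, 0)) (Rz (HC a b V) (zi m) (ee (p j))) := by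
      intro m
      rw [Matrix.smul_apply, smul_eq_mul]
      rfl
    simp only [e]
    by_cases hij : i = j
    · subst hij
      rw [Matrix.diagonal_apply_eq]
      exact asym hT _ _ k (h2 i)
    · rw [Matrix.diagonal_apply_ne _ hij]
      have h5 := asym hT (be (x i, 0)) (ee (p j)) k fun m hm => h1 i j hij m hm.le
      rw [h1 i j hij k le_rfl, neg_zero] at h5
      exact h5
  have hdet := (Continuous.matrix_det continuous_id).tendsto _ |>.comp hent
  have hz : ∀ m : ℕ, ((zi m ^ (k + 1)) • GC a b V x p (zi m)).det = 0 := by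
    intro m
    rw [Matrix.det_smul, hcon _ (zi_pos m), mul_zero]
  have hc : Tendsto (fun m : ℕ => ((zi m ^ (k + 1)) • GC a b V x p (zi m)).det) atTop
      (𝓝 (Matrix.diagonal D).det) := hdet
  simp only [hz] at hc
  have h0 := tendsto_nhds_unique hc tendsto_const_nhds
  rw [Matrix.det_diagonal] at h0
  exact Finset.prod_ne_zero_iff.2 (fun i _ => neg_ne_zero.2 (h3 i)) h0

theorem n1_zero_single (i0 : Fin d) (k : ℤ) : n1 (k • Pi.single i0 1 : Sd d) = |k| := by
  have h := n1_single i0 k (0 : Sd d)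
  rw [zero_add] at h
  rw [h]
  simp [n1]

/-- the minors of a family in two adjacent layers against its far rows -/
theorem rwC_det [NeZero d] (ha : 0 < a) (hab : a ≤ b) (V : Ed d → ℝ) (m : ℤ) {n : ℕ}
    (p : Fin n → Sd d) (hp : Function.Injective p) (hl : ∀ i, p i 0 = m ∨ p i 0 = m + 1) (k : ℕ) :
    ∃ z : ℂ, 0 < z.im ∧ (GC a b V (rwC m p k) p z).det ≠ 0 := by
  have hk : (0 : ℤ) ≤ k := Int.natCast_nonneg k
  -- the two end points of the far edges
  have hends : ∀ i, (p i 0 = m ∧ rwC m p k i = p i - ((k + 1 : ℕ) : ℤ) • Pi.single 0 1 ∧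
      rwC m p k i + Pi.single 0 1 = p i - (k : ℤ) • Pi.single 0 1) ∨
      (p i 0 ≠ m ∧ rwC m p k i = p i + (k : ℤ) • Pi.single 0 1 ∧
      rwC m p k i + Pi.single 0 1 = p i + ((k + 1 : ℕ) : ℤ) • Pi.single 0 1) := by
    intro i
    unfold rwC
    by_cases hi : p i 0 = m
    · left
      rw [if_pos hi]
      refine ⟨hi, rfl, ?_⟩
      push_cast
      rw [add_smul, one_smul]
      abel
    · right
      rw [if_neg hi]
      refine ⟨hi, rfl, ?_⟩
      push_cast
      rw [add_smul, one_smul]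
      abel
  refine GC_det_ne ha hab V _ _ k (fun i j hij m' hm' => ?_) (fun i m' hm' => ?_) fun i => ?_
  · -- distinct sites
    have hm'' : (m' : ℤ) ≤ k := by exact_mod_cast hm'
    have f1 := rows_far (0 : Fin d) m p hp hl k i j hij
    have f2 := rows_far (0 : Fin d) m p hp hl (k + 1) i j hij
    unfold rows at f1 f2
    rw [inner_be]
    simp only
    rcases hends i with ⟨hi, g1, g2⟩ | ⟨hi, g1, g2⟩
    · rw [if_pos hi] at f1 f2
      rw [g2, g1, mom_zeroC ha hab V _ _ _ (by push_cast at f2 ⊢; linarith),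
        mom_zeroC ha hab V _ _ _ (by linarith), sub_zero]
    · rw [if_neg hi] at f1 f2
      rw [g2, g1, mom_zeroC ha hab V _ _ _ (by linarith),
        mom_zeroC ha hab V _ _ _ (by push_cast at f2 ⊢; linarith), sub_zero]
  · -- lower moments
    have hm'' : (m' : ℤ) < k := by exact_mod_cast hm'
    rw [inner_be]
    simp only
    rcases hends i with ⟨hi, g1, g2⟩ | ⟨hi, g1, g2⟩
    · rw [g2, g1, mom_zeroC ha hab V _ _ _ ?_, mom_zeroC ha hab V _ _ _ ?_, sub_zero]
      · rw [sub_sub_cancel_left, ← neg_smul, n1_zero_single, abs_neg, abs_of_nonneg hk]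
        exact hm''
      · rw [sub_sub_cancel_left, ← neg_smul, n1_zero_single, abs_neg,
          abs_of_nonneg (Int.natCast_nonneg _)]
        push_cast
        linarith
    · rw [g2, g1, mom_zeroC ha hab V _ _ _ ?_, mom_zeroC ha hab V _ _ _ ?_, sub_zero]
      · rw [add_sub_cancel_left, n1_zero_single, abs_of_nonneg (Int.natCast_nonneg _)]
        push_cast
        linarith
      · rw [add_sub_cancel_left, n1_zero_single, abs_of_nonneg hk]
        exact hm''
  · -- the leading moment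
    rw [inner_be]
    simp only
    rcases hends i with ⟨hi, g1, g2⟩ | ⟨hi, g1, g2⟩
    · rw [g2, g1]
      rw [mom_zeroC ha hab V _ _ (p i - ((k + 1 : ℕ) : ℤ) • Pi.single 0 1) ?_, zero_sub]
      · exact neg_ne_zero.2 (mom_minusC ha hab V 0 (p i) k)
      · rw [sub_sub_cancel_left, ← neg_smul, n1_zero_single, abs_neg,
          abs_of_nonneg (Int.natCast_nonneg _)]
        push_cast
        linarith
    · rw [g2, g1]
      rw [mom_zeroC ha hab V _ _ (p i + ((k + 1 : ℕ) : ℤ) • Pi.single 0 1) ?_, sub_zero]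
      · exact mom_plusC ha hab V 0 (p i) k
      · rw [add_sub_cancel_left, n1_zero_single, abs_of_nonneg (Int.natCast_nonneg _)]
        push_cast
        linarith

theorem rwC_inj [NeZero d] (m : ℤ) {n : ℕ} (p : Fin n → Sd d) (i : Fin n) :
    Function.Injective fun k => rwC m p k i := by
  intro k l hkl
  have h := congrFun hkl 0
  simp only [rwC] at h
  split_ifs at h
  · simp only [Pi.sub_apply, Pi.smul_apply, Pi.single_eq_same, smul_eq_mul, mul_one,
      sub_right_inj, Nat.cast_inj] at h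
    omega
  · simp only [Pi.add_apply, Pi.smul_apply, Pi.single_eq_same, smul_eq_mul, mul_one,
      add_right_inj, Nat.cast_inj] at h
    exact h

end Pool.Agent.TH980.CN
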