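import Pool.Agent.TH980.CN.Frm
import Pool.Agent.TH980.CN.Mmt
import Pool.Agent.TH980.IM.All

set_option autoImplicit false

/-! Positive definiteness on two adjacent hyperplanes for the conductance operator. -/

open MeasureTheory Filter Topology Set
open scoped ENNReal NNReal
open Pool.Agent.H12R2.And (Rz isUnit_sub sub_Rz im_inner norm_Rz_le diff_inner diff_Rz
  mutuallySingular_of_rnDeriv)
open Pool.Agent.TH980.IM Pool.Agent.TH980.IM.PR

namespace Pool.Agent.TH980.CN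

variable {d : ℕ}

/-- the limiting minor against the far rows -/
noncomputable def RJ (H : Jd d → Jd d → (Ed d → ℝ) × ℝ → ℂ) {n : ℕ} (x p : Fin n → Sd d)
    (q : (Ed d → ℝ) × ℝ) : Matrix (Fin n) (Fin n) ℂ :=
  Matrix.of fun i j => H (Sum.inr (x i)) (Sum.inl (p j)) q

theorem meas_RJ {H : Jd d → Jd d → (Ed d → ℝ) × ℝ → ℂ} (hm : ∀ a b, Measurable (H a b)) {n : ℕ}
    (x p : Fin n → Sd d) : Measurable fun q => (RJ H x p q).det := by
  have h1 : Measurable fun (q : (Ed d → ℝ) × ℝ) (i j : Fin n) =>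
      H (Sum.inr (x i)) (Sum.inl (p j)) q :=
    measurable_pi_iff.2 fun i => measurable_pi_iff.2 fun k => hm _ _
  have h2 : Continuous fun M : Fin n → Fin n → ℂ => (Matrix.of M).det :=
    Continuous.matrix_det (by exact continuous_id)
  exact h2.measurable.comp h1

theorem RJ_ne [NeZero d] {a b : ℝ} (ha : 0 < a) (hab : a ≤ b) {ν : Measure ℝ}
    [IsProbabilityMeasure ν] {H : Jd d → Jd d → (Ed d → ℝ) × ℝ → ℂ}
    (hm : ∀ a b, Measurable (H a b))
    (hgen : ∀ᵐ V ∂(PP (Ed d) ν), ∀ᵐ E : ℝ, GJ a b H V E) {m : ℤ} {n : ℕ}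
    {p : Fin n → Sd d} (hp : Lay (0 : Fin d) m p) :
    ∀ᵐ q ∂((PP (Ed d) ν).prod volume), ∀ k, (RJ H (rwC m p k) p q).det ≠ 0 := by
  rw [ae_all_iff]
  intro k
  have hms : MeasurableSet {q : (Ed d → ℝ) × ℝ | (RJ H (rwC m p k) p q).det ≠ 0} :=
    ((meas_RJ hm _ _) (measurableSet_singleton (0 : ℂ))).compl
  refine (Measure.ae_prod_mem_iff_ae_ae_mem hms).2 ?_
  filter_upwards [hgen] with V hV
  filter_upwards [hV, (GC_det_NC ha hab V (rwC m p k) p).unique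
    (rwC_det ha hab V m p hp.1 hp.2 k)] with E e1 e2 e3
  apply e2
  have e4 : (RJ H (rwC m p k) p (V, E)).det = 0 := e3
  have e5 : Tendsto (fun j => GC a b V (rwC m p k) p (zk j E)) atTop
      (𝓝 (RJ H (rwC m p k) p (V, E))) :=
    tendsto_pi_nhds.2 fun i => tendsto_pi_nhds.2 fun j =>
      e1 (Sum.inr (rwC m p k i)) (Sum.inl (p j))
  have e6 := (Continuous.matrix_det continuous_id).tendsto _ |>.comp e5
  have e7 : Tendsto (fun j => (GC a b V (rwC m p k) p (zk j E)).det) atTop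
      (𝓝 (RJ H (rwC m p k) p (V, E)).det) := e6
  rw [e4] at e7
  exact e7

theorem decJ [NeZero d] {a b : ℝ} (ha : 0 < a) (hab : a ≤ b) {ν : Measure ℝ}
    [IsProbabilityMeasure ν] (hD : ∀ᵐ v ∂ν, v ∈ Icc a b) (hν : ∀ r : ℝ, ν {r} ≠ 1)
    {H : Jd d → Jd d → (Ed d → ℝ) × ℝ → ℂ} (hm : ∀ a b, Measurable (H a b)) {E : ℝ}
    (hgen : ∀ᵐ V ∂(PP (Ed d) ν), GJ a b H V E) (u : Jd d) {δ : ℝ} (hδ : 0 < δ) :
    Tendsto (fun y : Sd d => PP (Ed d) ν {V | δ ≤ ‖H u (Sum.inr y) (V, E)‖}) cofinite (𝓝 0) := by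
  obtain ⟨a', b', ε0, hε0, hab', ha', hb'⟩ := two_points hν
  have hK : ∀ᵐ v ∂ν, |v| ≤ b := by
    filter_upwards [hD] with v hv
    rw [abs_of_nonneg (ha.le.trans hv.1)]
    exact hv.2
  have hmE : ∀ x y, Measurable fun V : Ed d → ℝ => H x y (V, E) := fun x y =>
    (hm x y).comp (measurable_id.prodMk measurable_const)
  refine decayG ν (y := fun x : Sd d => ((x, 0) : Ed d)) (fun k l hkl => (Prod.mk.inj hkl).1) 0
    (ha.le.trans hab) hK hε0 hab' ha' hb' (f := fun V => H u u (V, E))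
    (g := fun V => H (Sum.inr 0) (Sum.inr 0) (V, E))
    (hmE _ _) (hmE _ _) (h := fun w V => H u (Sum.inr w) (V, E)) (fun w => hmE _ _)
    (fun x => ?_) hδ
  have e1 := (measurePreserving_fst (μ := PP (Ed d) ν) (ν := ν)).quasiMeasurePreserving.ae hgen
  have e2 := (mp_up ν ((x, 0) : Ed d)).quasiMeasurePreserving.ae hgen
  have e3 := (measurePreserving_fst (μ := PP (Ed d) ν) (ν := ν)).quasiMeasurePreserving.ae
    ((mp_sh ν ((x, 0) : Ed d)).quasiMeasurePreserving.ae hgen)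
  have hK1 : ∀ᵐ p ∂((PP (Ed d) ν).prod ν), p.2 ∈ Icc a b :=
    (measurePreserving_snd (μ := PP (Ed d) ν) (ν := ν)).quasiMeasurePreserving.ae hD
  have hK2 : ∀ᵐ p ∂((PP (Ed d) ν).prod ν), p.1 (x, 0) ∈ Icc a b := by
    have h1 : ∀ᵐ V ∂(PP (Ed d) ν), V (x, 0) ∈ Icc a b := by
      have := (measurePreserving_eval_infinitePi (fun _ : Ed d => ν)
        (x, 0)).quasiMeasurePreserving.ae hD
      exact this
    exact (measurePreserving_fst (μ := PP (Ed d) ν) (ν := ν)).quasiMeasurePreserving.ae h1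
  filter_upwards [e1, e2, e3, hK1, hK2] with p h2 h3 h3' h4 h5
  have t1 := h2 u u
  have t2 : Tendsto (fun k => inner ℂ (be (x, 0)) (Rz (HC a b p.1) (zk k E) (be (x, 0)))) atTop
      (𝓝 (H (Sum.inr 0) (Sum.inr 0) (sh ((x, 0) : Ed d) p.1, E))) := by
    refine (h3' (Sum.inr 0) (Sum.inr 0)).congr fun k => ?_
    exact (be_cov ha hab p.1 x 0 (zk_im_pos k E).ne').symm
  have t3 := h2 u (Sum.inr x)
  have t4 := h3 u u
  have hl := (t1.sub t4).mul ((t2.const_mul ((p.2 - p.1 (x, 0) : ℝ) : ℂ)).const_add 1)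
  have hr := (t3.pow 2).const_mul ((p.2 - p.1 (x, 0) : ℝ) : ℂ)
  have e0 : ((x, 0) : Ed d) - 0 = (x, 0) := sub_zero _
  simp only [e0]
  refine tendsto_nhds_unique hl (hr.congr fun k => ?_)
  refine (rank_oneG (HC_sa ha hab p.1) (HC_sa ha hab (up (x, 0) p)) (HC_star ha hab p.1)
    (star_be (x, 0)) (star_fv u) (κ := ((p.2 - p.1 (x, 0) : ℝ) : ℂ)) (fun f => ?_)
    (zk_im_pos k E).ne').symm
  have h6 := HC_up ha hab p.1 (x, 0) p.2 f
  rw [cc_eq h4, cc_eq h5] at h6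
  exact h6

theorem all_coreC [NeZero d] {a b : ℝ} (ha : 0 < a) {ν : Measure ℝ} [IsProbabilityMeasure ν]
    (hν1 : ν (Icc a b) = 1) (hν : ∀ r : ℝ, ν {r} ≠ 1) :
    ∃ (H : Jd d → Jd d → (Ed d → ℝ) × ℝ → ℂ) (Sg : Set ℝ), MeasurableSet Sg ∧
      ∀ᵐ V ∂(PP (Ed d) ν), (∀ e, V e ∈ Icc a b) ∧ (∀ᵐ E : ℝ, GJ a b H V E) ∧
      (∀ B : Set ℝ, MeasurableSet B → volume (B ∩ Sg) = 0 → ∀ (φ : L2 d) (μ : Measure ℝ),
        IsFiniteMeasure μ →
        (∀ z : ℂ, z.im ≠ 0 → (∫ x, ((x : ℂ) - z)⁻¹ ∂μ) = inner ℂ φ (Rz (HC a b V) z φ)) →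
        (μ.restrict B) ⟂ₘ volume) ∧
      ∀ᵐ E : ℝ, E ∈ Sg → ∀ (m : ℤ) (n : ℕ) (p : Fin n → Sd d), Lay (0 : Fin d) m p →
          PD (MJ H (fun i => Sum.inl (p i)) (V, E)) := by
  have hab : a ≤ b := by
    by_contra hcon
    rw [Icc_eq_empty hcon, measure_empty] at hν1
    exact zero_ne_one hν1
  have hD : ∀ᵐ v ∂ν, v ∈ Icc a b := by
    rw [ae_iff]
    exact (prob_compl_eq_zero_iff measurableSet_Icc).2 hν1
  have hex : ∀ x y : Jd d, ∃ f : (Ed d → ℝ) × ℝ → ℂ, Measurable f ∧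
      ∀ᵐ q ∂((PP (Ed d) ν).prod volume), Tendsto (fun k =>
        inner ℂ (fv x) (Rz (HC a b q.1) (zk k q.2) (fv y))) atTop (𝓝 (f q)) :=
    fun x y => exists_limG (HC_sa ha hab) (HC_cont a b) (PP (Ed d) ν) (fv x) (fv y)
  choose H hm hh using hex
  have hall : ∀ᵐ q ∂((PP (Ed d) ν).prod volume), GJ a b H q.1 q.2 :=
    ae_all_iff.2 fun x => ae_all_iff.2 fun y => hh x y
  have r1 : ∀ᵐ V ∂(PP (Ed d) ν), ∀ᵐ E : ℝ, GJ a b H V E := Measure.ae_ae_of_ae_prod hall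
  obtain ⟨Sg, hSg, hmain⟩ := cond_main (d := d) ha hν1 hν
  have r0 := hmain (be (0, 0)) (be_ne _)
  -- positivity on `Sg`
  have hpos : ∀ᵐ V ∂(PP (Ed d) ν), ∀ᵐ E : ℝ, E ∈ Sg →
      0 < (H (Sum.inr 0) (Sum.inr 0) (V, E)).im := by
    filter_upwards [r0, r1] with V ⟨_, h2⟩ h3
    have hsa := HC_sa ha hab V
    have hBm : MeasurableSet (Sg ∩ {E : ℝ |
        (spm hsa (be (0, 0) : L2 d)).rnDeriv volume E = 0}) :=
      hSg.inter ((Measure.measurable_rnDeriv _ _) (measurableSet_singleton 0))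
    have hsing : ((spm hsa (be (0, 0) : L2 d)).restrict (Sg ∩ {E : ℝ |
        (spm hsa (be (0, 0) : L2 d)).rnDeriv volume E = 0})) ⟂ₘ volume := by
      apply mutuallySingular_of_rnDeriv hBm
      filter_upwards [ae_restrict_mem hBm] with E hE
      exact hE.2
    have h4 : volume ((Sg ∩ {E : ℝ |
        (spm hsa (be (0, 0) : L2 d)).rnDeriv volume E = 0}) ∩ Sg) = 0 := by
      by_contra hne
      exact (h2 _ hBm).2 hne (spm hsa (be (0, 0))) inferInstance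
        (fun z hz => BT_spm hsa (be (0, 0)) hz) hsing
    have h5 : ∀ᵐ E : ℝ, E ∉ (Sg ∩ {E : ℝ |
        (spm hsa (be (0, 0) : L2 d)).rnDeriv volume E = 0}) ∩ Sg := by
      rw [ae_iff]
      simpa only [not_not] using! h4
    filter_upwards [h3, h5, boundary_spm hsa (be (0, 0) : L2 d),
      Measure.rnDeriv_lt_top (spm hsa (be (0, 0) : L2 d)) volume] with E e1 e2 ⟨l, hl, hl2⟩ e4 hES
    have e5 := e1 (Sum.inr 0) (Sum.inr 0)
    have e6 := tendsto_nhds_unique hl e5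
    rw [← e6, hl2]
    apply mul_pos kap_pos
    unfold dn
    apply ENNReal.toReal_pos _ e4.ne
    intro h0
    exact e2 ⟨⟨hES, h0⟩, hES⟩
  have hposE : ∀ᵐ E : ℝ, ∀ᵐ V ∂(PP (Ed d) ν), E ∈ Sg →
      0 < (H (Sum.inr 0) (Sum.inr 0) (V, E)).im := by
    have hmeas : MeasurableSet {q : (Ed d → ℝ) × ℝ | q.2 ∈ Sg →
        0 < (H (Sum.inr 0) (Sum.inr 0) q).im} := by
      have e : {q : (Ed d → ℝ) × ℝ | q.2 ∈ Sg → 0 < (H (Sum.inr 0) (Sum.inr 0) q).im} =
          (Prod.snd ⁻¹' Sg)ᶜ ∪ {q | 0 < (H (Sum.inr 0) (Sum.inr 0) q).im} := by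
        ext q
        simp only [Set.mem_ofPred_eq, mem_union, mem_compl_iff, mem_preimage]
        tauto
      rw [e]
      exact (measurable_snd hSg).compl.union
        (measurableSet_lt measurable_const (Complex.measurable_im.comp (hm _ _)))
    exact (Measure.ae_ae_comm hmeas).1 hpos
  -- the minors
  have hR : ∀ᵐ E : ℝ, ∀ (m : ℤ) (n : ℕ) (p : Fin n → Sd d), Lay (0 : Fin d) m p →
      ∀ᵐ V ∂(PP (Ed d) ν), ∀ k, (RJ H (rwC m p k) p (V, E)).det ≠ 0 := by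
    refine ae_all_iff.2 fun m => ae_all_iff.2 fun n => ae_all_iff.2 fun p => ?_
    by_cases hp : Lay (0 : Fin d) m p
    · filter_upwards [ae_swap (RJ_ne ha hab hm r1 hp)] with E hE _
      exact hE
    · exact ae_of_all _ fun E hp' => absurd hp' hp
  -- fixed energy
  have r4' : ∀ᵐ E : ℝ, E ∈ Sg → ∀ (m : ℤ) (n : ℕ) (p : Fin n → Sd d), Lay (0 : Fin d) m p →
      ∀ᵐ V ∂(PP (Ed d) ν), PD (MJ H (fun i => Sum.inl (p i)) (V, E)) := by
    filter_upwards [hposE, hR, ae_swap hall] with E e1 e2 e3 hES m n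
    have h0 : ∀ᵐ V ∂(PP (Ed d) ν), 0 < (H (Sum.inr 0) (Sum.inr 0) (V, E)).im := by
      filter_upwards [e1] with V hV
      exact hV hES
    have e3' : ∀ᵐ V ∂(PP (Ed d) ν), GJ a b H V E := e3
    have hdec2 : ∀ (u : Jd d) (δ : ℝ), 0 < δ → Tendsto (fun y : Sd d =>
        PP (Ed d) ν {V | δ ≤ ‖H u (Sum.inr y) (V, E)‖}) cofinite (𝓝 0) :=
      fun u δ hδ => decJ ha hab hD hν hm e3' u hδ
    have hdec1 : ∀ (u : Jd d) (δ : ℝ), 0 < δ → Tendsto (fun y : Sd d =>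
        PP (Ed d) ν {V | δ ≤ ‖H (Sum.inr y) u (V, E)‖}) cofinite (𝓝 0) := by
      intro u δ hδ
      refine (hdec2 u δ hδ).congr fun y => ?_
      apply measure_congr
      filter_upwards [e3'] with V hV
      have e4 : H (Sum.inr y) u (V, E) = H u (Sum.inr y) (V, E) := by
        refine tendsto_nhds_unique (hV (Sum.inr y) u) ((hV u (Sum.inr y)).congr fun k => ?_)
        exact symmG (HC_sa ha hab V) (HC_star ha hab V) (star_fv _) (star_fv _)
          (zk_im_pos k E).ne'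
      apply propext
      show δ ≤ ‖H u (Sum.inr y) (V, E)‖ ↔ δ ≤ ‖H (Sum.inr y) u (V, E)‖
      rw [e4]
    have hmE : Measurable fun V : Ed d → ℝ => (H (Sum.inr 0) (Sum.inr 0) (V, E)).im :=
      Complex.measurable_im.comp ((hm _ _).comp (measurable_id.prodMk measurable_const))
    have hdiag : ∀ ε : ℝ≥0∞, 0 < ε → ∃ j : ℕ, ∀ y : Sd d,
        PP (Ed d) ν {V | (H (Sum.inr y) (Sum.inr y) (V, E)).im < 1 / ((j : ℝ) + 1)} ≤ ε := by
      intro ε hε
      obtain ⟨j2, hj2⟩ := anti_null (μ := PP (Ed d) ν)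
        (A := fun j : ℕ => {V | (H (Sum.inr 0) (Sum.inr 0) (V, E)).im < 1 / ((j : ℝ) + 1)})
        (fun j => measurableSet_lt hmE measurable_const)
        (fun i j hij V hV => lt_of_lt_of_le (show (H (Sum.inr 0) (Sum.inr 0) (V, E)).im <
          1 / ((j : ℝ) + 1) from hV) (by
          apply one_div_le_one_div_of_le (by positivity)
          have : (i : ℝ) ≤ j := by exact_mod_cast hij
          linarith)) (by
          refine measure_mono_null ?_ (ae_iff.1 h0)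
          intro V hV hV2
          obtain ⟨j, hj⟩ := exists_nat_one_div_lt hV2
          exact lt_asymm hj (mem_iInter.1 hV j)) hε
      refine ⟨j2, fun y => ?_⟩
      have e5 : {V | (H (Sum.inr y) (Sum.inr y) (V, E)).im < 1 / ((j2 : ℝ) + 1)} =ᵐ[PP (Ed d) ν]
          sh ((y, 0) : Ed d) ⁻¹' {V | (H (Sum.inr 0) (Sum.inr 0) (V, E)).im <
            1 / ((j2 : ℝ) + 1)} := by
        filter_upwards [e3', (mp_sh ν ((y, 0) : Ed d)).quasiMeasurePreserving.ae e3'] with V h1 h2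
        have e6 : H (Sum.inr y) (Sum.inr y) (V, E) =
            H (Sum.inr 0) (Sum.inr 0) (sh ((y, 0) : Ed d) V, E) := by
          refine tendsto_nhds_unique (h1 (Sum.inr y) (Sum.inr y))
            ((h2 (Sum.inr 0) (Sum.inr 0)).congr fun k => ?_)
          exact (be_cov ha hab V y 0 (zk_im_pos k E).ne').symm
        apply propext
        show (H (Sum.inr y) (Sum.inr y) (V, E)).im < 1 / ((j2 : ℝ) + 1) ↔
          (H (Sum.inr 0) (Sum.inr 0) (sh ((y, 0) : Ed d) V, E)).im < 1 / ((j2 : ℝ) + 1)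
        rw [e6]
      rw [measure_congr e5, (mp_sh ν _).measure_preimage
        (measurableSet_lt hmE measurable_const).nullMeasurableSet]
      exact hj2
    induction n with
    | zero =>
      intro p _
      exact ae_of_all _ fun V => ⟨0, fun s => by simp [QF]⟩
    | succ n ih =>
      intro p hp
      exact stepJ ha hab hD hν hm e3' hdec1 hdec2 hdiag
        (p := fun i => Sum.inl (p i)) (ih _ hp.tail)
        (x := rwC m p) (rwC_inj m p) (e2 m (n + 1) p hp)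
  have r4 : ∀ᵐ V ∂(PP (Ed d) ν), ∀ᵐ E : ℝ, E ∈ Sg → ∀ (m : ℤ) (n : ℕ)
      (p : Fin n → Sd d), Lay (0 : Fin d) m p → PD (MJ H (fun i => Sum.inl (p i)) (V, E)) := by
    have h1 : ∀ (m : ℤ) (n : ℕ) (p : Fin n → Sd d), Lay (0 : Fin d) m p →
        ∀ᵐ V ∂(PP (Ed d) ν), ∀ᵐ E : ℝ, E ∈ Sg → PD (MJ H (fun i => Sum.inl (p i)) (V, E)) := by
      intro m n p hp
      have hmeas : MeasurableSet {q : (Ed d → ℝ) × ℝ | q.2 ∈ Sg →
          PD (MJ H (fun i => Sum.inl (p i)) q)} := by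
        have e : {q : (Ed d → ℝ) × ℝ | q.2 ∈ Sg → PD (MJ H (fun i => Sum.inl (p i)) q)} =
            (Prod.snd ⁻¹' Sg)ᶜ ∪ (MJ H (fun i => Sum.inl (p i))) ⁻¹' {M | PD M} := by
          ext q
          simp only [Set.mem_ofPred_eq, mem_union, mem_compl_iff, mem_preimage]
          tauto
        rw [e]
        exact (measurable_snd hSg).compl.union (meas_MJ hm _ (meas_PD n))
      have h2 : ∀ᵐ E : ℝ, ∀ᵐ V ∂(PP (Ed d) ν),
          (V, E) ∈ {q : (Ed d → ℝ) × ℝ | q.2 ∈ Sg → PD (MJ H (fun i => Sum.inl (p i)) q)} := by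
        filter_upwards [r4'] with E hE
        by_cases hEg : E ∈ Sg
        · filter_upwards [hE hEg m n p hp] with V hV _
          exact hV
        · exact ae_of_all _ fun V hE' => absurd hE' hEg
      exact (Measure.ae_ae_comm hmeas).2 h2
    have h3 : ∀ᵐ V ∂(PP (Ed d) ν), ∀ (m : ℤ) (n : ℕ) (p : Fin n → Sd d),
        Lay (0 : Fin d) m p → ∀ᵐ E : ℝ, E ∈ Sg → PD (MJ H (fun i => Sum.inl (p i)) (V, E)) := by
      refine ae_all_iff.2 fun m => ae_all_iff.2 fun n => ae_all_iff.2 fun p => ?_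
      by_cases hp : Lay (0 : Fin d) m p
      · filter_upwards [h1 m n p hp] with V hV _
        exact hV
      · exact ae_of_all _ fun E hp' => absurd hp' hp
    filter_upwards [h3] with V hV
    have h4 : ∀ᵐ E : ℝ, ∀ (m : ℤ) (n : ℕ) (p : Fin n → Sd d),
        Lay (0 : Fin d) m p → E ∈ Sg → PD (MJ H (fun i => Sum.inl (p i)) (V, E)) := by
      refine ae_all_iff.2 fun m => ae_all_iff.2 fun n => ae_all_iff.2 fun p => ?_
      by_cases hp : Lay (0 : Fin d) m p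
      · filter_upwards [hV m n p hp] with E hE _
        exact hE
      · exact ae_of_all _ fun E hp' => absurd hp' hp
    filter_upwards [h4] with E hE hES m n p hp
    exact hE m n p hp hES
  refine ⟨H, Sg, hSg, ?_⟩
  filter_upwards [r0, r1, r4] with V e0 e1 e2
  exact ⟨e0.1, e1, fun B hB hB0 => (e0.2 B hB).1 hB0, e2⟩

end Pool.Agent.TH980.CN
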