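import Pool.Agent.TH980.IM.Main
import Pool.Agent.TH980.IM.Uniq
import Pool.Agent.TH980.IM.Prob3
import Pool.Agent.TH980.IM.One

set_option autoImplicit false

/-! Families of self-adjoint operators with rank one couplings. -/

open MeasureTheory Filter Topology Set
open scoped ENNReal NNReal
open Pool.Agent.H12R2.And (Rz isUnit_sub sub_Rz im_inner norm_Rz_le diff_inner diff_Rz gg
  singular_on mutuallySingular_of_rnDeriv)
open Pool.Agent.TH980.IM Pool.Agent.TH980.IM.PR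

namespace Pool.Agent.TH980.CN

variable {d : ℕ}

section gen

variable {α : Type} [TopologicalSpace α]

theorem Rz_contG {T : α → L2 d →L[ℂ] L2 d} (hT : ∀ w, IsSelfAdjoint (T w))
    (hc : ∀ f, Continuous fun w => T w f) {z : ℂ} (hz : 0 < z.im) (f : L2 d) :
    Continuous (fun w => Rz (T w) z f) := by
  rw [continuous_iff_continuousAt]
  intro V
  set g := Rz (T V) z f with hg
  have h1 : Tendsto (fun w => ‖T w g - T V g‖) (𝓝 V) (𝓝 0) := by
    have := (hc g).tendsto V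
    rw [tendsto_iff_norm_sub_tendsto_zero] at this
    exact this
  unfold ContinuousAt
  rw [tendsto_iff_norm_sub_tendsto_zero]
  have h2 := h1.div_const z.im
  rw [zero_div] at h2
  refine squeeze_zero (fun _ => norm_nonneg _) (fun w => ?_) h2
  have h3 : g = Rz (T w) z (f + (T w g - T V g)) := by
    apply Rz_unique (hT _) hz.ne'
    have h4 := sub_Rz (hT V) hz.ne' f
    rw [← hg] at h4
    rw [← h4]
    abel
  have h5 : Rz (T w) z f - g = - Rz (T w) z (T w g - T V g) := by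
    conv_lhs => rw [h3]
    rw [map_add]
    abel
  change ‖Rz (T w) z f - g‖ ≤ _
  rw [h5, norm_neg]
  exact norm_Rz_le (hT _) hz _

variable [MeasurableSpace α] [OpensMeasurableSpace α]

theorem inner_measG {T : α → L2 d →L[ℂ] L2 d} (hT : ∀ w, IsSelfAdjoint (T w))
    (hc : ∀ f, Continuous fun w => T w f) (a b : L2 d) (k : ℕ) :
    Measurable (fun q : α × ℝ => inner ℂ a (Rz (T q.1) (zk k q.2) b)) := by
  refine meas_gen (F := fun V E => inner ℂ a (Rz (T V) (zk k E) b)) (fun V => ?_) fun E => ?_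
  · rw [continuous_iff_continuousAt]
    intro E
    have h2 : ContinuousAt (fun z => Rz (T V) z b) (zk k E) :=
      ((diff_Rz (hT V) (zk_im_pos k E).ne').clm_apply (differentiableAt_const _)).continuousAt
    have h3 : ContinuousAt (fun z => inner ℂ a (Rz (T V) z b)) (zk k E) :=
      (innerSL ℂ a).continuous.continuousAt.comp h2
    exact ContinuousAt.comp (f := fun E : ℝ => zk k E) h3 (continuous_zk k).continuousAt
  · exact ((innerSL ℂ a).continuous.comp (Rz_contG hT hc (zk_im_pos k E) b)).measurable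

theorem exists_limG {T : α → L2 d →L[ℂ] L2 d} (hT : ∀ w, IsSelfAdjoint (T w))
    (hc : ∀ f, Continuous fun w => T w f) (P : Measure α) [SFinite P] (a b : L2 d) :
    ∃ f : α × ℝ → ℂ, Measurable f ∧
      ∀ᵐ q ∂(P.prod volume),
        Tendsto (fun k => inner ℂ a (Rz (T q.1) (zk k q.2) b)) atTop (𝓝 (f q)) := by
  apply measurable_limit_of_tendsto_metrizable_ae
  · intro k
    exact (inner_measG hT hc a b k).aemeasurable
  · have hm : MeasurableSet {q : α × ℝ |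
        ∃ l : ℂ, Tendsto (fun k => inner ℂ a (Rz (T q.1) (zk k q.2) b)) atTop (𝓝 l)} :=
      measurableSet_exists_tendsto fun k => inner_measG hT hc a b k
    have h1 : ∀ᵐ V ∂P, ∀ᵐ E : ℝ, (V, E) ∈ {q : α × ℝ |
        ∃ l : ℂ, Tendsto (fun k => inner ℂ a (Rz (T q.1) (zk k q.2) b)) atTop (𝓝 l)} :=
      ae_of_all _ fun V => lim_inner (hT V) a b
    exact (Measure.ae_prod_mem_iff_ae_ae_mem hm).2 h1

end gen

/-- a rank one perturbation -/
theorem rank_vecG {T T' : L2 d →L[ℂ] L2 d} (hT : IsSelfAdjoint T) (hT' : IsSelfAdjoint T')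
    {β : L2 d} {κ : ℂ} (hH : ∀ f, T' f = T f + (κ * inner ℂ β f) • β) {z : ℂ} (hz : 0 < z.im)
    (u : L2 d) :
    ‖κ‖ * ‖inner ℂ β (Rz T z u)‖ * qn T z β ≤
      (qn T' z u + qn T z u) * ‖1 + κ * inner ℂ β (Rz T z β)‖ := by
  set w' := Rz T' z u with hw'
  have h1 := sub_Rz hT' hz.ne' u
  rw [← hw', hH w'] at h1
  have h2 : w' + (κ * inner ℂ β w') • Rz T z β = Rz T z u := by
    apply Rz_unique hT hz.ne'
    rw [map_add, map_smul, smul_add]
    have h3 := sub_Rz hT hz.ne' β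
    calc T w' + (κ * inner ℂ β w') • T (Rz T z β) -
          (z • w' + z • (κ * inner ℂ β w') • Rz T z β)
        = (T w' - z • w') + (κ * inner ℂ β w') • (T (Rz T z β) - z • Rz T z β) := by
          rw [smul_sub, smul_comm z]
          abel
      _ = (T w' - z • w') + (κ * inner ℂ β w') • β := by rw [h3]
      _ = u := by
          rw [← h1]
          abel
  have h4 : inner ℂ β w' * (1 + κ * inner ℂ β (Rz T z β)) = inner ℂ β (Rz T z u) := by
    rw [← h2, inner_add_right, inner_smul_right]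
    ring
  have h5 : ‖κ * inner ℂ β w'‖ * ‖Rz T z β‖ ≤ ‖w'‖ + ‖Rz T z u‖ := by
    rw [← norm_smul, eq_sub_of_add_eq' h2]
    refine (norm_sub_le _ _).trans ?_
    rw [add_comm]
  rw [← h4, norm_mul]
  have hs := Real.sqrt_nonneg z.im
  have h6 := mul_le_mul_of_nonneg_left h5 hs
  rw [norm_mul] at h6
  unfold qn
  have h7 := mul_le_mul_of_nonneg_right h6 (norm_nonneg (1 + κ * inner ℂ β (Rz T z β)))
  calc ‖κ‖ * (‖inner ℂ β w'‖ * ‖1 + κ * inner ℂ β (Rz T z β)‖) * (Real.sqrt z.im * ‖Rz T z β‖) =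
      Real.sqrt z.im * (‖κ‖ * ‖inner ℂ β w'‖ * ‖Rz T z β‖) *
        ‖1 + κ * inner ℂ β (Rz T z β)‖ := by ring
    _ ≤ _ := h7
    _ = _ := by ring

section nul

variable {ι : Type} [AddCommGroup ι] [Countable ι] [DecidableEq ι]

/-- if `b` has maximal type with positive probability then `u` has almost surely -/
theorem null_G {T : (ι → ℝ) → L2 d →L[ℂ] L2 d} (hT : ∀ w, IsSelfAdjoint (T w))
    (hc : ∀ f, Continuous fun w => T w f) {ν : Measure ℝ} [IsProbabilityMeasure ν]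
    {a b ε0 : ℝ} (hε0 : 0 < ε0) (hab : 4 * ε0 ≤ |a - b|) (ha : ν (Metric.ball a ε0) ≠ 0)
    (hb : ν (Metric.ball b ε0) ≠ 0) {D : Set ℝ} (hD : ∀ᵐ v ∂ν, v ∈ D)
    {u : L2 d} {y : ℕ → ι} (hy : Function.Injective y) {β : ℕ → L2 d}
    (hne : ∀ k w, ∃ n : ℕ, inner ℂ (β k) (((T w) ^ n) u) ≠ 0)
    (hup : ∀ k (w : ι → ℝ) (v : ℝ) (f : L2 d), w (y k) ∈ D → v ∈ D →
      T (up (y k) (w, v)) f = T w f + (((v - w (y k) : ℝ) : ℂ) * inner ℂ (β k) f) • β k)
    {β0 : L2 d} {j0 : ι} (hcov : ∀ k (w : ι → ℝ) (z : ℂ), z.im ≠ 0 →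
      inner ℂ (β k) (Rz (T w) z (β k)) = inner ℂ β0 (Rz (T (sh (y k - j0) w)) z β0))
    {h : (ι → ℝ) × ℝ → ℂ} (hm : Measurable h)
    (hh : ∀ᵐ q ∂((PP ι ν).prod volume),
      Tendsto (fun k => inner ℂ β0 (Rz (T q.1) (zk k q.2) β0)) atTop (𝓝 (h q)))
    {U : (ι → ℝ) × ℝ → ℂ} (hUm : Measurable U)
    (hU : ∀ᵐ q ∂((PP ι ν).prod volume),
        Tendsto (fun k => inner ℂ u (Rz (T q.1) (zk k q.2) u)) atTop (𝓝 (U q))) :
    ∀ᵐ E : ℝ, PP ι ν {V | 0 < (h (V, E)).im} ≠ 0 →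
      ∀ᵐ V ∂(PP ι ν), 0 < (U (V, E)).im := by
  have hex : ∀ k : ℕ, ∃ f : (ι → ℝ) × ℝ → ℂ, Measurable f ∧
      ∀ᵐ q ∂((PP ι ν).prod volume),
        Tendsto (fun j => inner ℂ (β k) (Rz (T q.1) (zk j q.2) u)) atTop (𝓝 (f q)) :=
    fun k => exists_limG hT hc (PP ι ν) (β k) u
  choose f hfm hf using hex
  have hne : ∀ᵐ q ∂((PP ι ν).prod volume), ∀ k, f k q ≠ 0 := by
    rw [ae_all_iff]
    intro k
    have hms : MeasurableSet {q : (ι → ℝ) × ℝ | f k q ≠ 0} :=
      ((hfm k) (measurableSet_singleton (0 : ℂ))).compl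
    refine (Measure.ae_prod_mem_iff_ae_ae_mem hms).2 ?_
    filter_upwards [Measure.ae_ae_of_ae_prod (hf k)] with V hV
    obtain ⟨n, hn⟩ := hne k V
    filter_upwards [hV, bdry_ne (hT V) u (β k) hn] with E e1 e2 e3
    apply e2
    have e4 : f k (V, E) = 0 := e3
    rw [← e4]
    exact e1
  have hall : ∀ᵐ q ∂((PP ι ν).prod volume), ∀ x : ι,
      Tendsto (fun k => inner ℂ β0 (Rz (T (sh x q.1)) (zk k q.2) β0)) atTop
        (𝓝 (h (sh x q.1, q.2))) := by
    rw [ae_all_iff]; intro x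
    have hmp : MeasurePreserving (Prod.map (sh x) (id : ℝ → ℝ)) ((PP ι ν).prod volume)
      ((PP ι ν).prod volume) := (mp_sh ν x).prod (MeasurePreserving.id volume)
    exact hmp.quasiMeasurePreserving.ae hh
  have hf' : ∀ᵐ q ∂((PP ι ν).prod volume), ∀ k,
      Tendsto (fun j => inner ℂ (β k) (Rz (T q.1) (zk j q.2) u)) atTop (𝓝 (f k q)) := by
    rw [ae_all_iff]; exact hf
  filter_upwards [ae_swap hU, ae_swap hall, ae_swap hf', ae_swap hne] with E hE1 hE2 hE3 hE4 hA0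
  have hmU : Measurable fun V : ι → ℝ => (U (V, E)).im :=
    Complex.measurable_im.comp (hUm.comp (measurable_id.prodMk measurable_const))
  have hmh : Measurable fun V : ι → ℝ => (h (V, E)).im :=
    Complex.measurable_im.comp (hm.comp (measurable_id.prodMk measurable_const))
  have hN : MeasurableSet {V : ι → ℝ | ¬ 0 < (U (V, E)).im} :=
    (measurableSet_lt measurable_const hmU).compl
  have hA0m : MeasurableSet {V : ι → ℝ | 0 < (h (V, E)).im} :=
    measurableSet_lt measurable_const hmh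
  have hA : MeasurableSet (sh (-j0) ⁻¹' {V : ι → ℝ | 0 < (h (V, E)).im}) := meas_sh _ hA0m
  have hA1 : PP ι ν (sh (-j0) ⁻¹' {V : ι → ℝ | 0 < (h (V, E)).im}) ≠ 0 := by
    rw [(mp_sh ν (-j0)).measure_preimage hA0m.nullMeasurableSet]
    exact hA0
  rw [ae_iff]
  refine left_null ν hε0 hab ha hb hN hA hy (fun k => ?_) hA1
  set x := y k with hx
  have c1 := (measurePreserving_fst (μ := PP ι ν) (ν := ν)).quasiMeasurePreserving.ae hE1
  have c2 := (measurePreserving_fst (μ := PP ι ν) (ν := ν)).quasiMeasurePreserving.ae hE2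
  have c3 := (measurePreserving_fst (μ := PP ι ν) (ν := ν)).quasiMeasurePreserving.ae hE3
  have c4 := (measurePreserving_fst (μ := PP ι ν) (ν := ν)).quasiMeasurePreserving.ae hE4
  have c5 := (mp_up ν x).quasiMeasurePreserving.ae hE1
  have hK1 : ∀ᵐ p ∂((PP ι ν).prod ν), p.2 ∈ D :=
    (measurePreserving_snd (μ := PP ι ν) (ν := ν)).quasiMeasurePreserving.ae hD
  have hK2 : ∀ᵐ p ∂((PP ι ν).prod ν), p.1 x ∈ D := by
    have h1 : ∀ᵐ V ∂(PP ι ν), V x ∈ D := by
      have := (measurePreserving_eval_infinitePi (fun _ : ι => ν) x).quasiMeasurePreserving.ae hD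
      exact this
    exact (measurePreserving_fst (μ := PP ι ν) (ν := ν)).quasiMeasurePreserving.ae h1
  filter_upwards [c1, c2, c3, c4, c5, hK1, hK2] with p d1 d2 d3 d4 d5 d6 d7
  intro hp1 hp2 hp3 hp4
  have hp1' : ¬ 0 < (U (p.1, E)).im := hp1
  have hp2' : ¬ 0 < (U (up x p, E)).im := hp2
  have hp4' : 0 < (h (sh (x - j0) p.1, E)).im := by
    have h1 : sh (-j0) (sh x p.1) ∈ {V : ι → ℝ | 0 < (h (V, E)).im} := hp4
    rw [sh_sh, neg_add_eq_sub] at h1
    exact h1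
  have t1 := qn_lim (hT p.1) d1
  have t2 := qn_lim (hT (up x p)) d5
  rw [Real.sqrt_eq_zero_of_nonpos (not_lt.1 hp1')] at t1
  rw [Real.sqrt_eq_zero_of_nonpos (not_lt.1 hp2')] at t2
  have t0 : Tendsto (fun j => inner ℂ (β k) (Rz (T p.1) (zk j E) (β k))) atTop
      (𝓝 (h (sh (x - j0) p.1, E))) := by
    refine (d2 (x - j0)).congr fun j => ?_
    exact (hcov k p.1 _ (zk_im_pos j E).ne').symm
  have t3 : Tendsto (fun j => qn (T p.1) (zk j E) (β k)) atTop
      (𝓝 (Real.sqrt (h (sh (x - j0) p.1, E)).im)) := qn_lim (hT p.1) t0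
  have t4 := (t0.const_mul ((p.2 - p.1 x : ℝ) : ℂ)).const_add 1
  have t5 := ((t2.add t1).mul t4.norm)
  have t6 := (((d3 k).norm.const_mul ‖((p.2 - p.1 x : ℝ) : ℂ)‖).mul t3)
  have hfin := le_of_tendsto_of_tendsto' t6 t5 fun j =>
    rank_vecG (hT p.1) (hT (up x p)) (fun g => hup k p.1 p.2 g d7 d6) (zk_im_pos j E) u
  rw [add_zero, zero_mul] at hfin
  have hpos : 0 < ‖((p.2 - p.1 x : ℝ) : ℂ)‖ * ‖f k (p.1, E)‖ *
      Real.sqrt (h (sh (x - j0) p.1, E)).im := by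
    have q1 : 0 < ‖((p.2 - p.1 x : ℝ) : ℂ)‖ := by
      rw [norm_pos_iff]
      exact_mod_cast sub_ne_zero.2 hp3
    have q2 : 0 < ‖f k (p.1, E)‖ := norm_pos_iff.2 (d4 k)
    have q3 : 0 < Real.sqrt (h (sh (x - j0) p.1, E)).im := Real.sqrt_pos.2 hp4'
    positivity
  linarith

end nul

/-- no absolutely continuous spectrum where all unit vectors are negligible -/
theorem no_acG {T : L2 d →L[ℂ] L2 d} (hsa : IsSelfAdjoint T) {B : Set ℝ} (hB : MeasurableSet B)
    (h0 : ∀ᵐ E ∂(volume.restrict B), ∀ x : Sd d,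
      Tendsto (fun k => qn T (zk k E) (ee x)) atTop (𝓝 0))
    {φ : L2 d} {μ : Measure ℝ} [IsFiniteMeasure μ]
    (hμ : ∀ z : ℂ, z.im ≠ 0 → (∫ x, ((x : ℂ) - z)⁻¹ ∂μ) = inner ℂ φ (Rz T z φ)) :
    (μ.restrict B) ⟂ₘ volume := by
  apply mutuallySingular_of_rnDeriv hB
  have hε : ∀ k : ℕ, (0 : ℝ) < 1 / ((k : ℝ) + 1) := fun k => by positivity
  -- the unit vectors
  have hunit : ∀ᵐ (E : ℝ) ∂(volume.restrict B), ∀ x : Sd d,
      Tendsto (fun k : ℕ => qn T ((E : ℂ) + ((1 / ((k : ℝ) + 1) : ℝ) : ℂ) * Complex.I) (ee x))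
        atTop (𝓝 0) := by
    have h1 : ∀ᵐ E ∂(volume.restrict B), ∀ x : Sd d,
        Tendsto (fun k => qn T (zk k E) (ee x)) atTop (𝓝 (Real.sqrt (kap * dn hsa (ee x) E))) := by
      rw [ae_all_iff]
      exact fun x => ae_restrict_of_ae (qn_tendsto hsa (ee x))
    have h2 : ∀ᵐ (E : ℝ) ∂(volume.restrict B), ∀ x : Sd d,
        Tendsto (fun η : ℝ => (BT (spm hsa (ee x)) (E + η * Complex.I)).im) (𝓝[>] 0)
        (𝓝 (kap * ((spm hsa (ee x)).rnDeriv volume E).toReal)) := by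
      rw [ae_all_iff]
      exact fun x => ae_restrict_of_ae (ae_im_tendsto _)
    filter_upwards [h1, h2, h0] with E e1 e2 e3 x
    have e6 := tendsto_nhds_unique (e1 x) (e3 x)
    have e8 := (e2 x).comp tendsto_sk
    have e10 := (Real.continuous_sqrt.tendsto _).comp e8
    have e9 : Real.sqrt (kap * ((spm hsa (ee x)).rnDeriv volume E).toReal) = 0 := e6
    rw [e9] at e10
    refine e10.congr fun k => ?_
    simp only [Function.comp_apply]
    have him : ((E : ℂ) + ((1 / ((k : ℝ) + 1) : ℝ) : ℂ) * Complex.I).im = 1 / ((k : ℝ) + 1) :=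
      Pool.Agent.H12R2.And.zim
    rw [BT_spm hsa (ee x) (by rw [him]; exact (hε k).ne'), ← qn_sq hsa (by rw [him]; exact hε k),
      Real.sqrt_sq (qn_nonneg _ _)]
  have hmain : ∀ N : ℕ, ∀ᵐ E ∂(volume.restrict (B ∩ Ioc (-((N : ℝ) + 1 + 2 * ‖T‖))
      ((N : ℝ) + 1 + 2 * ‖T‖))), μ.rnDeriv volume E = 0 := by
    intro N
    refine singular_on hsa (N := (N : ℝ) + 1 + 2 * ‖T‖) inter_subset_right
      (by linarith [(Nat.cast_nonneg N : (0 : ℝ) ≤ N)]) hε (fun k => ?_)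
      tendsto_one_div_add_atTop_nhds_zero_nat (𝒟 := Dn d) Dn_dense ?_ φ hμ
    · have h1 : 1 / ((k : ℝ) + 1) ≤ 1 := by
        rw [div_le_one (by positivity)]
        linarith [(Nat.cast_nonneg k : (0 : ℝ) ≤ k)]
      have := norm_nonneg T
      linarith [(Nat.cast_nonneg N : (0 : ℝ) ≤ N)]
    · rintro ψ ⟨s, c, rfl⟩
      have h1 := ae_restrict_of_ae_restrict_of_subset
        (inter_subset_left (s := B) (t := Ioc (-((N : ℝ) + 1 + 2 * ‖T‖))
          ((N : ℝ) + 1 + 2 * ‖T‖))) hunit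
      filter_upwards [h1] with E hE2
      have h3 : Tendsto (fun k : ℕ => qn T ((E : ℂ) + ((1 / ((k : ℝ) + 1) : ℝ) : ℂ) * Complex.I)
          (∑ x ∈ s, c x • ee x)) atTop (𝓝 0) := by
        have h4 : Tendsto (fun k : ℕ => ∑ x ∈ s, ‖c x‖ *
            qn T ((E : ℂ) + ((1 / ((k : ℝ) + 1) : ℝ) : ℂ) * Complex.I) (ee x)) atTop
            (𝓝 (∑ x ∈ s, ‖c x‖ * 0)) :=
          tendsto_finsetSum _ fun x _ => (hE2 x).const_mul _
        simp only [mul_zero, Finset.sum_const_zero] at h4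
        exact squeeze_zero (fun k => qn_nonneg _ _) (fun k => qn_sum _ _ _ _) h4
      have h5 := (ENNReal.continuous_ofReal.tendsto _).comp (h3.pow 2)
      simp only [ne_eq, OfNat.ofNat_ne_zero, not_false_eq_true, zero_pow, ENNReal.ofReal_zero] at h5
      refine h5.congr fun k => ?_
      simp only [Function.comp_apply]
      have him : ((E : ℂ) + ((1 / ((k : ℝ) + 1) : ℝ) : ℂ) * Complex.I).im = 1 / ((k : ℝ) + 1) :=
        Pool.Agent.H12R2.And.zim
      rw [qn_sq hsa (by rw [him]; exact hε k)]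
      rfl
  have hB' : B = ⋃ N : ℕ, B ∩ Ioc (-((N : ℝ) + 1 + 2 * ‖T‖)) ((N : ℝ) + 1 + 2 * ‖T‖) := by
    rw [← inter_iUnion]
    symm
    rw [inter_eq_left]
    intro E _
    obtain ⟨N, hN⟩ := exists_nat_gt |E|
    refine mem_iUnion.2 ⟨N, ?_⟩
    have h1 := norm_nonneg T
    have h2 := abs_lt.1 hN
    constructor <;> linarith
  rw [hB', ae_restrict_iUnion_iff]
  exact hmain

/-- a vector which is not negligible at almost every point of `Sg` -/
theorem seesG {T : L2 d →L[ℂ] L2 d} (hT : IsSelfAdjoint T) {Sg : Set ℝ} {u : L2 d}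
    (hu : ∀ᵐ E : ℝ, E ∈ Sg → ¬ Tendsto (fun k => qn T (zk k E) u) atTop (𝓝 0))
    {B : Set ℝ} (hB : MeasurableSet B) (hB0 : volume (B ∩ Sg) ≠ 0) {μ : Measure ℝ}
    [IsFiniteMeasure μ]
    (hμ : ∀ z : ℂ, z.im ≠ 0 → (∫ x, ((x : ℂ) - z)⁻¹ ∂μ) = inner ℂ u (Rz T z u)) :
    ¬ (μ.restrict B) ⟂ₘ volume := by
  intro hsing
  apply hB0
  have hdiff : ∀ z : ℂ, 0 < z.im → DifferentiableAt ℂ (BT μ) z := by
    intro z hz
    refine (diff_inner hT u hz.ne').congr_of_eventuallyEq ?_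
    have : ∀ᶠ w : ℂ in 𝓝 z, 0 < w.im :=
      (Complex.continuous_im.tendsto z).eventually (lt_mem_nhds hz)
    filter_upwards [this] with w hw
    exact hμ w hw.ne'
  have hbd : ∀ᵐ E : ℝ, Tendsto (fun k => qn T (zk k E) u ^ 2) atTop
      (𝓝 (kap * (μ.rnDeriv volume E).toReal)) := by
    filter_upwards [boundary μ hdiff] with E ⟨l, hl, hl2⟩
    rw [← hl2]
    refine ((Complex.continuous_im.tendsto l).comp hl).congr fun k => ?_
    rw [qn_sq hT (zk_im_pos k E), ← hμ _ (zk_im_pos k E).ne']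
    rfl
  have f2 : (μ.restrict B).rnDeriv volume =ᵐ[volume] 0 := hsing.rnDeriv_ae_eq_zero
  have f3 : (μ.restrict B).rnDeriv volume =ᵐ[volume] B.indicator (μ.rnDeriv volume) :=
    Measure.rnDeriv_restrict μ volume hB
  have f4 : ∀ᵐ E : ℝ, E ∉ B ∩ Sg := by
    filter_upwards [hbd, f2, f3, hu] with E g1 g2 g3 g4 g6
    apply g4 g6.2
    rw [g2, indicator_of_mem g6.1] at g3
    rw [← g3] at g1
    simp only [Pi.zero_apply, ENNReal.toReal_zero, mul_zero] at g1
    have h2 := (Real.continuous_sqrt.tendsto 0).comp g1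
    rw [Real.sqrt_zero] at h2
    refine h2.congr fun k => ?_
    exact Real.sqrt_sq (qn_nonneg _ _)
  have f5 := ae_iff.1 f4
  simpa only [not_not] using! f5

end Pool.Agent.TH980.CN
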