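import Pool.Agent.TH980.CN.Sit
import Pool.Agent.TH980.CN.Gnr

set_option autoImplicit false

/-! Every fixed nonzero vector is almost surely of maximal absolutely continuous type, for the
random conductance operator. -/

open MeasureTheory Filter Topology Set
open scoped ENNReal NNReal
open Pool.Agent.H12R2.And (Rz isUnit_sub sub_Rz im_inner norm_Rz_le diff_inner diff_Rz)
open Pool.Agent.TH980.IM Pool.Agent.TH980.IM.PR

namespace Pool.Agent.TH980.CN

variable {d : ℕ}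

/-- negligible vectors -/
def Ng (T : L2 d →L[ℂ] L2 d) (E : ℝ) (v : L2 d) : Prop :=
  Tendsto (fun k => qn T (zk k E) v) atTop (𝓝 0)

theorem Ng.add {T : L2 d →L[ℂ] L2 d} {E : ℝ} {u v : L2 d} (hu : Ng T E u) (hv : Ng T E v) :
    Ng T E (u + v) := by
  have h := Tendsto.add hu hv
  rw [add_zero] at h
  exact squeeze_zero (fun k => qn_nonneg _ _) (fun k => qn_add _ _ _) h

theorem Ng.smul {T : L2 d →L[ℂ] L2 d} {E : ℝ} {u : L2 d} (c : ℂ) (hu : Ng T E u) :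
    Ng T E (c • u) := by
  have h := Tendsto.const_mul ‖c‖ hu
  rw [mul_zero] at h
  refine h.congr fun k => ?_
  exact (qn_smul _ _ _).symm

theorem Ng.sum {T : L2 d →L[ℂ] L2 d} {E : ℝ} {κ : Type} (s : Finset κ) {u : κ → L2 d}
    (hu : ∀ i ∈ s, Ng T E (u i)) : Ng T E (∑ i ∈ s, u i) := by
  classical
  induction s using Finset.induction_on with
  | empty =>
    rw [Finset.sum_empty]
    unfold Ng
    simp only [qn_zero]
    exact tendsto_const_nhds
  | insert a s ha ih =>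
    rw [Finset.sum_insert ha]
    exact (hu a (Finset.mem_insert_self _ _)).add
      (ih fun i hi => hu i (Finset.mem_insert_of_mem hi))

/-- if all edge vectors are negligible at `E ≠ 0` then so are the unit vectors -/
theorem unit_ng {a b : ℝ} (ha : 0 < a) (hab : a ≤ b) {w : Ed d → ℝ} {E : ℝ} (hE : E ≠ 0)
    (h : ∀ e : Ed d, Ng (HC a b w) E (be e)) (x : Sd d) : Ng (HC a b w) E (ee x) := by
  have h1 : Ng (HC a b w) E (HC a b w (ee x)) := by
    rw [HC_unit ha hab]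
    exact Ng.sum _ fun i _ => ((h _).smul _).add ((h _).smul _)
  have h2 : Ng (HC a b w) E (HC a b w (ee x) - (E : ℂ) • ee x) := qn_T (HC_sa ha hab w) (ee x) E
  have h3 := (h1.add (h2.smul (-1))).smul ((E : ℂ)⁻¹)
  have hE' : (E : ℂ) ≠ 0 := by exact_mod_cast hE
  have e : (E : ℂ)⁻¹ • (HC a b w (ee x) + (-1 : ℂ) • (HC a b w (ee x) - (E : ℂ) • ee x)) =
      (ee x : L2 d) := by
    rw [neg_smul, one_smul, neg_sub, add_sub_cancel, smul_smul, inv_mul_cancel₀ hE', one_smul]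
  rw [e] at h3
  exact h3

/-- one direction of edges -/
theorem null_dir [NeZero d] {a b : ℝ} (ha : 0 < a) (hab : a ≤ b) {ν : Measure ℝ}
    [IsProbabilityMeasure ν] (hD : ∀ᵐ v ∂ν, v ∈ Icc a b) (hν : ∀ r : ℝ, ν {r} ≠ 1) (i : Fin d)
    {h : (Ed d → ℝ) × ℝ → ℂ} (hm : Measurable h)
    (hh : ∀ᵐ q ∂((PP (Ed d) ν).prod volume), Tendsto (fun k =>
      inner ℂ (be (0, i)) (Rz (HC a b q.1) (zk k q.2) (be (0, i)))) atTop (𝓝 (h q)))
    {u : L2 d} (hu : u ≠ 0) {U : (Ed d → ℝ) × ℝ → ℂ} (hUm : Measurable U)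
    (hU : ∀ᵐ q ∂((PP (Ed d) ν).prod volume),
        Tendsto (fun k => inner ℂ u (Rz (HC a b q.1) (zk k q.2) u)) atTop (𝓝 (U q))) :
    ∀ᵐ E : ℝ, PP (Ed d) ν {V | 0 < (h (V, E)).im} ≠ 0 →
      ∀ᵐ V ∂(PP (Ed d) ν), 0 < (U (V, E)).im := by
  obtain ⟨a', b', ε0, hε0, hab', ha', hb'⟩ := two_points hν
  obtain ⟨y, hyi, hy⟩ := exists_sites ha hab i u hu
  refine null_G (T := HC a b) (HC_sa ha hab) (HC_cont a b) hε0 hab' ha' hb' (D := Icc a b) hD
    (y := fun k => (y k, i)) (fun k l hkl => hyi (Prod.mk.inj hkl).1)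
    (β := fun k => be (y k, i)) hy (fun k w v f h1 h2 => ?_)
    (β0 := be (0, i)) (j0 := (0, i)) (fun k w z hz => ?_) hm hh hUm hU
  · rw [HC_up ha hab, cc_eq h1, cc_eq h2]
  · rw [be_cov ha hab w (y k) i hz, Prod.mk_sub_mk, sub_zero, sub_self]

/-- **Every fixed nonzero vector is almost surely of maximal absolutely continuous type.** -/
theorem cond_main [NeZero d] {a b : ℝ} (ha : 0 < a) {ν : Measure ℝ} [IsProbabilityMeasure ν]
    (hν1 : ν (Icc a b) = 1) (hν : ∀ r : ℝ, ν {r} ≠ 1) :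
    ∃ Sg : Set ℝ, MeasurableSet Sg ∧ ∀ u : L2 d, u ≠ 0 →
    ∀ᵐ V ∂(PP (Ed d) ν), (∀ e, V e ∈ Icc a b) ∧ ∀ B : Set ℝ, MeasurableSet B →
      (volume (B ∩ Sg) = 0 → ∀ (φ : L2 d) (μ : Measure ℝ), IsFiniteMeasure μ →
        (∀ z : ℂ, z.im ≠ 0 → (∫ x, ((x : ℂ) - z)⁻¹ ∂μ) = inner ℂ φ (Rz (HC a b V) z φ)) →
        (μ.restrict B) ⟂ₘ volume) ∧
      (volume (B ∩ Sg) ≠ 0 → ∀ μ : Measure ℝ, IsFiniteMeasure μ →
        (∀ z : ℂ, z.im ≠ 0 → (∫ x, ((x : ℂ) - z)⁻¹ ∂μ) = inner ℂ u (Rz (HC a b V) z u)) →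
        ¬ (μ.restrict B) ⟂ₘ volume) := by
  have hab : a ≤ b := by
    by_contra hcon
    rw [Icc_eq_empty hcon, measure_empty] at hν1
    exact zero_ne_one hν1
  have hD : ∀ᵐ v ∂ν, v ∈ Icc a b := by
    rw [ae_iff]
    exact (prob_compl_eq_zero_iff measurableSet_Icc).2 hν1
  have hex : ∀ i : Fin d, ∃ f : (Ed d → ℝ) × ℝ → ℂ, Measurable f ∧
      ∀ᵐ q ∂((PP (Ed d) ν).prod volume), Tendsto (fun k =>
        inner ℂ (be (0, i)) (Rz (HC a b q.1) (zk k q.2) (be (0, i)))) atTop (𝓝 (f q)) :=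
    fun i => exists_limG (HC_sa ha hab) (HC_cont a b) (PP (Ed d) ν) (be (0, i)) (be (0, i))
  choose h hm hh using hex
  have hms : MeasurableSet {q : (Ed d → ℝ) × ℝ | 0 < (h 0 q).im} :=
    measurableSet_lt measurable_const (Complex.measurable_im.comp (hm 0))
  set Sg : Set ℝ := {E | PP (Ed d) ν {V | 0 < (h 0 (V, E)).im} ≠ 0} with hSg
  have hSgm : MeasurableSet Sg := by
    have h1 : Measurable fun E : ℝ => PP (Ed d) ν ((fun V => (V, E)) ⁻¹'
        {q : (Ed d → ℝ) × ℝ | 0 < (h 0 q).im}) := measurable_measure_prodMk_right hms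
    exact h1 (measurableSet_singleton 0).compl
  refine ⟨Sg, hSgm, fun u hu => ?_⟩
  have hall : ∀ᵐ q ∂((PP (Ed d) ν).prod volume), ∀ (i : Fin d) (x : Sd d),
      Tendsto (fun k => inner ℂ (be (x, i)) (Rz (HC a b q.1) (zk k q.2) (be (x, i)))) atTop
        (𝓝 (h i (sh ((x, 0) : Ed d) q.1, q.2))) := by
    rw [ae_all_iff]; intro i
    rw [ae_all_iff]; intro x
    have hmp : MeasurePreserving (Prod.map (sh ((x, 0) : Ed d)) (id : ℝ → ℝ))
      ((PP (Ed d) ν).prod volume) ((PP (Ed d) ν).prod volume) :=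
      (mp_sh ν _).prod (MeasurePreserving.id volume)
    filter_upwards [hmp.quasiMeasurePreserving.ae (hh i)] with q hq
    refine hq.congr fun k => ?_
    exact (be_cov ha hab q.1 x i (zk_im_pos k q.2).ne').symm
  have r1 : ∀ᵐ V ∂(PP (Ed d) ν), ∀ᵐ E : ℝ, ∀ (i : Fin d) (x : Sd d),
      Tendsto (fun k => inner ℂ (be (x, i)) (Rz (HC a b V) (zk k E) (be (x, i)))) atTop
        (𝓝 (h i (sh ((x, 0) : Ed d) V, E))) :=
    Measure.ae_ae_of_ae_prod hall
  -- the vector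
  obtain ⟨U, hUm, hU⟩ := exists_limG (HC_sa ha hab) (HC_cont a b) (PP (Ed d) ν) u u
  have r2 : ∀ᵐ V ∂(PP (Ed d) ν), ∀ᵐ E : ℝ,
      Tendsto (fun k => inner ℂ u (Rz (HC a b V) (zk k E) u)) atTop (𝓝 (U (V, E))) :=
    Measure.ae_ae_of_ae_prod hU
  have hn := null_dir ha hab hD hν 0 (hm 0) (hh 0) hu hUm hU
  have r4 : ∀ᵐ V ∂(PP (Ed d) ν), ∀ᵐ E : ℝ, E ∈ Sg → 0 < (U (V, E)).im := by
    have hmeas : MeasurableSet {q : (Ed d → ℝ) × ℝ | q.2 ∈ Sg → 0 < (U q).im} := by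
      have e : {q : (Ed d → ℝ) × ℝ | q.2 ∈ Sg → 0 < (U q).im} =
          (Prod.snd ⁻¹' Sg)ᶜ ∪ {q | 0 < (U q).im} := by
        ext q
        simp only [Set.mem_ofPred_eq, mem_union, mem_compl_iff, mem_preimage]
        tauto
      rw [e]
      exact (measurable_snd hSgm).compl.union
        (measurableSet_lt measurable_const (Complex.measurable_im.comp hUm))
    have h1 : ∀ᵐ E : ℝ, ∀ᵐ V ∂(PP (Ed d) ν),
        (V, E) ∈ {q : (Ed d → ℝ) × ℝ | q.2 ∈ Sg → 0 < (U q).im} := by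
      filter_upwards [hn] with E hE
      by_cases hEg : E ∈ Sg
      · filter_upwards [hE hEg] with V hV _
        exact hV
      · exact ae_of_all _ fun V hE' => absurd hE' hEg
    exact (Measure.ae_ae_comm hmeas).2 h1
  -- no absolutely continuous spectrum outside `Sg`
  have hdir : ∀ᵐ E : ℝ, ∀ i : Fin d, PP (Ed d) ν {V | 0 < (h i (V, E)).im} ≠ 0 →
      ∀ᵐ V ∂(PP (Ed d) ν), 0 < (h 0 (V, E)).im := by
    rw [ae_all_iff]
    intro i
    exact null_dir ha hab hD hν i (hm i) (hh i) (be_ne (0, 0)) (hm 0) (hh 0)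
  have r3 : ∀ᵐ V ∂(PP (Ed d) ν), ∀ᵐ E : ℝ, E ∉ Sg → ∀ (i : Fin d) (x : Sd d),
      (h i (sh ((x, 0) : Ed d) V, E)).im ≤ 0 := by
    have hmx : ∀ (i : Fin d) (x : Sd d), Measurable fun q : (Ed d → ℝ) × ℝ =>
        (h i (sh ((x, 0) : Ed d) q.1, q.2)).im :=
      fun i x => Complex.measurable_im.comp
        ((hm i).comp (((meas_sh _).comp measurable_fst).prodMk measurable_snd))
    have hmeas : MeasurableSet {q : (Ed d → ℝ) × ℝ | q.2 ∉ Sg →
        ∀ (i : Fin d) (x : Sd d), (h i (sh ((x, 0) : Ed d) q.1, q.2)).im ≤ 0} := by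
      have e : {q : (Ed d → ℝ) × ℝ | q.2 ∉ Sg →
          ∀ (i : Fin d) (x : Sd d), (h i (sh ((x, 0) : Ed d) q.1, q.2)).im ≤ 0} =
          (Prod.snd ⁻¹' Sg) ∪ ⋂ (i : Fin d) (x : Sd d),
            {q | (h i (sh ((x, 0) : Ed d) q.1, q.2)).im ≤ 0} := by
        ext q
        simp only [Set.mem_ofPred_eq, mem_union, mem_preimage, mem_iInter]
        tauto
      rw [e]
      apply MeasurableSet.union (measurable_snd hSgm)
      exact MeasurableSet.iInter fun i => MeasurableSet.iInter fun x =>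
        measurableSet_le (hmx i x) measurable_const
    have h1 : ∀ᵐ E : ℝ, ∀ᵐ V ∂(PP (Ed d) ν), (V, E) ∈ {q : (Ed d → ℝ) × ℝ | q.2 ∉ Sg →
        ∀ (i : Fin d) (x : Sd d), (h i (sh ((x, 0) : Ed d) q.1, q.2)).im ≤ 0} := by
      filter_upwards [hdir] with E hE
      by_cases hEg : E ∈ Sg
      · exact ae_of_all _ fun V hE' => absurd hEg hE'
      · have h2 : PP (Ed d) ν {V | 0 < (h 0 (V, E)).im} = 0 := not_not.1 hEg
        have h2' : ∀ i : Fin d, PP (Ed d) ν {V | 0 < (h i (V, E)).im} = 0 := by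
          intro i
          by_contra hne
          have h3 := hE i hne
          rw [ae_iff] at h3
          have h4 : PP (Ed d) ν univ = 0 := by
            have h5 : (univ : Set (Ed d → ℝ)) ⊆ {V | 0 < (h 0 (V, E)).im} ∪
                {V | ¬ 0 < (h 0 (V, E)).im} := fun V _ => by
              simp only [mem_union, Set.mem_ofPred_eq]
              exact em _
            exact measure_mono_null h5 (measure_union_null h2 h3)
          rw [measure_univ] at h4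
          exact one_ne_zero h4
        have h3 : ∀ᵐ V ∂(PP (Ed d) ν), ∀ (i : Fin d) (x : Sd d),
            (h i (sh ((x, 0) : Ed d) V, E)).im ≤ 0 := by
          rw [ae_all_iff]
          intro i
          rw [ae_all_iff]
          intro x
          have h4 : ∀ᵐ V ∂(PP (Ed d) ν), (h i (V, E)).im ≤ 0 := by
            rw [ae_iff]
            simpa only [not_le] using h2' i
          exact (mp_sh ν _).quasiMeasurePreserving.ae h4
        filter_upwards [h3] with V hV _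
        exact hV
    exact (Measure.ae_ae_comm hmeas).2 h1
  have hbd : ∀ᵐ V ∂(PP (Ed d) ν), ∀ e, V e ∈ Icc a b := by
    rw [ae_all_iff]
    intro e
    exact (measurePreserving_eval_infinitePi (fun _ : Ed d => ν) e).quasiMeasurePreserving.ae hD
  filter_upwards [r1, r2, r3, r4, hbd] with V e1 e2 e3 e4 e5
  have hsa := HC_sa ha hab V
  refine ⟨e5, fun B hB => ⟨fun hB0 φ μ hμf hμ => ?_, fun hB0 μ hμf hμ => ?_⟩⟩
  · refine no_acG hsa hB ?_ hμ
    have h4 : ∀ᵐ E : ℝ, E ∉ B ∩ Sg := by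
      rw [ae_iff]
      simpa only [not_not] using! hB0
    have h5 : ∀ᵐ E : ℝ, E ≠ 0 := by
      rw [ae_iff]
      simp
    filter_upwards [ae_restrict_of_ae e1, ae_restrict_of_ae e3, ae_restrict_of_ae h4,
      ae_restrict_of_ae h5, ae_restrict_mem hB] with E f0 f1 f2 f4 f3
    refine unit_ng ha hab f4 fun e => ?_
    obtain ⟨x, i⟩ := e
    have g1 := qn_lim hsa (f0 i x)
    rw [Real.sqrt_eq_zero_of_nonpos (f1 (fun hE => f2 ⟨f3, hE⟩) i x)] at g1
    exact g1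
  · refine seesG hsa (Sg := Sg) ?_ hB hB0 hμ
    filter_upwards [e2, e4] with E g1 g2 hES hneg
    have g3 := qn_lim hsa g1
    have g4 := tendsto_nhds_unique g3 hneg
    rw [Real.sqrt_eq_zero'] at g4
    exact absurd (g2 hES) (not_lt.2 g4)

/-- the operator acts as the conductance operator -/
def IsC (w : Ed d → ℝ) (H : L2 d →L[ℂ] L2 d) : Prop :=
  ∀ (u : L2 d) (x : Sd d), (H u) x =
    ∑ i : Fin d, ((w (x, i) : ℂ) * (u x - u (x + Pi.single i 1)) +
      (w (x - Pi.single i 1, i) : ℂ) * (u x - u (x - Pi.single i 1)))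

theorem cond_final (hd : 1 ≤ d) {a b : ℝ} (ha : 0 < a) (ν : Measure ℝ) [IsProbabilityMeasure ν]
    (hν1 : ν (Icc a b) = 1) (hν : ∀ r : ℝ, ν {r} ≠ 1) :
    ∃ S : Set ℝ, MeasurableSet S ∧ ∀ u : L2 d, u ≠ 0 →
    ∀ᵐ w ∂(Measure.infinitePi fun _ : Ed d => ν), ∃ H : L2 d →L[ℂ] L2 d, IsC w H ∧
      (∀ H' : L2 d →L[ℂ] L2 d, IsC w H' → H' = H) ∧
      (∀ φ : L2 d, ∃ μ : Measure ℝ, IsFiniteMeasure μ ∧
        ∀ z : ℂ, z.im ≠ 0 → (∫ x, ((x : ℂ) - z)⁻¹ ∂μ) = inner ℂ φ (Rz H z φ)) ∧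
      ∀ B : Set ℝ, MeasurableSet B →
      (volume (B ∩ S) = 0 → ∀ (φ : L2 d) (μ : Measure ℝ), IsFiniteMeasure μ →
        (∀ z : ℂ, z.im ≠ 0 → (∫ x, ((x : ℂ) - z)⁻¹ ∂μ) = inner ℂ φ (Rz H z φ)) →
        (μ.restrict B) ⟂ₘ volume) ∧
      (volume (B ∩ S) ≠ 0 → ∀ μ : Measure ℝ, IsFiniteMeasure μ →
        (∀ z : ℂ, z.im ≠ 0 → (∫ x, ((x : ℂ) - z)⁻¹ ∂μ) = inner ℂ u (Rz H z u)) →
        ¬ (μ.restrict B) ⟂ₘ volume) := by
  haveI : NeZero d := ⟨by omega⟩
  have hab : a ≤ b := by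
    by_contra hcon
    rw [Icc_eq_empty hcon, measure_empty] at hν1
    exact zero_ne_one hν1
  obtain ⟨S, hS, hmain⟩ := cond_main (d := d) ha hν1 hν
  refine ⟨S, hS, fun u hu => ?_⟩
  filter_upwards [hmain u hu] with w ⟨hw, h1⟩
  have hex : IsC w (HC a b w) := by
    intro u x
    rw [HC_apply ha hab]
    refine Finset.sum_congr rfl fun i _ => ?_
    rw [cc_eq (hw _), cc_eq (hw _)]
  refine ⟨HC a b w, hex, fun H hH => ?_, fun φ => ?_, h1⟩
  · apply ContinuousLinearMap.ext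
    intro u
    apply lp.ext
    funext j
    exact (hH u j).trans (hex u j).symm
  · exact ⟨spm (HC_sa ha hab w) φ, inferInstance, fun z hz => BT_spm (HC_sa ha hab w) φ hz⟩

end Pool.Agent.TH980.CN
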