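import Pool.Agent.TH980.CN.Dec
import Pool.Agent.TH980.CN.Fin

set_option autoImplicit false

/-! Almost sure structure of the boundary values for the random conductance operator. -/

open MeasureTheory Filter Topology Set
open scoped ENNReal NNReal
open Pool.Agent.H12R2.And (Rz isUnit_sub sub_Rz im_inner norm_Rz_le diff_inner diff_Rz
  mutuallySingular_of_rnDeriv)
open Pool.Agent.TH980.IM Pool.Agent.TH980.IM.PR

namespace Pool.Agent.TH980.CN

variable {d : ℕ}

theorem HC_star {a b : ℝ} (ha : 0 < a) (hab : a ≤ b) (w : Ed d → ℝ) (f : L2 d) :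
    HC a b w (star f) = star (HC a b w f) := by
  refine lp.ext (funext fun x => ?_)
  rw [lp.star_apply, HC_apply ha hab, HC_apply ha hab]
  simp only [lp.star_apply, RCLike.star_def, map_sum, map_add, map_mul, map_sub,
    Complex.conj_ofReal]

theorem star_be (e : Ed d) : star (be e : L2 d) = be e := by
  refine lp.ext (funext fun x => ?_)
  rw [lp.star_apply, be_apply]
  split_ifs <;> simp

theorem shf_be' (v x : Sd d) (i : Fin d) : shf v (be (x, i)) = (be (x - v, i) : L2 d) := by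
  refine lp.ext (funext fun j => ?_)
  rw [shf_apply, be_apply, be_apply]
  simp only
  have h1 : j + v = x ↔ j = x - v := eq_sub_iff_add_eq.symm
  have h2 : j + v = x + Pi.single i 1 ↔ j = x - v + Pi.single i 1 := by
    rw [sub_add_eq_add_sub, eq_sub_iff_add_eq]
  simp only [h1, h2]

theorem EG_shift [NeZero d] {a b : ℝ} (ha : 0 < a) (hab : a ≤ b) (w : Ed d → ℝ) (x y : Sd d)
    (i : Fin d) {z : ℂ} (hz : z.im ≠ 0) :
    inner ℂ (be (x, i)) (Rz (HC a b w) z (be (y, i))) =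
      inner ℂ (be (0, i)) (Rz (HC a b (sh ((x, 0) : Ed d) w)) z (be (y - x, i))) := by
  rw [← shf_be' x y i, Rz_shift ha hab w x hz, inner_be, inner_be, shf_apply, shf_apply]
  simp only [zero_add]
  rw [add_comm (Pi.single i 1) x]

theorem exists_limE [NeZero d] {a b : ℝ} (ha : 0 < a) (hab : a ≤ b) (ν : Measure ℝ)
    [IsProbabilityMeasure ν] :
    ∃ h : Sd d → (Ed d → ℝ) × ℝ → ℂ, (∀ w, Measurable (h w)) ∧
      ∀ᵐ q ∂((PP (Ed d) ν).prod volume), ∀ x y : Sd d,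
        Tendsto (fun k => inner ℂ (be (x, 0)) (Rz (HC a b q.1) (zk k q.2) (be (y, 0)))) atTop
          (𝓝 (h (y - x) (sh ((x, 0) : Ed d) q.1, q.2))) := by
  have hex : ∀ w : Sd d, ∃ f : (Ed d → ℝ) × ℝ → ℂ, Measurable f ∧
      ∀ᵐ q ∂((PP (Ed d) ν).prod volume), Tendsto (fun k =>
        inner ℂ (be (0, 0)) (Rz (HC a b q.1) (zk k q.2) (be (w, 0)))) atTop (𝓝 (f q)) :=
    fun w => exists_limG (HC_sa ha hab) (HC_cont a b) (PP (Ed d) ν) (be (0, 0)) (be (w, 0))
  choose h hm hh using hex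
  refine ⟨h, hm, ?_⟩
  rw [ae_all_iff]; intro x
  rw [ae_all_iff]; intro y
  have hmp : MeasurePreserving (Prod.map (sh ((x, 0) : Ed d)) (id : ℝ → ℝ))
    ((PP (Ed d) ν).prod volume) ((PP (Ed d) ν).prod volume) :=
    (mp_sh ν _).prod (MeasurePreserving.id volume)
  filter_upwards [hmp.quasiMeasurePreserving.ae (hh (y - x))] with q hq
  refine hq.congr fun k => ?_
  exact (EG_shift ha hab q.1 x y 0 (zk_im_pos k q.2).ne').symm

/-- far off-diagonal boundary values tend to zero in probability -/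
theorem lim_decayE [NeZero d] {a b : ℝ} (ha : 0 < a) (hab : a ≤ b) {ν : Measure ℝ}
    [IsProbabilityMeasure ν] (hD : ∀ᵐ v ∂ν, v ∈ Icc a b) (hν : ∀ r : ℝ, ν {r} ≠ 1)
    {h : Sd d → (Ed d → ℝ) × ℝ → ℂ} (hm : ∀ w, Measurable (h w))
    (hh : ∀ᵐ q ∂((PP (Ed d) ν).prod volume), ∀ x y : Sd d,
        Tendsto (fun k => inner ℂ (be (x, 0)) (Rz (HC a b q.1) (zk k q.2) (be (y, 0)))) atTop
          (𝓝 (h (y - x) (sh ((x, 0) : Ed d) q.1, q.2)))) :
    ∀ᵐ E : ℝ, ∀ δ : ℝ, 0 < δ →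
      Tendsto (fun w => PP (Ed d) ν {V | δ ≤ ‖h w (V, E)‖}) cofinite (𝓝 0) := by
  obtain ⟨a', b', ε0, hε0, hab', ha', hb'⟩ := two_points hν
  have hK : ∀ᵐ v ∂ν, |v| ≤ b := by
    filter_upwards [hD] with v hv
    rw [abs_of_nonneg (ha.le.trans hv.1)]
    exact hv.2
  filter_upwards [ae_swap hh] with E hE δ hδ
  have hmE : ∀ w, Measurable fun V : Ed d → ℝ => h w (V, E) := fun w =>
    (hm w).comp (measurable_id.prodMk measurable_const)
  refine decayG ν (y := fun x : Sd d => ((x, 0) : Ed d)) (fun k l hkl => (Prod.mk.inj hkl).1) 0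
    (ha.le.trans hab) hK hε0 hab' ha' hb' (f := fun V => h 0 (V, E)) (g := fun V => h 0 (V, E))
    (hmE 0) (hmE 0) (h := fun w V => h w (V, E)) hmE (fun x => ?_) hδ
  have e1 : ∀ᵐ p ∂((PP (Ed d) ν).prod ν), ∀ x y : Sd d,
      Tendsto (fun k => inner ℂ (be (x, 0)) (Rz (HC a b p.1) (zk k E) (be (y, 0)))) atTop
        (𝓝 (h (y - x) (sh ((x, 0) : Ed d) p.1, E))) :=
    (measurePreserving_fst (μ := PP (Ed d) ν) (ν := ν)).quasiMeasurePreserving.ae hE
  have e2 : ∀ᵐ p ∂((PP (Ed d) ν).prod ν), ∀ x' y : Sd d,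
      Tendsto (fun k => inner ℂ (be (x', 0)) (Rz (HC a b (up (x, 0) p)) (zk k E) (be (y, 0))))
        atTop (𝓝 (h (y - x') (sh ((x', 0) : Ed d) (up (x, 0) p), E))) :=
    (mp_up ν (x, 0)).quasiMeasurePreserving.ae hE
  have hK1 : ∀ᵐ p ∂((PP (Ed d) ν).prod ν), p.2 ∈ Icc a b :=
    (measurePreserving_snd (μ := PP (Ed d) ν) (ν := ν)).quasiMeasurePreserving.ae hD
  have hK2 : ∀ᵐ p ∂((PP (Ed d) ν).prod ν), p.1 (x, 0) ∈ Icc a b := by
    have h1 : ∀ᵐ V ∂(PP (Ed d) ν), V (x, 0) ∈ Icc a b := by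
      have := (measurePreserving_eval_infinitePi (fun _ : Ed d => ν)
        (x, 0)).quasiMeasurePreserving.ae hD
      exact this
    exact (measurePreserving_fst (μ := PP (Ed d) ν) (ν := ν)).quasiMeasurePreserving.ae h1
  filter_upwards [e1, e2, hK1, hK2] with p h2 h3 h4 h5
  have hsh : ∀ V : Ed d → ℝ, sh ((0, 0) : Ed d) V = V := fun V => by
    funext y
    have : y + ((0, 0) : Ed d) = y := add_zero y
    simp only [sh, this]
  have t1 := h2 0 0
  have t2 := h2 x x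
  have t3 := h2 0 x
  have t4 := h3 0 0
  rw [hsh, sub_zero] at t1
  rw [sub_self] at t2
  rw [hsh, sub_zero] at t3
  rw [hsh, sub_zero] at t4
  have hl := (t1.sub t4).mul ((t2.const_mul ((p.2 - p.1 (x, 0) : ℝ) : ℂ)).const_add 1)
  have hr := (t3.pow 2).const_mul ((p.2 - p.1 (x, 0) : ℝ) : ℂ)
  have e0 : ((x, 0) : Ed d) - 0 = (x, 0) := sub_zero _
  simp only [e0]
  refine tendsto_nhds_unique hl (hr.congr fun k => ?_)
  refine (rank_oneG (HC_sa ha hab p.1) (HC_sa ha hab (up (x, 0) p)) (HC_star ha hab p.1)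
    (star_be (x, 0)) (star_be (0, 0)) (κ := ((p.2 - p.1 (x, 0) : ℝ) : ℂ)) (fun f => ?_)
    (zk_im_pos k E).ne').symm
  have h6 := HC_up ha hab p.1 (x, 0) p.2 f
  rw [cc_eq h4, cc_eq h5] at h6
  exact h6

/-- the configuration of edges -/
def PhiE [NeZero d] (h : Sd d → (Ed d → ℝ) × ℝ → ℂ) (n j : ℕ) (x : Fin (n + 1) → Sd d) :
    Set ((Ed d → ℝ) × ℝ) :=
  {q | (∀ i, 1 / ((j : ℝ) + 1) ≤ (h 0 (sh ((x i, 0) : Ed d) q.1, q.2)).im) ∧
    ∀ i k, i ≠ k → |(h (x k - x i) (sh ((x i, 0) : Ed d) q.1, q.2)).im| <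
      1 / ((j : ℝ) + 1) / (2 * ((n : ℝ) + 1))}

theorem meas_PhiE [NeZero d] {h : Sd d → (Ed d → ℝ) × ℝ → ℂ} (hm : ∀ w, Measurable (h w))
    (n j : ℕ) (x : Fin (n + 1) → Sd d) : MeasurableSet (PhiE h n j x) := by
  have hsh : ∀ (w y : Sd d), Measurable fun q : (Ed d → ℝ) × ℝ =>
      (h w (sh ((y, 0) : Ed d) q.1, q.2)).im :=
    fun w y => Complex.measurable_im.comp
      ((hm w).comp (((meas_sh _).comp measurable_fst).prodMk measurable_snd))
  have : PhiE h n j x =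
      (⋂ i, {q : (Ed d → ℝ) × ℝ | 1 / ((j : ℝ) + 1) ≤ (h 0 (sh ((x i, 0) : Ed d) q.1, q.2)).im}) ∩
      ⋂ i, ⋂ k, {q : (Ed d → ℝ) × ℝ | i ≠ k → |(h (x k - x i) (sh ((x i, 0) : Ed d) q.1, q.2)).im| <
        1 / ((j : ℝ) + 1) / (2 * ((n : ℝ) + 1))} := by
    ext q
    simp only [PhiE, Set.mem_ofPred_eq, mem_inter_iff, mem_iInter]
  rw [this]
  apply MeasurableSet.inter
  · exact MeasurableSet.iInter fun i => measurableSet_le measurable_const (hsh _ _)
  · refine MeasurableSet.iInter fun i => MeasurableSet.iInter fun k => ?_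
    by_cases hik : i = k
    · have : {q : (Ed d → ℝ) × ℝ | i ≠ k → |(h (x k - x i) (sh ((x i, 0) : Ed d) q.1, q.2)).im| <
        1 / ((j : ℝ) + 1) / (2 * ((n : ℝ) + 1))} = univ := by
        rw [eq_univ_iff_forall]
        intro q hne
        exact absurd hik hne
      rw [this]
      exact MeasurableSet.univ
    · have : {q : (Ed d → ℝ) × ℝ | i ≠ k → |(h (x k - x i) (sh ((x i, 0) : Ed d) q.1, q.2)).im| <
        1 / ((j : ℝ) + 1) / (2 * ((n : ℝ) + 1))} =
        {q | |(h (x k - x i) (sh ((x i, 0) : Ed d) q.1, q.2)).im| <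
        1 / ((j : ℝ) + 1) / (2 * ((n : ℝ) + 1))} := by
        ext q
        simp only [Set.mem_ofPred_eq]
        exact ⟨fun h => h hik, fun h _ => h⟩
      rw [this]
      exact measurableSet_lt (hsh _ _).abs measurable_const

/-- many far edges -/
theorem manyE [NeZero d] {ν : Measure ℝ} [IsProbabilityMeasure ν] {m : (Ed d → ℝ) → ℝ}
    (hm : Measurable m) {o : Sd d → (Ed d → ℝ) → ℝ} (ho : ∀ w, Measurable (o w))
    (hdec : ∀ δ' : ℝ, 0 < δ' →
      Tendsto (fun w => PP (Ed d) ν {V | δ' ≤ |o w V|}) cofinite (𝓝 0))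
    (hpos : ∀ᵐ V ∂(PP (Ed d) ν), 0 < m V) (n : ℕ) {c : ℕ → ℝ} (hc : ∀ j, 0 < c j) :
    ∀ᵐ V ∂(PP (Ed d) ν), ∃ (j : ℕ) (x : Fin n → Sd d),
      (∀ i, 1 / ((j : ℝ) + 1) ≤ m (sh ((x i, 0) : Ed d) V)) ∧
      ∀ i k, i ≠ k → |o (x k - x i) (sh ((x i, 0) : Ed d) V)| < c j := by
  haveI : Infinite (Sd d) := by
    haveI : Nonempty (Fin d) := ⟨0⟩
    exact Pi.infinite_of_right
  rw [ae_iff]
  set bad : Set (Ed d → ℝ) := {V | ¬ ∃ (j : ℕ) (x : Fin n → Sd d),
      (∀ i, 1 / ((j : ℝ) + 1) ≤ m (sh ((x i, 0) : Ed d) V)) ∧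
      ∀ i k, i ≠ k → |o (x k - x i) (sh ((x i, 0) : Ed d) V)| < c j} with hbad
  suffices h : ∀ ε : ℝ≥0, 0 < ε → PP (Ed d) ν bad ≤ ε by
    have h1 : PP (Ed d) ν bad ≤ 0 := by
      apply ENNReal.le_of_forall_pos_le_add
      intro ε hε _
      rw [zero_add]
      exact h ε hε
    exact nonpos_iff_eq_zero.1 h1
  intro ε hε
  have hεe : (0 : ℝ≥0∞) < ε := by exact_mod_cast hε
  -- the level
  obtain ⟨j, hj⟩ : ∃ j : ℕ, PP (Ed d) ν {V | m V < 1 / ((j : ℝ) + 1)} ≤
      ε / 2 / ((n : ℝ≥0∞) + 1) := by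
    have h1 : Tendsto (fun j : ℕ => PP (Ed d) ν {V | m V < 1 / ((j : ℝ) + 1)}) atTop
        (𝓝 (PP (Ed d) ν (⋂ j : ℕ, {V | m V < 1 / ((j : ℝ) + 1)}))) := by
      apply tendsto_measure_iInter_atTop
      · intro j
        exact (measurableSet_lt hm measurable_const).nullMeasurableSet
      · intro k l hkl V hV
        have hV' : m V < 1 / ((l : ℝ) + 1) := hV
        refine lt_of_lt_of_le hV' ?_
        apply one_div_le_one_div_of_le (by positivity)
        have : (k : ℝ) ≤ l := by exact_mod_cast hkl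
        linarith
      · exact ⟨0, measure_ne_top _ _⟩
    have h2 : PP (Ed d) ν (⋂ j : ℕ, {V | m V < 1 / ((j : ℝ) + 1)}) = 0 := by
      refine measure_mono_null ?_ (ae_iff.1 hpos)
      intro V hV
      simp only [Set.mem_ofPred_eq, not_lt]
      by_contra hcon
      rw [not_le] at hcon
      obtain ⟨k, hk⟩ := exists_nat_one_div_lt hcon
      have := mem_iInter.1 hV k
      exact lt_asymm hk this
    rw [h2, ENNReal.tendsto_nhds_zero] at h1
    exact (h1 _ (ENNReal.div_pos (ENNReal.half_pos hεe.ne').ne' (by simp))).exists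
  set I : Finset (Fin n × Fin n) := Finset.univ with hI
  set ε2 : ℝ≥0∞ := ε / 2 / ((I.card : ℝ≥0∞) + 1) with hε2
  have hε2pos : 0 < ε2 := ENNReal.div_pos (ENNReal.half_pos hεe.ne').ne' (by simp)
  have hev := (ENNReal.tendsto_nhds_zero.1 (hdec (c j) (hc j))) ε2 hε2pos
  rw [eventually_cofinite] at hev
  obtain ⟨x, hx⟩ := far hev n
  have hgood : ∀ i k, i ≠ k → PP (Ed d) ν {V | c j ≤ |o (x k - x i) V|} ≤ ε2 := by
    intro i k hik
    by_contra hcon
    exact hx i k hik hcon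
  set U : Fin n × Fin n → Set (Ed d → ℝ) := fun q =>
    if q.1 = q.2 then ∅ else
      sh ((x q.1, 0) : Ed d) ⁻¹' {V | c j ≤ |o (x q.2 - x q.1) V|} with hU
  have hUle : ∀ q ∈ I, PP (Ed d) ν (U q) ≤ ε2 := by
    intro q _
    simp only [hU]
    split_ifs with h1
    · rw [measure_empty]; exact zero_le
    · rw [(mp_sh ν _).measure_preimage
        (measurableSet_le measurable_const (ho _).abs).nullMeasurableSet]
      exact hgood _ _ h1
  have hsub : bad ⊆ (⋃ i ∈ (Finset.univ : Finset (Fin n)),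
      sh ((x i, 0) : Ed d) ⁻¹' {V | m V < 1 / ((j : ℝ) + 1)}) ∪ ⋃ q ∈ I, U q := by
    intro V hV
    by_contra hcon
    rw [mem_union, not_or] at hcon
    obtain ⟨h1, h2⟩ := hcon
    apply hV
    refine ⟨j, x, fun i => ?_, fun i k hik => ?_⟩
    · by_contra h4
      rw [not_le] at h4
      apply h1
      simp only [mem_iUnion]
      exact ⟨i, Finset.mem_univ i, h4⟩
    · by_contra h5
      rw [not_lt] at h5
      apply h2
      simp only [mem_iUnion]
      refine ⟨(i, k), Finset.mem_univ _, ?_⟩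
      simp only [hU]
      rw [if_neg hik]
      exact h5
  have hhalf : ∀ N : ℕ, (N : ℝ≥0∞) * ((ε : ℝ≥0∞) / 2 / ((N : ℝ≥0∞) + 1)) ≤ ε / 2 := by
    intro N
    rw [← mul_div_assoc, mul_comm, mul_div_assoc]
    refine mul_le_of_le_one_right' ?_
    apply ENNReal.div_le_of_le_mul
    rw [one_mul]
    exact le_self_add
  calc PP (Ed d) ν bad ≤ PP (Ed d) ν (⋃ i ∈ (Finset.univ : Finset (Fin n)),
        sh ((x i, 0) : Ed d) ⁻¹' {V | m V < 1 / ((j : ℝ) + 1)}) +
        PP (Ed d) ν (⋃ q ∈ I, U q) := (measure_mono hsub).trans (measure_union_le _ _)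
    _ ≤ (n : ℝ≥0∞) * ((ε : ℝ≥0∞) / 2 / ((n : ℝ≥0∞) + 1)) + (I.card : ℝ≥0∞) * ε2 := by
        refine add_le_add ?_ ?_
        · refine (measure_biUnion_finset_le _ _).trans ?_
          refine (Finset.sum_le_card_nsmul _ _ (ε / 2 / ((n : ℝ≥0∞) + 1)) fun i _ => ?_).trans
            (le_of_eq ?_)
          · rw [(mp_sh ν _).measure_preimage
              (measurableSet_lt hm measurable_const).nullMeasurableSet]
            exact hj
          · rw [Finset.card_univ, Fintype.card_fin, nsmul_eq_mul]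
        · refine (measure_biUnion_finset_le _ _).trans ?_
          refine (Finset.sum_le_card_nsmul _ _ _ hUle).trans (le_of_eq ?_)
          rw [nsmul_eq_mul]
    _ ≤ ε / 2 + ε / 2 := add_le_add (hhalf n) (hhalf I.card)
    _ = ε := ENNReal.add_halves _

end Pool.Agent.TH980.CN
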