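import Pool.Agent.TH980.CN.Gnr
import Pool.Agent.TH980.IM.Prob2

set_option autoImplicit false

/-! Decay of off-diagonal boundary values, general couplings. -/

open MeasureTheory Filter Topology Set ProbabilityTheory
open scoped ENNReal NNReal
open Pool.Agent.H12R2.And (Rz isUnit_sub sub_Rz im_inner norm_Rz_le diff_inner diff_Rz)
open Pool.Agent.TH980.IM Pool.Agent.TH980.IM.PR

namespace Pool.Agent.TH980.CN

section

variable {ι : Type} [AddCommGroup ι] [Countable ι] [DecidableEq ι]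
variable (ν : Measure ℝ) [IsProbabilityMeasure ν]

omit [Countable ι] in
theorem decayG {κ : Type} {y : κ → ι} (hy : Function.Injective y) (j0 : ι)
    {K : ℝ} (hK0 : 0 ≤ K) (hK : ∀ᵐ v ∂ν, |v| ≤ K) {a b ε0 : ℝ} (hε0 : 0 < ε0)
    (hab : 4 * ε0 ≤ |a - b|) (ha : ν (Metric.ball a ε0) ≠ 0) (hb : ν (Metric.ball b ε0) ≠ 0)
    {f g : (ι → ℝ) → ℂ} (hf : Measurable f) (hg : Measurable g) {h : κ → (ι → ℝ) → ℂ}
    (hh : ∀ x, Measurable (h x))
    (rel : ∀ x, ∀ᵐ p ∂((PP ι ν).prod ν), (f p.1 - f (up (y x) p)) *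
      (1 + ((p.2 - p.1 (y x) : ℝ) : ℂ) * g (sh (y x - j0) p.1)) =
        ((p.2 - p.1 (y x) : ℝ) : ℂ) * (h x p.1) ^ 2)
    {δ : ℝ} (hδ : 0 < δ) :
    Tendsto (fun x => PP ι ν {V | δ ≤ ‖h x V‖}) cofinite (𝓝 0) := by
  set c0 : ℝ≥0∞ := min (ν (Metric.ball a ε0)) (ν (Metric.ball b ε0)) with hc0
  have hc0pos : c0 ≠ 0 := by
    rw [hc0]
    simp only [ne_eq, min_eq_iff, not_or, not_and]
    exact ⟨fun h => absurd h ha, fun h => absurd h hb⟩
  have hc0top : c0 ≠ ∞ := ne_top_of_le_ne_top (measure_ne_top _ _) (min_le_left _ _)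
  rw [ENNReal.tendsto_nhds_zero]
  intro η hη
  rcases eq_or_ne η ∞ with rfl | hηtop
  · exact Eventually.of_forall fun x => le_top
  have hη' : 0 < c0 * η := ENNReal.mul_pos hc0pos hη.ne'
  obtain ⟨C, hC0, hC⟩ := tight ν hg (ENNReal.half_pos hη'.ne')
  set δ' : ℝ := ε0 * δ ^ 2 / (1 + 2 * K * C) with hδ'
  have hδ'0 : 0 < δ' := by positivity
  have hres := (resample_fun ν hf hδ'0).comp hy.tendsto_cofinite
  filter_upwards [(ENNReal.tendsto_nhds_zero.1 hres) (c0 * η / 2)
    (ENNReal.half_pos hη'.ne')] with x0 hx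
  simp only [Function.comp_apply] at hx
  set x := y x0 with hxdef
  set W : Set ((ι → ℝ) × ℝ) := {p | δ ≤ ‖h x0 p.1‖ ∧ ε0 ≤ |p.2 - p.1 x|} with hW
  have hWm : MeasurableSet W := by
    exact (measurableSet_le measurable_const ((hh x0).comp measurable_fst).norm).inter
      (measurableSet_le measurable_const
        (measurable_snd.sub ((measurable_pi_apply x).comp measurable_fst)).abs)
  have hAm : MeasurableSet {V | δ ≤ ‖h x0 V‖} := measurableSet_le measurable_const (hh x0).norm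
  -- lower bound
  have hlow : c0 * PP ι ν {V | δ ≤ ‖h x0 V‖} ≤ ((PP ι ν).prod ν) W := by
    rw [Measure.prod_apply hWm, ← setLIntegral_const, ← lintegral_indicator hAm]
    apply lintegral_mono
    intro V
    by_cases hV : V ∈ {V | δ ≤ ‖h x0 V‖}
    · rw [indicator_of_mem hV]
      have hV' : δ ≤ ‖h x0 V‖ := hV
      rcases le_or_gt (2 * ε0) |V x - a| with h1 | h1
      · refine (min_le_left _ _).trans (measure_mono fun v hv => ?_)
        rw [Metric.mem_ball, Real.dist_eq] at hv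
        refine ⟨hV', ?_⟩
        simp only
        have := abs_sub_le (V x) v a
        rw [abs_sub_comm (V x) v] at this
        linarith
      · refine (min_le_right _ _).trans (measure_mono fun v hv => ?_)
        rw [Metric.mem_ball, Real.dist_eq] at hv
        refine ⟨hV', ?_⟩
        simp only
        have h2 := abs_sub_le a (V x) b
        have h3 := abs_sub_le (V x) v b
        rw [abs_sub_comm (V x) v] at h3
        rw [abs_sub_comm a (V x)] at h2
        linarith
    · rw [indicator_of_notMem hV]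
      exact zero_le
  -- upper bound
  have hK1 : ∀ᵐ p ∂((PP ι ν).prod ν), |p.2| ≤ K :=
    (measurePreserving_snd (μ := PP ι ν) (ν := ν)).quasiMeasurePreserving.ae hK
  have hK2 : ∀ᵐ p ∂((PP ι ν).prod ν), |p.1 x| ≤ K := by
    have h1 : ∀ᵐ V ∂(PP ι ν), |V x| ≤ K := by
      have := (measurePreserving_eval_infinitePi (fun _ : ι => ν) x).quasiMeasurePreserving.ae hK
      exact this
    exact (measurePreserving_fst (μ := PP ι ν) (ν := ν)).quasiMeasurePreserving.ae h1
  have hup : ((PP ι ν).prod ν) W ≤ c0 * η := by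
    have hsub : W ≤ᵐ[(PP ι ν).prod ν] ({p | δ' ≤ ‖f p.1 - f (up x p)‖} ∪
        Prod.fst ⁻¹' (sh (x - j0) ⁻¹' {V | C < ‖g V‖}) : Set ((ι → ℝ) × ℝ)) := by
      filter_upwards [rel x0, hK1, hK2] with p h1 h2 h3
      intro hp
      obtain ⟨h4, h5⟩ : δ ≤ ‖h x0 p.1‖ ∧ ε0 ≤ |p.2 - p.1 x| := hp
      by_cases h6 : C < ‖g (sh (x - j0) p.1)‖
      · exact Or.inr h6
      · left
        rw [not_lt] at h6
        show δ' ≤ ‖f p.1 - f (up x p)‖
        have h7 := congrArg norm h1
        rw [norm_mul, norm_mul, norm_pow, Complex.norm_real, Real.norm_eq_abs] at h7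
        have h8 : |p.2 - p.1 x| ≤ 2 * K := (abs_sub _ _).trans (by linarith)
        have h9 : ‖1 + ((p.2 - p.1 x : ℝ) : ℂ) * g (sh (x - j0) p.1)‖ ≤ 1 + 2 * K * C := by
          refine (norm_add_le _ _).trans ?_
          rw [norm_one, norm_mul, Complex.norm_real, Real.norm_eq_abs]
          have : |p.2 - p.1 x| * ‖g (sh (x - j0) p.1)‖ ≤ 2 * K * C :=
            mul_le_mul h8 h6 (norm_nonneg _) (by positivity)
          linarith
        rw [hδ', div_le_iff₀ (by positivity)]
        calc ε0 * δ ^ 2 ≤ |p.2 - p.1 x| * ‖h x0 p.1‖ ^ 2 := by gcongr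
          _ = ‖f p.1 - f (up x p)‖ * ‖1 + ((p.2 - p.1 x : ℝ) : ℂ) * g (sh (x - j0) p.1)‖ :=
              h7.symm
          _ ≤ _ := mul_le_mul_of_nonneg_left h9 (norm_nonneg _)
    have hgm : MeasurableSet {V : ι → ℝ | C < ‖g V‖} := measurableSet_lt measurable_const hg.norm
    calc ((PP ι ν).prod ν) W ≤ ((PP ι ν).prod ν) ({p | δ' ≤ ‖f p.1 - f (up x p)‖} ∪
        Prod.fst ⁻¹' (sh (x - j0) ⁻¹' {V | C < ‖g V‖})) := measure_mono_ae hsub
      _ ≤ ((PP ι ν).prod ν) {p | δ' ≤ ‖f p.1 - f (up x p)‖} +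
          ((PP ι ν).prod ν) (Prod.fst ⁻¹' (sh (x - j0) ⁻¹' {V | C < ‖g V‖})) :=
          measure_union_le _ _
      _ ≤ c0 * η / 2 + c0 * η / 2 := by
          refine add_le_add hx ?_
          rw [measurePreserving_fst.measure_preimage (meas_sh _ hgm).nullMeasurableSet,
            (mp_sh ν _).measure_preimage hgm.nullMeasurableSet]
          exact hC
      _ = c0 * η := ENNReal.add_halves _
  exact (ENNReal.mul_le_mul_iff_right hc0pos hc0top).1 (hlow.trans hup)

end

section

variable {d : ℕ}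

theorem inner_star (f a : L2 d) : inner ℂ (star f) a = inner ℂ (star a) f := by
  rw [lp.inner_eq_tsum, lp.inner_eq_tsum]
  refine tsum_congr fun i => ?_
  simp only [lp.star_apply, RCLike.inner_apply, RCLike.star_def, RCLike.conj_conj]
  ring

/-- symmetry of the resolvent of a real operator -/
theorem symmG {T : L2 d →L[ℂ] L2 d} (hT : IsSelfAdjoint T) (hr : ∀ f, T (star f) = star (T f))
    {a b : L2 d} (ha : star a = a) (hb : star b = b) {z : ℂ} (hz : z.im ≠ 0) :
    inner ℂ a (Rz T z b) = inner ℂ b (Rz T z a) := by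
  have hz' : ((starRingEnd ℂ) z).im ≠ 0 := by simpa using hz
  have h1 : star (Rz T z b) = Rz T ((starRingEnd ℂ) z) b := by
    apply Rz_unique hT hz'
    rw [hr]
    have h2 := congrArg star (sub_Rz hT hz b)
    rw [star_sub, star_smul, hb] at h2
    exact h2
  have h2 : inner ℂ (Rz T ((starRingEnd ℂ) z) b) a = inner ℂ b (Rz T z a) := by
    set s := Rz T ((starRingEnd ℂ) z) b with hs
    set w := Rz T z a with hw
    have e1 : a = T w - z • w := (sub_Rz hT hz a).symm
    have e2 : b = T s - (starRingEnd ℂ) z • s := (sub_Rz hT hz' b).symm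
    rw [e2]
    conv_lhs => rw [e1]
    rw [inner_sub_right, inner_sub_left, inner_smul_right, inner_smul_left, Complex.conj_conj]
    congr 1
    exact (hT.isSymmetric s w).symm
  rw [← h2, ← h1, inner_star, ha]

/-- resampling one coupling: the rank one formula -/
theorem rank_oneG {T T' : L2 d →L[ℂ] L2 d} (hT : IsSelfAdjoint T) (hT' : IsSelfAdjoint T')
    (hr : ∀ f, T (star f) = star (T f)) {β b0 : L2 d} (hβ : star β = β) (hb0 : star b0 = b0)
    {κ : ℂ} (hH : ∀ f, T' f = T f + (κ * inner ℂ β f) • β) {z : ℂ} (hz : z.im ≠ 0) :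
    (inner ℂ b0 (Rz T z b0) - inner ℂ b0 (Rz T' z b0)) * (1 + κ * inner ℂ β (Rz T z β)) =
      κ * inner ℂ b0 (Rz T z β) ^ 2 := by
  set w' := Rz T' z b0 with hw'
  have h1 := sub_Rz hT' hz b0
  rw [← hw', hH w'] at h1
  have h2 : w' + (κ * inner ℂ β w') • Rz T z β = Rz T z b0 := by
    apply Rz_unique hT hz
    rw [map_add, map_smul, smul_add]
    have h3 := sub_Rz hT hz β
    calc T w' + (κ * inner ℂ β w') • T (Rz T z β) -
          (z • w' + z • (κ * inner ℂ β w') • Rz T z β)
        = (T w' - z • w') + (κ * inner ℂ β w') • (T (Rz T z β) - z • Rz T z β) := by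
          rw [smul_sub, smul_comm z]
          abel
      _ = (T w' - z • w') + (κ * inner ℂ β w') • β := by rw [h3]
      _ = b0 := by
          rw [← h1]
          abel
  have h4 : inner ℂ β w' * (1 + κ * inner ℂ β (Rz T z β)) = inner ℂ β (Rz T z b0) := by
    rw [← h2, inner_add_right, inner_smul_right]
    ring
  have h5 : inner ℂ b0 (Rz T z b0) - inner ℂ b0 w' =
      κ * inner ℂ β w' * inner ℂ b0 (Rz T z β) := by
    rw [← h2, inner_add_right, inner_smul_right]
    ring
  have h6 := symmG hT hr hβ hb0 hz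
  rw [h5]
  calc κ * inner ℂ β w' * inner ℂ b0 (Rz T z β) * (1 + κ * inner ℂ β (Rz T z β)) =
      κ * inner ℂ b0 (Rz T z β) * (inner ℂ β w' * (1 + κ * inner ℂ β (Rz T z β))) := by ring
    _ = _ := by rw [h4, h6]; ring

/-- the quadratic form of the resolvent seminorm of a real operator on real vectors -/
theorem qn_formG {T : L2 d →L[ℂ] L2 d} (hT : IsSelfAdjoint T)
    (hr : ∀ f, T (star f) = star (T f)) {z : ℂ} (hz : 0 < z.im) {n : ℕ} (β : Fin n → L2 d)
    (hβ : ∀ i, star (β i) = β i) (s : Fin n → ℂ) :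
    qn T z (∑ i, s i • β i) ^ 2 =
      ∑ i, ∑ j, ((starRingEnd ℂ) (s i) * s j).re * (inner ℂ (β i) (Rz T z (β j))).im := by
  rw [qn_sq hT hz]
  have h1 : inner ℂ (∑ i, s i • β i) (Rz T z (∑ i, s i • β i)) =
      ∑ i, ∑ j, (starRingEnd ℂ) (s i) * s j * inner ℂ (β i) (Rz T z (β j)) := by
    rw [map_sum, sum_inner]
    refine Finset.sum_congr rfl fun i _ => ?_
    rw [inner_sum]
    refine Finset.sum_congr rfl fun j _ => ?_
    rw [map_smul, inner_smul_left, inner_smul_right]
    ring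
  rw [h1, Complex.im_sum]
  simp only [Complex.im_sum]
  have h2 : ∑ i, ∑ j, ((starRingEnd ℂ) (s i) * s j).im *
      (inner ℂ (β i) (Rz T z (β j))).re = 0 := by
    have h3 : ∑ i, ∑ j, ((starRingEnd ℂ) (s i) * s j).im * (inner ℂ (β i) (Rz T z (β j))).re =
        - ∑ i, ∑ j, ((starRingEnd ℂ) (s i) * s j).im * (inner ℂ (β i) (Rz T z (β j))).re := by
      conv_lhs => rw [Finset.sum_comm]
      rw [← Finset.sum_neg_distrib]
      refine Finset.sum_congr rfl fun i _ => ?_
      rw [← Finset.sum_neg_distrib]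
      refine Finset.sum_congr rfl fun j _ => ?_
      rw [symmG hT hr (hβ j) (hβ i) hz.ne']
      simp only [Complex.mul_im, Complex.conj_re, Complex.conj_im]
      ring
    linarith
  calc ∑ i, ∑ j, ((starRingEnd ℂ) (s i) * s j * inner ℂ (β i) (Rz T z (β j))).im =
      ∑ i, ∑ j, (((starRingEnd ℂ) (s i) * s j).re * (inner ℂ (β i) (Rz T z (β j))).im +
        ((starRingEnd ℂ) (s i) * s j).im * (inner ℂ (β i) (Rz T z (β j))).re) := by
        refine Finset.sum_congr rfl fun i _ => Finset.sum_congr rfl fun j _ => ?_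
        rw [Complex.mul_im]
    _ = _ := by
        simp only [Finset.sum_add_distrib]
        rw [h2, add_zero]

end

end Pool.Agent.TH980.CN
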