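import Pool.Agent.TH980.CN.Cor
import Pool.Agent.TH980.IM.Step

set_option autoImplicit false

/-! Limiting forms on unit vectors and edge vectors; the induction step. -/

open MeasureTheory Filter Topology Set
open scoped ENNReal NNReal
open Pool.Agent.H12R2.And (Rz isUnit_sub sub_Rz im_inner norm_Rz_le diff_inner diff_Rz)
open Pool.Agent.TH980.IM Pool.Agent.TH980.IM.PR

namespace Pool.Agent.TH980.CN

variable {d : ℕ}

/-- labels of unit vectors and of edge vectors of one direction -/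
abbrev Jd (d : ℕ) : Type := Sd d ⊕ Sd d

/-- the vectors -/
noncomputable def fv [NeZero d] : Jd d → L2 d := Sum.elim ee fun y => be (y, 0)

theorem star_ee (x : Sd d) : star (ee x : L2 d) = ee x := by
  refine lp.ext (funext fun y => ?_)
  rw [lp.star_apply, ee_apply]
  split_ifs <;> simp

theorem star_fv [NeZero d] (j : Jd d) : star (fv j) = fv j := by
  rcases j with x | y
  · exact star_ee x
  · exact star_be (y, 0)

/-- the matrix of the boundary values -/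
noncomputable def MJ (H : Jd d → Jd d → (Ed d → ℝ) × ℝ → ℂ) {n : ℕ} (p : Fin n → Jd d)
    (q : (Ed d → ℝ) × ℝ) : Fin n → Fin n → ℝ := fun i k => (H (p i) (p k) q).im

theorem meas_MJ {H : Jd d → Jd d → (Ed d → ℝ) × ℝ → ℂ} (hm : ∀ a b, Measurable (H a b)) {n : ℕ}
    (p : Fin n → Jd d) : Measurable (MJ H p) :=
  measurable_pi_iff.2 fun _ => measurable_pi_iff.2 fun _ => Complex.measurable_im.comp (hm _ _)

/-- the boundary values exist -/
def GJ [NeZero d] (a b : ℝ) (H : Jd d → Jd d → (Ed d → ℝ) × ℝ → ℂ) (V : Ed d → ℝ) (E : ℝ) : Prop :=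
  ∀ x y : Jd d, Tendsto (fun k => inner ℂ (fv x) (Rz (HC a b V) (zk k E) (fv y))) atTop
    (𝓝 (H x y (V, E)))

section

variable [NeZero d] {a b : ℝ} {H : Jd d → Jd d → (Ed d → ℝ) × ℝ → ℂ} {V : Ed d → ℝ} {E : ℝ}

theorem qn_QJ (ha : 0 < a) (hab : a ≤ b) (hg : GJ a b H V E) {n : ℕ} (p : Fin n → Jd d)
    (s : Fin n → ℂ) :
    Tendsto (fun k => qn (HC a b V) (zk k E) (∑ i, s i • fv (p i)) ^ 2) atTop
      (𝓝 (QF (MJ H p (V, E)) s)) := by
  have h3 : Tendsto (fun m => ∑ i, ∑ k, ((starRingEnd ℂ) (s i) * s k).re *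
      (inner ℂ (fv (p i)) (Rz (HC a b V) (zk m E) (fv (p k)))).im) atTop
      (𝓝 (QF (MJ H p (V, E)) s)) := by
    apply tendsto_finsetSum
    intro i _
    apply tendsto_finsetSum
    intro k _
    apply Tendsto.const_mul
    exact (Complex.continuous_im.tendsto _).comp (hg (p i) (p k))
  refine h3.congr fun m => ?_
  exact (qn_formG (HC_sa ha hab V) (HC_star ha hab V) (zk_im_pos m E) (fun i => fv (p i))
    (fun i => star_fv _) s).symm

theorem QJ_nonneg (ha : 0 < a) (hab : a ≤ b) (hg : GJ a b H V E) {n : ℕ} (p : Fin n → Jd d)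
    (s : Fin n → ℂ) : 0 ≤ QF (MJ H p (V, E)) s :=
  ge_of_tendsto' (qn_QJ ha hab hg p s) fun k => by positivity

theorem qn_zero_of_QJ (ha : 0 < a) (hab : a ≤ b) (hg : GJ a b H V E) {n : ℕ} (p : Fin n → Jd d)
    (s : Fin n → ℂ) (hs : QF (MJ H p (V, E)) s ≤ 0) :
    Tendsto (fun k => qn (HC a b V) (zk k E) (∑ i, s i • fv (p i))) atTop (𝓝 0) := by
  have h1 := qn_QJ ha hab hg p s
  rw [le_antisymm hs (QJ_nonneg ha hab hg p s)] at h1
  have h2 := (Real.continuous_sqrt.tendsto 0).comp h1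
  rw [Real.sqrt_zero] at h2
  refine h2.congr fun k => ?_
  exact Real.sqrt_sq (qn_nonneg _ _)

theorem PJ_zero (ha : 0 < a) (hab : a ≤ b) (hg : GJ a b H V E) {n : ℕ} {p : Fin n → Jd d}
    (hp : PD (MJ H p (V, E))) {s : Fin n → ℂ}
    (hs : Tendsto (fun k => qn (HC a b V) (zk k E) (∑ i, s i • fv (p i))) atTop (𝓝 0)) :
    ∀ i, s i = 0 := by
  obtain ⟨j, hj⟩ := hp
  have h1 := tendsto_nhds_unique (qn_QJ ha hab hg p s) (hs.pow 2)
  have h2 := hj s
  rw [h1] at h2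
  simp only [ne_eq, OfNat.ofNat_ne_zero, not_false_eq_true, zero_pow] at h2
  have h3 : ∑ i, ‖s i‖ ^ 2 ≤ 0 := by
    by_contra hcon
    push Not at hcon
    have : 0 < 1 / ((j : ℝ) + 1) * ∑ i, ‖s i‖ ^ 2 := by positivity
    linarith
  intro i
  have h4 : ‖s i‖ ^ 2 ≤ ∑ i, ‖s i‖ ^ 2 :=
    Finset.single_le_sum (f := fun i => ‖s i‖ ^ 2) (fun i _ => by positivity) (Finset.mem_univ i)
  have h5 : ‖s i‖ ^ 2 = 0 := le_antisymm (h4.trans h3) (by positivity)
  exact norm_eq_zero.1 (pow_eq_zero_iff (by norm_num)|>.1 h5)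

/-- resampling one edge: the resolvent identity -/
theorem res_idG {T T' : L2 d →L[ℂ] L2 d} (hT : IsSelfAdjoint T) (hT' : IsSelfAdjoint T')
    {β : L2 d} {κ : ℂ} (hH : ∀ f, T' f = T f + (κ * inner ℂ β f) • β) {z : ℂ} (hz : z.im ≠ 0)
    (u : L2 d) :
    Rz T' z u = Rz T z (u - (κ * inner ℂ β (Rz T' z u)) • β) ∧
    inner ℂ β (Rz T' z u) * (1 + κ * inner ℂ β (Rz T z β)) = inner ℂ β (Rz T z u) := by
  set w' := Rz T' z u with hw'
  have h1 := sub_Rz hT' hz u
  rw [← hw', hH w'] at h1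
  have h2 : w' + (κ * inner ℂ β w') • Rz T z β = Rz T z u := by
    apply Rz_unique hT hz
    rw [map_add, map_smul, smul_add]
    have h3 := sub_Rz hT hz β
    calc T w' + (κ * inner ℂ β w') • T (Rz T z β) -
          (z • w' + z • (κ * inner ℂ β w') • Rz T z β)
        = (T w' - z • w') + (κ * inner ℂ β w') • (T (Rz T z β) - z • Rz T z β) := by
          rw [smul_sub, smul_comm z]
          abel
      _ = (T w' - z • w') + (κ * inner ℂ β w') • β := by rw [h3]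
      _ = u := by
          rw [← h1]
          abel
  constructor
  · rw [map_sub, map_smul, ← h2, add_sub_cancel_right]
  · rw [← h2, inner_add_right, inner_smul_right]
    ring

omit [NeZero d] in
theorem inner_sumG (T : L2 d →L[ℂ] L2 d) (z : ℂ) {n : ℕ} (u : Fin n → L2 d) (w : Fin n → ℂ)
    (β : L2 d) : inner ℂ β (Rz T z (∑ i, w i • u i)) = ∑ i, inner ℂ β (Rz T z (u i)) * w i := by
  rw [map_sum, inner_sum]
  refine Finset.sum_congr rfl fun i _ => ?_
  rw [map_smul, inner_smul_right, mul_comm]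

/-- the deterministic part of the induction step -/
theorem det_stepJ (ha : 0 < a) (hab : a ≤ b) {y : Sd d} {v : ℝ} (hg : GJ a b H V E)
    (hg' : GJ a b H (up (y, 0) (V, v)) E) {n : ℕ} {p : Fin (n + 1) → Jd d}
    (h1 : PD (MJ H (fun i : Fin n => p i.succ) (V, E)))
    (h2 : PD (MJ H (fun i : Fin n => p i.succ) (up (y, 0) (V, v), E)))
    (h3 : PD (MJ H (Fin.cons (Sum.inr y) fun i : Fin n => p i.succ : Fin (n + 1) → Jd d) (V, E)))
    (hκ : cc a b v - cc a b (V (y, 0)) ≠ 0) {s w : Fin (n + 1) → ℂ}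
    (hs : QF (MJ H p (V, E)) s ≤ 0) (hw0 : w ≠ 0)
    (hw : QF (MJ H p (up (y, 0) (V, v), E)) w ≤ 0) :
    ∑ j, H (Sum.inr y) (p j) (V, E) * s j = 0 := by
  set V' := up ((y, 0) : Ed d) (V, v) with hV'
  set κ : ℂ := ((cc a b v - cc a b (V (y, 0)) : ℝ) : ℂ) with hκdef
  have hκ0 : κ ≠ 0 := by rw [hκdef]; exact_mod_cast hκ
  have hsa := HC_sa ha hab V
  have hsa' := HC_sa ha hab V'
  have hH : ∀ f, HC a b V' f = HC a b V f + (κ * inner ℂ (be (y, 0)) f) • be (y, 0) :=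
    fun f => HC_up ha hab V (y, 0) v f
  have hfy : fv (Sum.inr y : Jd d) = be (y, 0) := rfl
  have hsplit : ∀ c : Fin (n + 1) → ℂ, ∑ i, c i • (fv (p i) : L2 d) =
      c 0 • fv (p 0) + ∑ i : Fin n, c i.succ • fv (p i.succ) := fun c => Fin.sum_univ_succ _
  -- the first coefficients
  have hzs := qn_zero_of_QJ ha hab hg p s hs
  have hzw := qn_zero_of_QJ ha hab hg' p w hw
  have hw00 : w 0 ≠ 0 := by
    intro h0
    rw [hsplit w, h0, zero_smul, zero_add] at hzw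
    have h4 := PJ_zero ha hab hg' h2 hzw
    apply hw0
    funext i
    refine Fin.cases ?_ ?_ i
    · exact h0
    · exact h4
  by_cases hs00 : s 0 = 0
  · rw [hsplit s, hs00, zero_smul, zero_add] at hzs
    have h4 := PJ_zero ha hab hg h1 hzs
    apply Finset.sum_eq_zero
    intro i _
    have : s i = 0 := by
      refine Fin.cases ?_ ?_ i
      · exact hs00
      · exact h4
    rw [this, mul_zero]
  -- the coefficient at `y`
  set γ : ℂ := ∑ j, H (Sum.inr y) (p j) (V', E) * w j with hγ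
  have hγlim : Tendsto (fun k => inner ℂ (be (y, 0))
      (Rz (HC a b V') (zk k E) (∑ i, w i • fv (p i)))) atTop (𝓝 γ) := by
    simp only [inner_sumG]
    exact tendsto_finsetSum _ fun j _ => (hg' (Sum.inr y) (p j)).mul_const _
  set wv : L2 d := ∑ i, w i • fv (p i) with hwv
  set sv : L2 d := ∑ i, s i • fv (p i) with hsv
  have h4 : Tendsto (fun k => qn (HC a b V) (zk k E) (wv - (κ * γ) • be (y, 0))) atTop
      (𝓝 0) := by
    have h5 : Tendsto (fun k => qn (HC a b V) (zk k E) (be (y, 0))) atTop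
        (𝓝 (Real.sqrt (H (Sum.inr y) (Sum.inr y) (V, E)).im)) :=
      qn_lim hsa (hg (Sum.inr y) (Sum.inr y))
    have h6 : Tendsto (fun k => qn (HC a b V') (zk k E) wv +
        ‖κ * (inner ℂ (be (y, 0)) (Rz (HC a b V') (zk k E) wv) - γ)‖ *
          qn (HC a b V) (zk k E) (be (y, 0))) atTop
        (𝓝 (0 + ‖κ * (γ - γ)‖ * Real.sqrt (H (Sum.inr y) (Sum.inr y) (V, E)).im)) :=
      hzw.add ((((hγlim.sub_const γ).const_mul κ).norm).mul h5)
    rw [sub_self, mul_zero, norm_zero, zero_mul, add_zero] at h6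
    refine squeeze_zero (fun k => qn_nonneg _ _) (fun k => ?_) h6
    have h7 := (res_idG hsa hsa' hH (zk_im_pos k E).ne' wv).1
    have h8 : qn (HC a b V') (zk k E) wv = qn (HC a b V) (zk k E)
        (wv - (κ * inner ℂ (be (y, 0)) (Rz (HC a b V') (zk k E) wv)) • be (y, 0)) := by
      unfold qn
      rw [← h7]
    rw [h8, ← qn_smul]
    refine le_trans (le_of_eq ?_) (qn_add _ _ _)
    congr 1
    rw [mul_sub, sub_smul]
    abel
  -- the combination
  have h5 : Tendsto (fun k => qn (HC a b V) (zk k E)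
      ((s 0)⁻¹ • sv + (-(w 0)⁻¹) • (wv - (κ * γ) • be (y, 0)))) atTop (𝓝 0) := by
    have h6 := (hzs.const_mul ‖(s 0)⁻¹‖).add (h4.const_mul ‖-(w 0)⁻¹‖)
    rw [mul_zero, mul_zero, add_zero] at h6
    refine squeeze_zero (fun k => qn_nonneg _ _) (fun k => ?_) h6
    refine (qn_add _ _ _).trans ?_
    rw [qn_smul, qn_smul]
  have h6 : (s 0)⁻¹ • sv + (-(w 0)⁻¹) • (wv - (κ * γ) • be (y, 0)) =
      ∑ i, (Fin.cons ((w 0)⁻¹ * (κ * γ)) (fun i : Fin n => (s 0)⁻¹ * s i.succ -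
        (w 0)⁻¹ * w i.succ) : Fin (n + 1) → ℂ) i •
        fv ((Fin.cons (Sum.inr y) fun i : Fin n => p i.succ : Fin (n + 1) → Jd d) i) := by
    rw [Fin.sum_univ_succ]
    simp only [Fin.cons_zero, Fin.cons_succ]
    rw [hsv, hwv, hsplit s, hsplit w, hfy]
    simp only [smul_add, smul_sub, Finset.smul_sum, sub_smul, Finset.sum_sub_distrib, mul_smul,
      neg_smul, Finset.sum_neg_distrib]
    rw [inv_smul_smul₀ hs00, inv_smul_smul₀ hw00]
    abel
  rw [h6] at h5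
  have h7 := PJ_zero ha hab hg h3 h5
  have h8 := h7 0
  rw [Fin.cons_zero] at h8
  have hγ0 : γ = 0 := by
    rcases mul_eq_zero.1 h8 with h9 | h9
    · exact absurd h9 (inv_ne_zero hw00)
    · rcases mul_eq_zero.1 h9 with h10 | h10
      · exact absurd h10 hκ0
      · exact h10
  have h9 : ∀ j, s j = s 0 * (w 0)⁻¹ * w j := by
    intro j
    refine Fin.cases ?_ (fun i => ?_) j
    · rw [inv_mul_cancel_right₀ hw00]
    · have h10 := h7 i.succ
      rw [Fin.cons_succ] at h10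
      have h11 : (s 0)⁻¹ * s i.succ = (w 0)⁻¹ * w i.succ := sub_eq_zero.1 h10
      rw [mul_assoc, ← h11, mul_inv_cancel_left₀ hs00]
  -- the limit of the second identity
  have h10 : ∑ j, H (Sum.inr y) (p j) (V, E) * w j = 0 := by
    have h11 : Tendsto (fun k => inner ℂ (be (y, 0)) (Rz (HC a b V) (zk k E) wv)) atTop
        (𝓝 (∑ j, H (Sum.inr y) (p j) (V, E) * w j)) := by
      rw [hwv]
      simp only [inner_sumG]
      exact tendsto_finsetSum _ fun j _ => (hg (Sum.inr y) (p j)).mul_const _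
    have h12 := hγlim.mul (((hg (Sum.inr y) (Sum.inr y)).const_mul κ).const_add 1)
    rw [hγ0, zero_mul] at h12
    refine tendsto_nhds_unique h11 (h12.congr fun k => ?_)
    exact (res_idG hsa hsa' hH (zk_im_pos k E).ne' wv).2
  have h11 : ∑ j, H (Sum.inr y) (p j) (V, E) * s j =
      s 0 * (w 0)⁻¹ * ∑ j, H (Sum.inr y) (p j) (V, E) * w j := by
    rw [Finset.mul_sum]
    refine Finset.sum_congr rfl fun j _ => ?_
    rw [h9 j]
    ring
  rw [h11, h10, mul_zero]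

end

/-- a far edge is almost orthogonal to the others -/
theorem far_pdJ [NeZero d] {ν : Measure ℝ} [IsProbabilityMeasure ν]
    {H : Jd d → Jd d → (Ed d → ℝ) × ℝ → ℂ} (hm : ∀ a b, Measurable (H a b)) {E : ℝ}
    (hdec1 : ∀ (u : Jd d) (δ : ℝ), 0 < δ → Tendsto (fun y : Sd d =>
      PP (Ed d) ν {V | δ ≤ ‖H (Sum.inr y) u (V, E)‖}) cofinite (𝓝 0))
    (hdec2 : ∀ (u : Jd d) (δ : ℝ), 0 < δ → Tendsto (fun y : Sd d =>
      PP (Ed d) ν {V | δ ≤ ‖H u (Sum.inr y) (V, E)‖}) cofinite (𝓝 0))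
    (hdiag : ∀ ε : ℝ≥0∞, 0 < ε → ∃ j : ℕ, ∀ y : Sd d,
      PP (Ed d) ν {V | (H (Sum.inr y) (Sum.inr y) (V, E)).im < 1 / ((j : ℝ) + 1)} ≤ ε)
    {n : ℕ} {p : Fin n → Jd d} (hp : ∀ᵐ V ∂(PP (Ed d) ν), PD (MJ H p (V, E))) :
    Tendsto (fun y : Sd d => PP (Ed d) ν
      {V | ¬ PD (MJ H (Fin.cons (Sum.inr y) p : Fin (n + 1) → Jd d) (V, E))}) cofinite (𝓝 0) := by
  rw [ENNReal.tendsto_nhds_zero]
  intro ε hε
  have hε4 : 0 < ε / 2 / 2 := ENNReal.half_pos (ENNReal.half_pos hε.ne').ne'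
  have hmM : Measurable fun V : Ed d → ℝ => MJ H p (V, E) :=
    (meas_MJ hm p).comp (measurable_id.prodMk measurable_const)
  -- two levels
  obtain ⟨j1, hj1⟩ := anti_null (μ := PP (Ed d) ν)
    (A := fun j => {V | ¬ PDj j (MJ H p (V, E))})
    (fun j => (hmM (closed_PDj n j).measurableSet).compl)
    (fun i j hij V hV hV2 => hV (hV2.mono hij)) (by
      refine measure_mono_null ?_ (ae_iff.1 hp)
      intro V hV hV2
      obtain ⟨j, hj⟩ := hV2
      exact mem_iInter.1 hV j hj) hε4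
  obtain ⟨j2, hj2⟩ := hdiag _ hε4
  set j := max j1 j2 with hj
  set δ' : ℝ := 1 / ((j : ℝ) + 1) / (2 * ((n : ℝ) + 1)) with hδ'
  have hδ'0 : 0 < δ' := by positivity
  have t1 : Tendsto (fun y : Sd d => ∑ i, (PP (Ed d) ν {V | δ' ≤ ‖H (Sum.inr y) (p i) (V, E)‖} +
      PP (Ed d) ν {V | δ' ≤ ‖H (p i) (Sum.inr y) (V, E)‖})) cofinite
      (𝓝 (∑ _i : Fin n, (0 + 0))) :=
    tendsto_finsetSum _ fun i _ => (hdec1 (p i) δ' hδ'0).add (hdec2 (p i) δ' hδ'0)
  rw [add_zero, Finset.sum_const_zero, ENNReal.tendsto_nhds_zero] at t1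
  filter_upwards [t1 (ε / 2) (ENNReal.half_pos hε.ne')] with y hy
  have hsub : {V | ¬ PD (MJ H (Fin.cons (Sum.inr y) p : Fin (n + 1) → Jd d) (V, E))} ⊆
      {V | ¬ PDj j1 (MJ H p (V, E))} ∪
      {V | (H (Sum.inr y) (Sum.inr y) (V, E)).im < 1 / ((j2 : ℝ) + 1)} ∪
      ⋃ i ∈ (Finset.univ : Finset (Fin n)), ({V | δ' ≤ ‖H (Sum.inr y) (p i) (V, E)‖} ∪
        {V | δ' ≤ ‖H (p i) (Sum.inr y) (V, E)‖}) := by
    intro V hV
    by_contra hcon
    rw [mem_union, mem_union, not_or, not_or] at hcon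
    obtain ⟨⟨c1, c2⟩, c3⟩ := hcon
    simp only [mem_iUnion, mem_union, not_exists, not_or, Finset.mem_univ] at c3
    apply hV
    refine ⟨2 * j + 1, PDj_cons ?_ ?_ ?_ ?_⟩
    · unfold MJ
      simp only [Fin.cons_zero]
      have c4 : 1 / ((j2 : ℝ) + 1) ≤ (H (Sum.inr y) (Sum.inr y) (V, E)).im := not_lt.1 c2
      refine le_trans ?_ c4
      apply one_div_le_one_div_of_le (by positivity)
      have : (j2 : ℝ) ≤ j := by exact_mod_cast le_max_right j1 j2
      linarith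
    · have c4 : PDj j1 (MJ H p (V, E)) := not_not.1 c1
      exact c4.mono (le_max_left j1 j2)
    · intro i
      have c4 : ‖H (Sum.inr y) (p i) (V, E)‖ < δ' := not_le.1 (c3 i trivial).1
      unfold MJ
      simp only [Fin.cons_zero, Fin.cons_succ]
      exact (Complex.abs_im_le_norm _).trans c4.le
    · intro i
      have c4 : ‖H (p i) (Sum.inr y) (V, E)‖ < δ' := not_le.1 (c3 i trivial).2
      unfold MJ
      simp only [Fin.cons_zero, Fin.cons_succ]
      exact (Complex.abs_im_le_norm _).trans c4.le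
  refine (measure_mono hsub).trans ((measure_union_le _ _).trans ?_)
  have b1 : PP (Ed d) ν ({V | ¬ PDj j1 (MJ H p (V, E))} ∪
      {V | (H (Sum.inr y) (Sum.inr y) (V, E)).im < 1 / ((j2 : ℝ) + 1)}) ≤ ε / 2 :=
    (measure_union_le _ _).trans
      ((add_le_add hj1 (hj2 y)).trans (le_of_eq (ENNReal.add_halves _)))
  have b2 : PP (Ed d) ν (⋃ i ∈ (Finset.univ : Finset (Fin n)),
      ({V | δ' ≤ ‖H (Sum.inr y) (p i) (V, E)‖} ∪
        {V | δ' ≤ ‖H (p i) (Sum.inr y) (V, E)‖})) ≤ ε / 2 :=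
    (measure_biUnion_finset_le _ _).trans (le_trans (Finset.sum_le_sum fun i _ =>
      measure_union_le _ _) hy)
  exact (add_le_add b1 b2).trans (le_of_eq (ENNReal.add_halves ε))

/-- lower bound for the probability of leaving a set, without measurability -/
theorem lowG {ι : Type} {ν : Measure ℝ} [IsProbabilityMeasure ν] {a b ε0 : ℝ}
    (hab : 4 * ε0 ≤ |a - b|) (x : ι) {W : Set (ι → ℝ)} {S : Set ((ι → ℝ) × ℝ)}
    (hWS : ∀ V ∈ W, ∀ v : ℝ, ε0 ≤ |v - V x| → (V, v) ∈ S) :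
    min (ν (Metric.ball a ε0)) (ν (Metric.ball b ε0)) * PP ι ν W ≤
      ((PP ι ν).prod ν) S := by
  set c0 : ℝ≥0∞ := min (ν (Metric.ball a ε0)) (ν (Metric.ball b ε0)) with hc0
  set S' := toMeasurable ((PP ι ν).prod ν) S with hS'
  have hSm : MeasurableSet S' := measurableSet_toMeasurable _ _
  have hsub : W ⊆ {V | c0 ≤ ν (Prod.mk V ⁻¹' S')} := by
    intro V hV
    have hmem : ∀ v : ℝ, ε0 ≤ |v - V x| → v ∈ Prod.mk V ⁻¹' S' := fun v hv =>
      subset_toMeasurable _ _ (hWS V hV v hv)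
    show c0 ≤ ν (Prod.mk V ⁻¹' S')
    rcases le_or_gt (2 * ε0) |V x - a| with h1 | h1
    · refine (min_le_left _ _).trans (measure_mono fun v hv => hmem v ?_)
      rw [Metric.mem_ball, Real.dist_eq] at hv
      have := abs_sub_le (V x) v a
      rw [abs_sub_comm (V x) v] at this
      linarith
    · refine (min_le_right _ _).trans (measure_mono fun v hv => hmem v ?_)
      rw [Metric.mem_ball, Real.dist_eq] at hv
      have h2 := abs_sub_le a (V x) b
      have h3 := abs_sub_le (V x) v b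
      rw [abs_sub_comm (V x) v] at h3
      rw [abs_sub_comm a (V x)] at h2
      linarith
  calc c0 * PP ι ν W ≤ c0 * PP ι ν {V | c0 ≤ ν (Prod.mk V ⁻¹' S')} :=
        mul_le_mul_right (measure_mono hsub) _
    _ ≤ ∫⁻ V, ν (Prod.mk V ⁻¹' S') ∂(PP ι ν) :=
        mul_meas_ge_le_lintegral (measurable_measure_prodMk_left hSm) _
    _ = ((PP ι ν).prod ν) S' := (Measure.prod_apply hSm).symm
    _ = _ := measure_toMeasurable _

/-- **induction step** -/
theorem stepJ [NeZero d] {a b : ℝ} (ha : 0 < a) (hab : a ≤ b) {ν : Measure ℝ}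
    [IsProbabilityMeasure ν] (hD : ∀ᵐ v ∂ν, v ∈ Icc a b) (hν : ∀ r : ℝ, ν {r} ≠ 1)
    {H : Jd d → Jd d → (Ed d → ℝ) × ℝ → ℂ} (hm : ∀ a b, Measurable (H a b)) {E : ℝ}
    (hgen : ∀ᵐ V ∂(PP (Ed d) ν), GJ a b H V E)
    (hdec1 : ∀ (u : Jd d) (δ : ℝ), 0 < δ → Tendsto (fun y : Sd d =>
      PP (Ed d) ν {V | δ ≤ ‖H (Sum.inr y) u (V, E)‖}) cofinite (𝓝 0))
    (hdec2 : ∀ (u : Jd d) (δ : ℝ), 0 < δ → Tendsto (fun y : Sd d =>
      PP (Ed d) ν {V | δ ≤ ‖H u (Sum.inr y) (V, E)‖}) cofinite (𝓝 0))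
    (hdiag : ∀ ε : ℝ≥0∞, 0 < ε → ∃ j : ℕ, ∀ y : Sd d,
      PP (Ed d) ν {V | (H (Sum.inr y) (Sum.inr y) (V, E)).im < 1 / ((j : ℝ) + 1)} ≤ ε)
    {n : ℕ} {p : Fin (n + 1) → Jd d}
    (hp : ∀ᵐ V ∂(PP (Ed d) ν), PD (MJ H (fun i : Fin n => p i.succ) (V, E)))
    {x : ℕ → Fin (n + 1) → Sd d} (hx : ∀ i, Function.Injective fun k => x k i)
    (hdet : ∀ᵐ V ∂(PP (Ed d) ν), ∀ k, (Matrix.of fun i j =>
      H (Sum.inr (x k i)) (p j) (V, E)).det ≠ 0) :
    ∀ᵐ V ∂(PP (Ed d) ν), PD (MJ H p (V, E)) := by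
  obtain ⟨a', b', ε0, hε0, hab', ha', hb'⟩ := two_points hν
  set c0 : ℝ≥0∞ := min (ν (Metric.ball a' ε0)) (ν (Metric.ball b' ε0)) with hc0
  have hc0pos : c0 ≠ 0 := by
    rw [hc0]
    simp only [ne_eq, min_eq_iff, not_or, not_and]
    exact ⟨fun h => absurd h ha', fun h => absurd h hb'⟩
  have hc0top : c0 ≠ ∞ := ne_top_of_le_ne_top (measure_ne_top _ _) (min_le_left _ _)
  have hmM : Measurable fun V : Ed d → ℝ => MJ H p (V, E) :=
    (meas_MJ hm p).comp (measurable_id.prodMk measurable_const)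
  set N : Set (Ed d → ℝ) := {V | ¬ PD (MJ H p (V, E))} with hN
  have hNm : MeasurableSet N := (hmM (meas_PD (n + 1))).compl
  set W : Sd d → Set (Ed d → ℝ) := fun y => {V | V ∈ N ∧
    PD (MJ H (Fin.cons (Sum.inr y) fun i : Fin n => p i.succ : Fin (n + 1) → Jd d) (V, E)) ∧
    ∃ s : Fin (n + 1) → ℂ, QF (MJ H p (V, E)) s ≤ 0 ∧
      ∑ j, H (Sum.inr y) (p j) (V, E) * s j ≠ 0} with hW
  have hWle : ∀ y, c0 * PP (Ed d) ν (W y) ≤
      ((PP (Ed d) ν).prod ν) {q | ¬ (q.1 ∈ N ↔ up (y, 0) q ∈ N)} := by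
    intro y
    -- the exceptional set
    have c1 := (measurePreserving_fst (μ := PP (Ed d) ν) (ν := ν)).quasiMeasurePreserving.ae hgen
    have c2 := (mp_up ν ((y, 0) : Ed d)).quasiMeasurePreserving.ae hgen
    have c3 := (measurePreserving_fst (μ := PP (Ed d) ν) (ν := ν)).quasiMeasurePreserving.ae hp
    have c4 := (mp_up ν ((y, 0) : Ed d)).quasiMeasurePreserving.ae hp
    have hK1 : ∀ᵐ q ∂((PP (Ed d) ν).prod ν), q.2 ∈ Icc a b :=
      (measurePreserving_snd (μ := PP (Ed d) ν) (ν := ν)).quasiMeasurePreserving.ae hD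
    have hK2 : ∀ᵐ q ∂((PP (Ed d) ν).prod ν), q.1 (y, 0) ∈ Icc a b := by
      have h1 : ∀ᵐ V ∂(PP (Ed d) ν), V (y, 0) ∈ Icc a b := by
        have := (measurePreserving_eval_infinitePi (fun _ : Ed d => ν)
          (y, 0)).quasiMeasurePreserving.ae hD
        exact this
      exact (measurePreserving_fst (μ := PP (Ed d) ν) (ν := ν)).quasiMeasurePreserving.ae h1
    have hZ : ∀ᵐ q ∂((PP (Ed d) ν).prod ν), GJ a b H q.1 E ∧ GJ a b H (up (y, 0) q) E ∧
        PD (MJ H (fun i : Fin n => p i.succ) (q.1, E)) ∧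
        PD (MJ H (fun i : Fin n => p i.succ) (up (y, 0) q, E)) ∧ q.2 ∈ Icc a b ∧
        q.1 (y, 0) ∈ Icc a b := by
      filter_upwards [c1, c2, c3, c4, hK1, hK2] with q d1 d2 d3 d4 d5 d6
      exact ⟨d1, d2, d3, d4, d5, d6⟩
    rw [ae_iff] at hZ
    set Z : Set ((Ed d → ℝ) × ℝ) := {q | ¬ (GJ a b H q.1 E ∧ GJ a b H (up (y, 0) q) E ∧
        PD (MJ H (fun i : Fin n => p i.succ) (q.1, E)) ∧
        PD (MJ H (fun i : Fin n => p i.succ) (up (y, 0) q, E)) ∧ q.2 ∈ Icc a b ∧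
        q.1 (y, 0) ∈ Icc a b)} with hZdef
    have hlow := lowG (ν := ν) hab' ((y, 0) : Ed d) (W := W y)
      (S := {q | ¬ (q.1 ∈ N ↔ up (y, 0) q ∈ N)} ∪ Z) (fun V hV v hv => by
        by_contra hcon
        rw [mem_union, not_or] at hcon
        obtain ⟨k1, k2⟩ := hcon
        obtain ⟨d1, d2, d3, d4, d5, d6⟩ := not_not.1 k2
        have k3 : V ∈ N ↔ up (y, 0) (V, v) ∈ N := not_not.1 k1
        obtain ⟨e1, e2, s, e3, e4⟩ := hV
        have e5 : ¬ PD (MJ H p (up (y, 0) (V, v), E)) := k3.1 e1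
        obtain ⟨w, hw0, hw⟩ := not_PD e5
        apply e4
        have hκ : cc a b v - cc a b (V (y, 0)) ≠ 0 := by
          have d5' : v ∈ Icc a b := d5
          have d6' : V (y, 0) ∈ Icc a b := d6
          rw [cc_eq d5', cc_eq d6']
          intro h7
          rw [h7, abs_zero] at hv
          linarith
        exact det_stepJ ha hab d1 d2 d3 d4 e2 hκ e3 hw0 hw)
    refine hlow.trans ((measure_union_le _ _).trans ?_)
    rw [hZ, add_zero]
  -- the sum over the rows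
  have hcov : ∀ k, PP (Ed d) ν N ≤ ∑ i, (PP (Ed d) ν (W (x k i)) + PP (Ed d) ν {V | ¬ PD (MJ H
      (Fin.cons (Sum.inr (x k i)) fun i : Fin n => p i.succ : Fin (n + 1) → Jd d) (V, E))}) := by
    intro k
    have hsub : N ≤ᵐ[PP (Ed d) ν] (⋃ i ∈ (Finset.univ : Finset (Fin (n + 1))),
        (W (x k i) ∪ {V | ¬ PD (MJ H
        (Fin.cons (Sum.inr (x k i)) fun i : Fin n => p i.succ : Fin (n + 1) → Jd d) (V, E))}) :
        Set (Ed d → ℝ)) := by
      filter_upwards [hdet] with V hV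
      intro hVN
      show V ∈ ⋃ i ∈ (Finset.univ : Finset (Fin (n + 1))),
        (W (x k i) ∪ {V | ¬ PD (MJ H
        (Fin.cons (Sum.inr (x k i)) fun i : Fin n => p i.succ : Fin (n + 1) → Jd d) (V, E))})
      by_contra hcon
      simp only [mem_iUnion, mem_union, not_exists, not_or, Finset.mem_univ] at hcon
      obtain ⟨s, hs0, hs⟩ := not_PD (show ¬ PD (MJ H p (V, E)) from hVN)
      apply hV k
      rw [← Matrix.exists_mulVec_eq_zero_iff]
      refine ⟨s, hs0, ?_⟩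
      funext i
      by_contra hne
      obtain ⟨k1, k2⟩ := hcon i trivial
      exact k1 ⟨hVN, not_not.1 k2, s, hs, hne⟩
    refine (measure_mono_ae hsub).trans ((measure_biUnion_finset_le _ _).trans ?_)
    exact Finset.sum_le_sum fun i _ => measure_union_le _ _
  have hxc : ∀ i, Tendsto (fun k => x k i) atTop (cofinite : Filter (Sd d)) := by
    intro i
    rw [← Nat.cofinite_eq_atTop]
    exact (hx i).tendsto_cofinite
  have hyi : Function.Injective fun x : Sd d => ((x, 0) : Ed d) :=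
    fun k l hkl => (Prod.mk.inj hkl).1
  have hWlim : ∀ i, Tendsto (fun k => PP (Ed d) ν (W (x k i))) atTop (𝓝 0) := by
    intro i
    rw [ENNReal.tendsto_nhds_zero]
    intro ε hε
    rcases eq_or_ne ε ∞ with rfl | hεtop
    · exact Eventually.of_forall fun x => le_top
    have h1 := (ENNReal.tendsto_nhds_zero.1 ((resample_set ν hNm).comp
      (hyi.tendsto_cofinite.comp (hxc i)))) (c0 * ε) (ENNReal.mul_pos hc0pos hε.ne')
    filter_upwards [h1] with k hk
    exact (ENNReal.mul_le_mul_iff_right hc0pos hc0top).1 ((hWle (x k i)).trans hk)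
  have hlim : Tendsto (fun k => ∑ i, (PP (Ed d) ν (W (x k i)) + PP (Ed d) ν {V | ¬ PD (MJ H
      (Fin.cons (Sum.inr (x k i)) fun i : Fin n => p i.succ : Fin (n + 1) → Jd d) (V, E))})) atTop
      (𝓝 (∑ _i : Fin (n + 1), (0 + 0))) := by
    refine tendsto_finsetSum _ fun i _ => (hWlim i).add ?_
    exact (far_pdJ hm hdec1 hdec2 hdiag hp).comp (hxc i)
  rw [add_zero, Finset.sum_const_zero] at hlim
  have h1 : PP (Ed d) ν N ≤ 0 := ge_of_tendsto' hlim hcov
  rw [ae_iff]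
  exact nonpos_iff_eq_zero.1 h1

end Pool.Agent.TH980.CN
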