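import Pool.Agent.TH980.CN.Alc
import Pool.Agent.TH980.IM.Loc

set_option autoImplicit false

/-! Finitely supported vectors for the conductance operator. -/

open MeasureTheory Filter Topology Set
open scoped ENNReal NNReal
open Pool.Agent.H12R2.And (Rz isUnit_sub sub_Rz im_inner norm_Rz_le diff_inner diff_Rz)
open Pool.Agent.TH980.IM Pool.Agent.TH980.IM.PR

namespace Pool.Agent.TH980.CN

variable {d : ℕ} {a b : ℝ}

theorem HC_ee_vec (ha : 0 < a) (hab : a ≤ b) (V : Ed d → ℝ) (y : Sd d) : HC a b V (ee y) =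
    (∑ i, ((cc a b (V (y, i)) : ℂ) + (cc a b (V (y - Pi.single i 1, i)) : ℂ))) • ee y -
      ∑ i, (cc a b (V (y, i)) : ℂ) • ee (y + Pi.single i 1) -
      ∑ i, (cc a b (V (y - Pi.single i 1, i)) : ℂ) • ee (y - Pi.single i 1) := by
  rw [HC_unit ha hab, Finset.sum_smul, ← Finset.sum_sub_distrib, ← Finset.sum_sub_distrib]
  refine Finset.sum_congr rfl fun i _ => ?_
  unfold be
  simp only [sub_add_cancel]
  rw [add_smul, smul_sub, neg_smul, smul_sub]
  abel

/-- the span of the iterates of the unit vectors of the two hyperplanes -/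
noncomputable def SC [NeZero d] (a b : ℝ) (V : Ed d → ℝ) : Submodule ℂ (L2 d) :=
  Submodule.span ℂ {w | ∃ (y : Sd d) (m : ℕ), (y 0 = 0 ∨ y 0 = 0 + 1) ∧
    w = ((HC a b V) ^ m) (ee y)}

section

variable [NeZero d]

theorem SC_inv (V : Ed d → ℝ) {w : L2 d} (hw : w ∈ SC a b V) : HC a b V w ∈ SC a b V := by
  unfold SC at hw ⊢
  induction hw using Submodule.span_induction with
  | mem x hx =>
    obtain ⟨y, m, hy, rfl⟩ := hx
    apply Submodule.subset_span
    refine ⟨y, m + 1, hy, ?_⟩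
    rw [pow_succ']
    rfl
  | zero => rw [map_zero]; exact Submodule.zero_mem _
  | add x y _ _ hx hy => rw [map_add]; exact Submodule.add_mem _ hx hy
  | smul a x _ hx => rw [map_smul]; exact Submodule.smul_mem _ a hx

theorem SC_base (V : Ed d → ℝ) {x : Sd d} (hx : x 0 = 0 ∨ x 0 = 0 + 1) : ee x ∈ SC a b V := by
  unfold SC
  apply Submodule.subset_span
  exact ⟨x, 0, hx, by rw [pow_zero]; rfl⟩

theorem SC_up (ha : 0 < a) (hab : a ≤ b) (V : Ed d → ℝ) (k : ℤ)
    (h0 : ∀ x : Sd d, x 0 = k → ee x ∈ SC a b V)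
    (h1 : ∀ x : Sd d, x 0 = k + 1 → ee x ∈ SC a b V) :
    ∀ x : Sd d, x 0 = k + 2 → ee x ∈ SC a b V := by
  intro x hx
  set y : Sd d := x - Pi.single 0 1 with hy
  have hy0 : y 0 = k + 1 := by
    rw [hy, Pi.sub_apply, Pi.single_eq_same, hx]
    ring
  have hxy : x = y + Pi.single 0 1 := by rw [hy, sub_add_cancel]
  have hc : (cc a b (V (y, 0)) : ℂ) ≠ 0 := by exact_mod_cast (ha.trans_le (cc_ge a b _)).ne'
  have e := HC_ee_vec ha hab V y
  have e3 : ∑ i, (cc a b (V (y, i)) : ℂ) • (ee (y + Pi.single i 1) : L2 d) =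
      (cc a b (V (y, 0)) : ℂ) • ee (y + Pi.single 0 1) +
      ∑ i ∈ Finset.univ.erase 0, (cc a b (V (y, i)) : ℂ) • ee (y + Pi.single i 1) :=
    (Finset.add_sum_erase _ (fun i => (cc a b (V (y, i)) : ℂ) • (ee (y + Pi.single i 1) : L2 d))
      (Finset.mem_univ 0)).symm
  rw [e3] at e
  have e2 : (cc a b (V (y, 0)) : ℂ) • (ee (y + Pi.single 0 1) : L2 d) =
      (∑ i, ((cc a b (V (y, i)) : ℂ) + (cc a b (V (y - Pi.single i 1, i)) : ℂ))) • ee y -
      ∑ i ∈ Finset.univ.erase 0, (cc a b (V (y, i)) : ℂ) • ee (y + Pi.single i 1) -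
      ∑ i, (cc a b (V (y - Pi.single i 1, i)) : ℂ) • ee (y - Pi.single i 1) -
      HC a b V (ee y) := by
    rw [e]
    abel
  have e4 : (cc a b (V (y, 0)) : ℂ) • (ee (y + Pi.single 0 1) : L2 d) ∈ SC a b V := by
    rw [e2]
    refine Submodule.sub_mem _ (Submodule.sub_mem _ (Submodule.sub_mem _
      (Submodule.smul_mem _ _ (h1 y hy0)) ?_) ?_) (SC_inv V (h1 y hy0))
    · refine Submodule.sum_mem _ fun i hi => Submodule.smul_mem _ _ (h1 _ ?_)
      rw [Pi.add_apply, single_ne 0 i (Finset.ne_of_mem_erase hi), add_zero, hy0]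
    · refine Submodule.sum_mem _ fun i _ => Submodule.smul_mem _ _ ?_
      by_cases hi : i = 0
      · subst hi
        apply h0
        rw [Pi.sub_apply, Pi.single_eq_same, hy0]
        ring
      · apply h1
        rw [Pi.sub_apply, single_ne 0 i hi, sub_zero, hy0]
  rw [hxy]
  have e5 := Submodule.smul_mem _ ((cc a b (V (y, 0)) : ℂ)⁻¹) e4
  rwa [smul_smul, inv_mul_cancel₀ hc, one_smul] at e5

theorem SC_down (ha : 0 < a) (hab : a ≤ b) (V : Ed d → ℝ) (k : ℤ)
    (h0 : ∀ x : Sd d, x 0 = k → ee x ∈ SC a b V)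
    (h1 : ∀ x : Sd d, x 0 = k + 1 → ee x ∈ SC a b V) :
    ∀ x : Sd d, x 0 = k - 1 → ee x ∈ SC a b V := by
  intro x hx
  set y : Sd d := x + Pi.single 0 1 with hy
  have hy0 : y 0 = k := by
    rw [hy, Pi.add_apply, Pi.single_eq_same, hx]
    ring
  have hxy : x = y - Pi.single 0 1 := by rw [hy, add_sub_cancel_right]
  have hc : (cc a b (V (y - Pi.single 0 1, 0)) : ℂ) ≠ 0 := by
    exact_mod_cast (ha.trans_le (cc_ge a b _)).ne'
  have e := HC_ee_vec ha hab V y
  have e3 : ∑ i, (cc a b (V (y - Pi.single i 1, i)) : ℂ) • (ee (y - Pi.single i 1) : L2 d) =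
      (cc a b (V (y - Pi.single 0 1, 0)) : ℂ) • ee (y - Pi.single 0 1) +
      ∑ i ∈ Finset.univ.erase 0, (cc a b (V (y - Pi.single i 1, i)) : ℂ) •
        ee (y - Pi.single i 1) :=
    (Finset.add_sum_erase _ (fun i => (cc a b (V (y - Pi.single i 1, i)) : ℂ) •
      (ee (y - Pi.single i 1) : L2 d)) (Finset.mem_univ 0)).symm
  rw [e3] at e
  have e2 : (cc a b (V (y - Pi.single 0 1, 0)) : ℂ) • (ee (y - Pi.single 0 1) : L2 d) =
      (∑ i, ((cc a b (V (y, i)) : ℂ) + (cc a b (V (y - Pi.single i 1, i)) : ℂ))) • ee y -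
      ∑ i, (cc a b (V (y, i)) : ℂ) • ee (y + Pi.single i 1) -
      ∑ i ∈ Finset.univ.erase 0, (cc a b (V (y - Pi.single i 1, i)) : ℂ) •
        ee (y - Pi.single i 1) -
      HC a b V (ee y) := by
    rw [e]
    abel
  have e4 : (cc a b (V (y - Pi.single 0 1, 0)) : ℂ) • (ee (y - Pi.single 0 1) : L2 d) ∈
      SC a b V := by
    rw [e2]
    refine Submodule.sub_mem _ (Submodule.sub_mem _ (Submodule.sub_mem _
      (Submodule.smul_mem _ _ (h0 y hy0)) ?_) ?_) (SC_inv V (h0 y hy0))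
    · refine Submodule.sum_mem _ fun i _ => Submodule.smul_mem _ _ ?_
      by_cases hi : i = 0
      · subst hi
        apply h1
        rw [Pi.add_apply, Pi.single_eq_same, hy0]
      · apply h0
        rw [Pi.add_apply, single_ne 0 i hi, add_zero, hy0]
    · refine Submodule.sum_mem _ fun i hi => Submodule.smul_mem _ _ (h0 _ ?_)
      rw [Pi.sub_apply, single_ne 0 i (Finset.ne_of_mem_erase hi), sub_zero, hy0]
  rw [hxy]
  have e5 := Submodule.smul_mem _ ((cc a b (V (y - Pi.single 0 1, 0)) : ℂ)⁻¹) e4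
  rwa [smul_smul, inv_mul_cancel₀ hc, one_smul] at e5

theorem SC_all (ha : 0 < a) (hab : a ≤ b) (V : Ed d → ℝ) (x : Sd d) : ee x ∈ SC a b V := by
  have hup : ∀ k : ℕ, (∀ x : Sd d, x 0 = k → ee x ∈ SC a b V) ∧
      ∀ x : Sd d, x 0 = (k : ℤ) + 1 → ee x ∈ SC a b V := by
    intro k
    induction k with
    | zero => exact ⟨fun x hx => SC_base V (Or.inl hx), fun x hx => SC_base V (Or.inr hx)⟩
    | succ k ih =>
      refine ⟨fun x hx => ih.2 x (by rw [hx]; push_cast; ring), fun x hx => ?_⟩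
      exact SC_up ha hab V k ih.1 ih.2 x (by rw [hx]; push_cast; ring)
  have hdown : ∀ k : ℕ, (∀ x : Sd d, x 0 = -(k : ℤ) → ee x ∈ SC a b V) ∧
      ∀ x : Sd d, x 0 = -(k : ℤ) + 1 → ee x ∈ SC a b V := by
    intro k
    induction k with
    | zero =>
      refine ⟨fun x hx => SC_base V (Or.inl (by rw [hx]; simp)),
        fun x hx => SC_base V (Or.inr (by rw [hx]; simp))⟩
    | succ k ih =>
      refine ⟨fun x hx => ?_, fun x hx => ih.1 x (by rw [hx]; push_cast; ring)⟩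
      exact SC_down ha hab V (-(k : ℤ)) ih.1 ih.2 x (by rw [hx]; push_cast; ring)
  rcases Int.natAbs_eq (x 0) with h | h
  · exact (hup _).1 x h
  · exact (hdown _).1 x h

/-- every element of the span is a combination of polynomials of the operator -/
theorem SC_rep (V : Ed d → ℝ) {u : L2 d} (hu : u ∈ SC a b V) :
    ∃ F : Sd d →₀ Polynomial ℂ, (∀ y ∈ F.support, y 0 = 0 ∨ y 0 = 0 + 1) ∧
      u = F.sum fun y q => (Polynomial.aeval (HC a b V) q) (ee y) := by
  classical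
  unfold SC at hu
  induction hu using Submodule.span_induction with
  | mem x hx =>
    obtain ⟨y, m, hy, rfl⟩ := hx
    refine ⟨Finsupp.single y (Polynomial.X ^ m), fun z hz => ?_, ?_⟩
    · have := Finsupp.support_single_subset hz
      rw [Finset.mem_singleton] at this
      rw [this]; exact hy
    · rw [Finsupp.sum_single_index (by simp), map_pow, Polynomial.aeval_X]
  | zero => exact ⟨0, fun y hy => by simp at hy, by simp⟩
  | add x y _ _ hx hy =>
    obtain ⟨F, hF, rfl⟩ := hx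
    obtain ⟨G, hG, rfl⟩ := hy
    refine ⟨F + G, fun z hz => ?_, ?_⟩
    · rcases Finset.mem_union.1 (Finsupp.support_add hz) with h | h
      · exact hF z h
      · exact hG z h
    · rw [Finsupp.sum_add_index (fun _ _ => by simp) (fun _ _ _ _ => by simp)]
  | smul a x _ hx =>
    obtain ⟨F, hF, rfl⟩ := hx
    refine ⟨Polynomial.C a • F, fun z hz => hF z (Finsupp.support_smul hz), ?_⟩
    rw [Finsupp.sum_smul_index (fun _ => by simp), Finsupp.smul_sum]
    refine Finsupp.sum_congr fun y _ => ?_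
    rw [map_mul, Polynomial.aeval_C, Algebra.algebraMap_eq_smul_one, smul_mul_assoc, one_mul]
    rfl

/-- the values at `E` of the coefficients of a negligible vector vanish -/
theorem coef_zero (ha : 0 < a) (hab : a ≤ b) {V : Ed d → ℝ}
    {H : Jd d → Jd d → (Ed d → ℝ) × ℝ → ℂ} {E : ℝ} (e1 : GJ a b H V E)
    {G : Sd d →₀ Polynomial ℂ} {n : ℕ} {p : Fin n → Sd d}
    (e2 : PD (MJ H (fun i => Sum.inl (p i)) (V, E))) {u : L2 d}
    (hsum : u = ∑ i, (Polynomial.aeval (HC a b V) (G (p i))) (ee (p i)))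
    (hlim : Tendsto (fun k => qn (HC a b V) (zk k E) u) atTop (𝓝 0)) :
    ∀ i, (G (p i)).eval (E : ℂ) = 0 := by
  have hw : (∑ i, (G (p i)).eval (E : ℂ) • (ee (p i) : L2 d)) = u + ∑ i, (-1 : ℂ) •
      (Polynomial.aeval (HC a b V) (G (p i) - Polynomial.C ((G (p i)).eval (E : ℂ)))) (ee (p i)) := by
    rw [hsum, ← Finset.sum_add_distrib]
    refine Finset.sum_congr rfl fun i _ => ?_
    rw [map_sub, Polynomial.aeval_C, Algebra.algebraMap_eq_smul_one]
    change _ = _ + (-1 : ℂ) • ((Polynomial.aeval (HC a b V) (G (p i))) (ee (p i)) -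
      ((G (p i)).eval (E : ℂ)) • (ee (p i) : L2 d))
    rw [neg_one_smul]
    abel
  have hz : Tendsto (fun k => qn (HC a b V) (zk k E) (∑ i, (G (p i)).eval (E : ℂ) •
      (ee (p i) : L2 d))) atTop (𝓝 0) := by
    rw [hw]
    have h3 : Tendsto (fun k => qn (HC a b V) (zk k E) u + ∑ i, ‖(-1 : ℂ)‖ *
        qn (HC a b V) (zk k E) ((Polynomial.aeval (HC a b V) (G (p i) -
          Polynomial.C ((G (p i)).eval (E : ℂ)))) (ee (p i)))) atTop
        (𝓝 (0 + ∑ _i : Fin n, ‖(-1 : ℂ)‖ * 0)) := by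
      refine hlim.add (tendsto_finsetSum _ fun i _ => Tendsto.const_mul _ ?_)
      exact qn_poly (HC_sa ha hab V) _ _ E (by simp)
    simp only [mul_zero, Finset.sum_const_zero, add_zero] at h3
    refine squeeze_zero (fun k => qn_nonneg _ _) (fun k => ?_) h3
    exact (qn_add _ _ _).trans (by
      have := qn_sum (T := HC a b V) Finset.univ (zk k E) (fun _ : Fin n => (-1 : ℂ)) fun i =>
        (Polynomial.aeval (HC a b V) (G (p i) -
          Polynomial.C ((G (p i)).eval (E : ℂ)))) (ee (p i))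
      linarith)
  exact PJ_zero ha hab e1 e2 hz

/-- a nonzero finitely supported vector is not negligible at almost all energies -/
theorem not_neglC (ha : 0 < a) (hab : a ≤ b) {V : Ed d → ℝ}
    {H : Jd d → Jd d → (Ed d → ℝ) × ℝ → ℂ} {Sg : Set ℝ}
    (h1 : ∀ᵐ E : ℝ, GJ a b H V E)
    (h2 : ∀ᵐ E : ℝ, E ∈ Sg → ∀ (m : ℤ) (n : ℕ) (p : Fin n → Sd d), Lay (0 : Fin d) m p →
      PD (MJ H (fun i => Sum.inl (p i)) (V, E))) {u : L2 d} (hu : FS u) (hu0 : u ≠ 0) :
    ∀ᵐ E : ℝ, E ∈ Sg → ¬ Tendsto (fun k => qn (HC a b V) (zk k E) u) atTop (𝓝 0) := by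
  have hFu : ∀ j, j ∉ hu.toFinset → u j = 0 := fun j hj => by
    by_contra hne
    exact hj (hu.mem_toFinset.2 hne)
  have huS : u ∈ SC a b V := by
    rw [fin_sum hFu]
    exact Submodule.sum_mem _ fun x _ => Submodule.smul_mem _ _ (SC_all ha hab V x)
  obtain ⟨F, hF, hFu⟩ := SC_rep V huS
  have hF0 : F ≠ 0 := by
    rintro rfl
    apply hu0
    rw [hFu]
    simp
  obtain ⟨y0, hy0⟩ := Finsupp.support_nonempty_iff.2 hF0
  have hP : F y0 ≠ 0 := Finsupp.mem_support_iff.1 hy0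
  have hroots : ∀ᵐ E : ℝ, (F y0).eval (E : ℂ) ≠ 0 := by
    have hfin : {E : ℝ | (F y0).IsRoot (E : ℂ)}.Finite :=
      (Polynomial.finite_setOfPred_isRoot hP).preimage Complex.ofReal_injective.injOn
    filter_upwards [measure_eq_zero_iff_ae_notMem.1 (hfin.measure_zero volume)] with E hE h3
    exact hE h3
  set n := F.support.card with hn
  set e : F.support ≃ Fin n := F.support.equivFin with he
  set p : Fin n → Sd d := fun i => (e.symm i : Sd d) with hp
  have hlay : Lay (0 : Fin d) 0 p := by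
    refine ⟨fun a b hab => e.symm.injective (Subtype.ext hab), fun i => hF _ (e.symm i).2⟩
  have hsum : u = ∑ i, (Polynomial.aeval (HC a b V) (F (p i))) (ee (p i)) := by
    rw [hFu, Finsupp.sum, ← Finset.sum_coe_sort, ← Equiv.sum_comp e.symm]
  filter_upwards [h1, h2, hroots] with E e1 e2 e3 hES hlim
  apply e3
  have h4 := coef_zero ha hab e1 (e2 hES 0 n p hlay) hsum hlim (e ⟨y0, hy0⟩)
  rw [hp] at h4
  simpa using h4

end

theorem FS_HC (ha : 0 < a) (hab : a ≤ b) {V : Ed d → ℝ} {u : L2 d} (hu : FS u) :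
    FS (HC a b V u) := by
  have hF : ∀ j, j ∉ hu.toFinset → u j = 0 := fun j hj => by
    by_contra hne
    exact hj (hu.mem_toFinset.2 hne)
  rw [fin_sum hF, map_sum]
  refine FS.sum _ fun x _ => ?_
  rw [map_smul]
  apply FS.smul
  rw [HC_ee_vec ha hab]
  have hneg : ∀ w : L2 d, FS w → FS (-w) := fun w hw => by
    rw [← neg_one_smul ℂ w]
    exact hw.smul _
  rw [sub_eq_add_neg, sub_eq_add_neg]
  exact (((FS_ee x).smul _).add (hneg _ (FS.sum _ fun i _ => (FS_ee _).smul _))).add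
    (hneg _ (FS.sum _ fun i _ => (FS_ee _).smul _))

theorem FS_polyC (ha : 0 < a) (hab : a ≤ b) {V : Ed d → ℝ} (P : Polynomial ℂ) {u : L2 d}
    (hu : FS u) : FS (Polynomial.aeval (HC a b V) P u) := by
  have hpow : ∀ n : ℕ, FS (((HC a b V) ^ n) u) := by
    intro n
    induction n with
    | zero => rw [pow_zero]; exact hu
    | succ n ih =>
      have e : ((HC a b V) ^ (n + 1)) u = HC a b V (((HC a b V) ^ n) u) := by
        rw [pow_succ']
        rfl
      rw [e]
      exact FS_HC ha hab ih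
  induction P using Polynomial.induction_on' with
  | add p q hp hq =>
    rw [map_add]
    exact hp.add hq
  | monomial n a =>
    rw [Polynomial.aeval_monomial, Algebra.algebraMap_eq_smul_one, smul_mul_assoc, one_mul]
    exact (hpow n).smul a

/-- polarization for real vectors -/
theorem polarG {T : L2 d →L[ℂ] L2 d} (hT : IsSelfAdjoint T) (hr : ∀ f, T (star f) = star (T f))
    {x y : L2 d} (hx : star x = x) (hy : star y = y) {z : ℂ} (hz : z.im ≠ 0) :
    inner ℂ x (Rz T z y) = (1 / 4 : ℂ) * (inner ℂ (x + y) (Rz T z (x + y)) -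
      inner ℂ (x - y) (Rz T z (x - y))) := by
  have h := symmG hT hr hx hy hz
  rw [map_add, map_sub, inner_add_left, inner_sub_left, inner_add_right, inner_add_right,
    inner_sub_right, inner_sub_right, ← h]
  ring

/-- vertical limits of the imaginary part of the Green function -/
theorem vertC [NeZero d] (ha : 0 < a) (hab : a ≤ b) {V : Ed d → ℝ}
    {H : Jd d → Jd d → (Ed d → ℝ) × ℝ → ℂ} (h1 : ∀ᵐ E : ℝ, GJ a b H V E) :
    ∀ᵐ E : ℝ, ∀ x y : Jd d,
      Tendsto (fun η : ℝ => (inner ℂ (fv x) (Rz (HC a b V) (E + η * Complex.I) (fv y))).im)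
        (𝓝[>] 0) (𝓝 (H x y (V, E)).im) := by
  have hsa := HC_sa ha hab V
  have h2 : ∀ x y : Jd d, ∀ᵐ E : ℝ,
      Tendsto (fun η : ℝ => (inner ℂ (fv x) (Rz (HC a b V) (E + η * Complex.I) (fv y))).im)
        (𝓝[>] 0) (𝓝 (1 / 4 * (kap * dn hsa (fv x + fv y) E - kap * dn hsa (fv x - fv y) E))) ∧
      Tendsto (fun k => (inner ℂ (fv x) (Rz (HC a b V) (zk k E) (fv y))).im) atTop
        (𝓝 (1 / 4 * (kap * dn hsa (fv x + fv y) E - kap * dn hsa (fv x - fv y) E))) := by
    intro x y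
    have him : ∀ z : ℂ, 0 < z.im → (inner ℂ (fv x) (Rz (HC a b V) z (fv y))).im = 1 / 4 *
        ((inner ℂ (fv x + fv y) (Rz (HC a b V) z (fv x + fv y))).im -
        (inner ℂ (fv x - fv y) (Rz (HC a b V) z (fv x - fv y))).im) := by
      intro z hz
      rw [polarG hsa (HC_star ha hab V) (star_fv x) (star_fv y) hz.ne', ← Complex.sub_im]
      have : ((1 / 4 : ℂ)) = ((1 / 4 : ℝ) : ℂ) := by push_cast; rfl
      rw [this, Complex.im_ofReal_mul]
    filter_upwards [ae_im_tendsto (spm hsa (fv x + fv y)), ae_im_tendsto (spm hsa (fv x - fv y)),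
      boundary_spm hsa (fv x + fv y), boundary_spm hsa (fv x - fv y)]
      with E e1 e2 ⟨l3, e3, e3'⟩ ⟨l4, e4, e4'⟩
    constructor
    · refine ((e1.sub e2).const_mul (1 / 4)).congr' ?_
      filter_upwards [self_mem_nhdsWithin] with η hη
      have hη' : (0 : ℝ) < η := hη
      have hz : 0 < ((E : ℂ) + η * Complex.I).im := by simpa using hη'
      rw [him _ hz, BT_spm hsa _ hz.ne', BT_spm hsa _ hz.ne']
    · have e5 := ((Complex.continuous_im.tendsto l3).comp e3).sub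
        ((Complex.continuous_im.tendsto l4).comp e4)
      rw [e3', e4'] at e5
      refine (e5.const_mul (1 / 4)).congr fun k => ?_
      exact (him _ (zk_im_pos k E)).symm
  have h3 := ae_all_iff.2 fun x => ae_all_iff.2 (h2 x)
  filter_upwards [h1, h3] with E e1 e2 x y
  obtain ⟨e3, e4⟩ := e2 x y
  have e5 := (Complex.continuous_im.tendsto _).comp (e1 x y)
  rw [← tendsto_nhds_unique e4 e5]
  exact e3

/-- the vertical limit of the form on a finite combination of vectors -/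
theorem vert_formC [NeZero d] (ha : 0 < a) (hab : a ≤ b) {V : Ed d → ℝ}
    {H : Jd d → Jd d → (Ed d → ℝ) × ℝ → ℂ} {E : ℝ}
    (hv : ∀ x y : Jd d,
      Tendsto (fun η : ℝ => (inner ℂ (fv x) (Rz (HC a b V) (E + η * Complex.I) (fv y))).im)
        (𝓝[>] 0) (𝓝 (H x y (V, E)).im)) {n : ℕ} (p : Fin n → Jd d) (s : Fin n → ℂ) :
    Tendsto (fun η : ℝ => (inner ℂ (∑ i, s i • fv (p i))
      (Rz (HC a b V) (E + η * Complex.I) (∑ i, s i • fv (p i)))).im) (𝓝[>] 0)
      (𝓝 (QF (MJ H p (V, E)) s)) := by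
  have h3 : Tendsto (fun η : ℝ => ∑ i, ∑ k, ((starRingEnd ℂ) (s i) * s k).re *
      (inner ℂ (fv (p i)) (Rz (HC a b V) (E + η * Complex.I) (fv (p k)))).im) (𝓝[>] 0)
      (𝓝 (QF (MJ H p (V, E)) s)) := by
    apply tendsto_finsetSum
    intro i _
    apply tendsto_finsetSum
    intro k _
    apply Tendsto.const_mul
    exact hv (p i) (p k)
  refine h3.congr' ?_
  filter_upwards [self_mem_nhdsWithin] with η hη
  have hη' : (0 : ℝ) < η := hη
  have hz : 0 < ((E : ℂ) + η * Complex.I).im := by simpa using hη'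
  rw [← qn_formG (HC_sa ha hab V) (HC_star ha hab V) hz (fun i => fv (p i))
    (fun i => star_fv _) s, qn_sq (HC_sa ha hab V) hz]

/-- **the kernel of the boundary form** -/
theorem kernelC [NeZero d] (ha : 0 < a) (hab : a ≤ b) {V : Ed d → ℝ}
    {H : Jd d → Jd d → (Ed d → ℝ) × ℝ → ℂ} {Sg : Set ℝ}
    (h1 : ∀ᵐ E : ℝ, GJ a b H V E)
    (h2 : ∀ᵐ E : ℝ, E ∈ Sg → ∀ (m : ℤ) (n : ℕ) (p : Fin n → Sd d), Lay (0 : Fin d) m p →
      PD (MJ H (fun i => Sum.inl (p i)) (V, E)))
    (h3 : ∀ᵐ E : ℝ, E ∉ Sg → ∀ x : Sd d,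
      Tendsto (fun k => qn (HC a b V) (zk k E) (ee x)) atTop (𝓝 0)) :
    ∀ᵐ E : ℝ, ∀ u : L2 d, FS u → ∃ l : ℝ,
      Tendsto (fun η : ℝ => (inner ℂ u (Rz (HC a b V) (E + η * Complex.I) u)).im) (𝓝[>] 0)
        (𝓝 l) ∧
      (l = 0 ↔ (E ∉ Sg ∨ ∃ v : L2 d, FS v ∧ u = HC a b V v - (E : ℂ) • v)) := by
  filter_upwards [h1, h2, h3, vertC ha hab h1] with E e1 e2 e3 e4 u hu
  have hF : ∀ j, j ∉ hu.toFinset → u j = 0 := fun j hj => by
    by_contra hne
    exact hj (hu.mem_toFinset.2 hne)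
  set F := hu.toFinset with hFdef
  set e : F ≃ Fin F.card := F.equivFin with he
  set p : Fin F.card → Sd d := fun i => (e.symm i : Sd d) with hp
  have hre : ∀ g : Sd d → L2 d, ∑ x ∈ F, g x = ∑ i, g (p i) := fun g => by
    rw [← Finset.sum_coe_sort, ← Equiv.sum_comp e.symm]
  have hsum : u = ∑ i, u (p i) • fv (Sum.inl (p i)) :=
    (fin_sum hF).trans (hre fun x => u x • ee x)
  have hv := vert_formC ha hab e4 (fun i => Sum.inl (p i)) fun i => u (p i)
  have hq := qn_QJ ha hab e1 (fun i => Sum.inl (p i)) fun i => u (p i)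
  rw [← hsum] at hv hq
  refine ⟨_, hv, ?_⟩
  constructor
  · intro h0
    by_cases hE : E ∈ Sg
    · right
      have hz : Tendsto (fun k => qn (HC a b V) (zk k E) u) atTop (𝓝 0) := by
        rw [h0] at hq
        have h2 := (Real.continuous_sqrt.tendsto 0).comp hq
        rw [Real.sqrt_zero] at h2
        refine h2.congr fun k => ?_
        exact Real.sqrt_sq (qn_nonneg _ _)
      -- represent the vector
      have huS : u ∈ SC a b V := by
        rw [fin_sum hF]
        exact Submodule.sum_mem _ fun x _ => Submodule.smul_mem _ _ (SC_all ha hab V x)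
      obtain ⟨G, hG, hGu⟩ := SC_rep V huS
      set e' : G.support ≃ Fin G.support.card := G.support.equivFin with he'
      set p' : Fin G.support.card → Sd d := fun i => (e'.symm i : Sd d) with hp'
      have hlay : Lay (0 : Fin d) 0 p' :=
        ⟨fun a b hab => e'.symm.injective (Subtype.ext hab), fun i => hG _ (e'.symm i).2⟩
      have hsum' : u = ∑ i, (Polynomial.aeval (HC a b V) (G (p' i))) (ee (p' i)) := by
        rw [hGu, Finsupp.sum, ← Finset.sum_coe_sort, ← Equiv.sum_comp e'.symm]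
      have hev := coef_zero ha hab e1 (e2 hE 0 _ p' hlay) hsum' hz
      have hdvd : ∀ i, ∃ R : Polynomial ℂ, G (p' i) = (Polynomial.X - Polynomial.C (E : ℂ)) * R :=
        fun i => Polynomial.dvd_iff_isRoot.2 (hev i)
      choose R hR using hdvd
      refine ⟨∑ i, (Polynomial.aeval (HC a b V) (R i)) (ee (p' i)),
        FS.sum _ fun i _ => FS_polyC ha hab _ (FS_ee _), ?_⟩
      rw [hsum', map_sum, Finset.smul_sum, ← Finset.sum_sub_distrib]
      refine Finset.sum_congr rfl fun i _ => ?_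
      rw [hR i, map_mul, map_sub, Polynomial.aeval_X, Polynomial.aeval_C,
        Algebra.algebraMap_eq_smul_one]
      rfl
    · exact Or.inl hE
  · intro hor
    refine tendsto_nhds_unique hq ?_
    have hz : Tendsto (fun k => qn (HC a b V) (zk k E) u) atTop (𝓝 0) := by
      rcases hor with hE | ⟨v, -, rfl⟩
      · rw [hsum]
        have h4 : Tendsto (fun k => ∑ i, ‖u (p i)‖ *
            qn (HC a b V) (zk k E) (fv (Sum.inl (p i)))) atTop
            (𝓝 (∑ i, ‖u (p i)‖ * 0)) :=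
          tendsto_finsetSum _ fun i _ => (e3 hE (p i)).const_mul _
        simp only [mul_zero, Finset.sum_const_zero] at h4
        exact squeeze_zero (fun k => qn_nonneg _ _) (fun k => qn_sum _ _ _ _) h4
      · exact qn_T (HC_sa ha hab V) v E
    have := hz.pow 2
    simpa using this

theorem final3C (hd : 1 ≤ d) (ha : 0 < a) (ν : Measure ℝ) [IsProbabilityMeasure ν]
    (hν1 : ν (Icc a b) = 1) (hν : ∀ r : ℝ, ν {r} ≠ 1) :
    ∃ S : Set ℝ, MeasurableSet S ∧
    ∀ᵐ w ∂(Measure.infinitePi fun _ : Ed d => ν), ∃ H : L2 d →L[ℂ] L2 d, IsC w H ∧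
      (∀ H' : L2 d →L[ℂ] L2 d, IsC w H' → H' = H) ∧
      (∀ φ : L2 d, ∃ μ : Measure ℝ, IsFiniteMeasure μ ∧
        ∀ z : ℂ, z.im ≠ 0 → (∫ x, ((x : ℂ) - z)⁻¹ ∂μ) = inner ℂ φ (Rz H z φ)) ∧
      (∀ B : Set ℝ, MeasurableSet B → volume (B ∩ S) = 0 → ∀ (φ : L2 d) (μ : Measure ℝ),
        IsFiniteMeasure μ →
        (∀ z : ℂ, z.im ≠ 0 → (∫ x, ((x : ℂ) - z)⁻¹ ∂μ) = inner ℂ φ (Rz H z φ)) →
        (μ.restrict B) ⟂ₘ volume) ∧
      (∀ᵐ E : ℝ, ∀ u : L2 d, FS u → ∃ l : ℝ,
        Tendsto (fun η : ℝ => (inner ℂ u (Rz H (E + η * Complex.I) u)).im) (𝓝[>] 0) (𝓝 l) ∧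
        (l = 0 ↔ (E ∉ S ∨ ∃ v : L2 d, FS v ∧ u = H v - (E : ℂ) • v))) ∧
      ∀ u : L2 d, u ≠ 0 → FS u → ∀ B : Set ℝ, MeasurableSet B → volume (B ∩ S) ≠ 0 →
        ∀ μ : Measure ℝ, IsFiniteMeasure μ →
        (∀ z : ℂ, z.im ≠ 0 → (∫ x, ((x : ℂ) - z)⁻¹ ∂μ) = inner ℂ u (Rz H z u)) →
        ¬ (μ.restrict B) ⟂ₘ volume := by
  haveI : NeZero d := ⟨by omega⟩
  have hab : a ≤ b := by
    by_contra hcon
    rw [Icc_eq_empty hcon, measure_empty] at hν1
    exact zero_ne_one hν1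
  obtain ⟨Hf, S, hS, hcore⟩ := all_coreC (d := d) ha hν1 hν
  refine ⟨S, hS, ?_⟩
  filter_upwards [hcore] with w ⟨hw, e1, e2, e3⟩
  have hsa := HC_sa ha hab w
  have hex : IsC w (HC a b w) := by
    intro u x
    rw [HC_apply ha hab]
    refine Finset.sum_congr rfl fun i _ => ?_
    rw [cc_eq (hw _), cc_eq (hw _)]
  -- unit vectors are negligible outside `S`
  have e4 : ∀ᵐ E : ℝ, E ∉ S → ∀ x : Sd d,
      Tendsto (fun k => qn (HC a b w) (zk k E) (ee x)) atTop (𝓝 0) := by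
    have h1 : ∀ x : Sd d, ∀ᵐ E : ℝ, E ∉ S →
        Tendsto (fun k => qn (HC a b w) (zk k E) (ee x)) atTop (𝓝 0) := by
      intro x
      have h2 := e2 Sᶜ hS.compl (by rw [compl_inter_self, measure_empty]) (ee x)
        (spm hsa (ee x)) inferInstance (fun z hz => BT_spm hsa (ee x) hz)
      have f2 : ((spm hsa (ee x)).restrict Sᶜ).rnDeriv volume =ᵐ[volume] 0 :=
        h2.rnDeriv_ae_eq_zero
      have f3 : ((spm hsa (ee x)).restrict Sᶜ).rnDeriv volume =ᵐ[volume]
          Sᶜ.indicator ((spm hsa (ee x)).rnDeriv volume) :=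
        Measure.rnDeriv_restrict _ volume hS.compl
      filter_upwards [f2, f3, qn_tendsto hsa (ee x)] with E g2 g3 g4 hES
      rw [g2, indicator_of_mem (show E ∈ Sᶜ from hES)] at g3
      have g5 : dn hsa (ee x) E = 0 := by
        unfold dn
        rw [← g3]
        simp
      rw [g5, mul_zero, Real.sqrt_zero] at g4
      exact g4
    filter_upwards [ae_all_iff.2 h1] with E hE hES x
    exact hE x hES
  refine ⟨HC a b w, hex, fun H hH => ?_, fun φ => ?_, fun B hB hB0 φ μ hμf hμ => ?_,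
    kernelC ha hab e1 e3 e4, fun u hu hfin B hB hB0 μ hμf hμ => ?_⟩
  · apply ContinuousLinearMap.ext
    intro u
    apply lp.ext
    funext j
    exact (hH u j).trans (hex u j).symm
  · exact ⟨spm hsa φ, inferInstance, fun z hz => BT_spm hsa φ hz⟩
  · exact e2 B hB hB0 φ μ hμf hμ
  · exact seesG hsa (not_neglC ha hab e1 e3 hfin hu) hB hB0 hμ

end Pool.Agent.TH980.CN
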