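import Pool.Agent.TH980.CN.Cor

set_option autoImplicit false

/-! Infinite multiplicity of the absolutely continuous spectrum of the random conductance
operator. -/

open MeasureTheory Filter Topology Set
open scoped ENNReal NNReal
open Pool.Agent.H12R2.And (Rz isUnit_sub sub_Rz im_inner norm_Rz_le diff_inner diff_Rz
  mutuallySingular_of_rnDeriv)
open Pool.Agent.TH980.IM Pool.Agent.TH980.IM.PR

namespace Pool.Agent.TH980.CN

variable {d : ℕ}

/-- positive definiteness of the resolvent forms -/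
theorem posdefE [NeZero d] {a b : ℝ} (ha : 0 < a) (hab : a ≤ b) {V : Ed d → ℝ}
    {h : Sd d → (Ed d → ℝ) × ℝ → ℂ} {E : ℝ}
    (hE : ∀ x y : Sd d, Tendsto (fun k =>
      inner ℂ (be (x, 0)) (Rz (HC a b V) (zk k E) (be (y, 0)))) atTop
      (𝓝 (h (y - x) (sh ((x, 0) : Ed d) V, E)))) {n j : ℕ} {x : Fin (n + 1) → Sd d}
    (hP : (V, E) ∈ PhiE h n j x) (s : Fin (n + 1) → ℂ) :
    ∀ᶠ k in atTop, 1 / (4 * ((j : ℝ) + 1)) * ∑ i, ‖s i‖ ^ 2 ≤
      qn (HC a b V) (zk k E) (∑ i, s i • be (x i, 0)) ^ 2 := by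
  by_cases hs : s = 0
  · apply Eventually.of_forall
    intro k
    subst hs
    simp only [Pi.zero_apply, norm_zero, ne_eq, OfNat.ofNat_ne_zero, not_false_eq_true, zero_pow,
      Finset.sum_const_zero, mul_zero]
    positivity
  have hspos : 0 < ∑ i, ‖s i‖ ^ 2 := by
    obtain ⟨i, hi⟩ := Function.ne_iff.1 hs
    apply Finset.sum_pos' (fun i _ => by positivity)
    refine ⟨i, Finset.mem_univ i, ?_⟩
    have : 0 < ‖s i‖ := norm_pos_iff.2 hi
    positivity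
  have hδ : (0 : ℝ) < 1 / ((j : ℝ) + 1) := by positivity
  have h1 := dominant hδ (fun i k => (h (x k - x i) (sh ((x i, 0) : Ed d) V, E)).im)
    (fun i => by
      have := hP.1 i
      simpa only [sub_self] using this) (fun i k hik => hP.2 i k hik) s
  have h2 : Tendsto (fun k => qn (HC a b V) (zk k E) (∑ i, s i • be (x i, 0)) ^ 2) atTop
      (𝓝 (∑ i, ∑ k, ((starRingEnd ℂ) (s i) * s k).re *
        (h (x k - x i) (sh ((x i, 0) : Ed d) V, E)).im)) := by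
    have h3 : Tendsto (fun m => ∑ i, ∑ k, ((starRingEnd ℂ) (s i) * s k).re *
        (inner ℂ (be (x i, 0)) (Rz (HC a b V) (zk m E) (be (x k, 0)))).im) atTop
        (𝓝 (∑ i, ∑ k, ((starRingEnd ℂ) (s i) * s k).re *
        (h (x k - x i) (sh ((x i, 0) : Ed d) V, E)).im)) := by
      apply tendsto_finsetSum
      intro i _
      apply tendsto_finsetSum
      intro k _
      apply Tendsto.const_mul
      exact (Complex.continuous_im.tendsto _).comp (hE (x i) (x k))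
    refine h3.congr fun m => ?_
    exact (qn_formG (HC_sa ha hab V) (HC_star ha hab V) (zk_im_pos m E)
      (fun i => be (x i, 0)) (fun i => star_be _) s).symm
  have h4 : 1 / (4 * ((j : ℝ) + 1)) * ∑ i, ‖s i‖ ^ 2 <
      ∑ i, ∑ k, ((starRingEnd ℂ) (s i) * s k).re *
        (h (x k - x i) (sh ((x i, 0) : Ed d) V, E)).im := by
    refine lt_of_lt_of_le ?_ h1
    apply mul_lt_mul_of_pos_right _ hspos
    rw [div_div, div_lt_div_iff₀ (by positivity) (by positivity)]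
    have : (0 : ℝ) < (j : ℝ) + 1 := by positivity
    linarith
  filter_upwards [h2.eventually (lt_mem_nhds h4)] with k hk
  exact hk.le

/-- the almost sure structure -/
theorem coreE [NeZero d] {a b : ℝ} (ha : 0 < a) {ν : Measure ℝ} [IsProbabilityMeasure ν]
    (hν1 : ν (Icc a b) = 1) (hν : ∀ r : ℝ, ν {r} ≠ 1) :
    ∃ (h : Sd d → (Ed d → ℝ) × ℝ → ℂ) (Sg : Set ℝ), MeasurableSet Sg ∧
      (∀ w, Measurable (h w)) ∧ ∀ᵐ V ∂(PP (Ed d) ν), (∀ e, V e ∈ Icc a b) ∧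
      (∀ᵐ E : ℝ, ∀ x y : Sd d, Tendsto (fun k =>
        inner ℂ (be (x, 0)) (Rz (HC a b V) (zk k E) (be (y, 0)))) atTop
        (𝓝 (h (y - x) (sh ((x, 0) : Ed d) V, E)))) ∧
      (∀ᵐ E : ℝ, E ∈ Sg → ∀ n : ℕ, ∃ (j : ℕ) (x : Fin (n + 1) → Sd d),
        (V, E) ∈ PhiE h n j x) ∧
      ∀ B : Set ℝ, MeasurableSet B → volume (B ∩ Sg) = 0 → ∀ (φ : L2 d) (μ : Measure ℝ),
        IsFiniteMeasure μ →
        (∀ z : ℂ, z.im ≠ 0 → (∫ x, ((x : ℂ) - z)⁻¹ ∂μ) = inner ℂ φ (Rz (HC a b V) z φ)) →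
        (μ.restrict B) ⟂ₘ volume := by
  have hab : a ≤ b := by
    by_contra hcon
    rw [Icc_eq_empty hcon, measure_empty] at hν1
    exact zero_ne_one hν1
  have hD : ∀ᵐ v ∂ν, v ∈ Icc a b := by
    rw [ae_iff]
    exact (prob_compl_eq_zero_iff measurableSet_Icc).2 hν1
  obtain ⟨h, hm, hh⟩ := exists_limE ha hab ν (d := d)
  obtain ⟨Sg, hSg, hmain⟩ := cond_main (d := d) ha hν1 hν
  have r0 := hmain (be (0, 0)) (be_ne _)
  have r1 : ∀ᵐ V ∂(PP (Ed d) ν), ∀ᵐ E : ℝ, ∀ x y : Sd d, Tendsto (fun k =>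
      inner ℂ (be (x, 0)) (Rz (HC a b V) (zk k E) (be (y, 0)))) atTop
      (𝓝 (h (y - x) (sh ((x, 0) : Ed d) V, E))) :=
    Measure.ae_ae_of_ae_prod hh
  have hsh : ∀ V : Ed d → ℝ, sh ((0, 0) : Ed d) V = V := fun V => by
    funext y
    have : y + ((0, 0) : Ed d) = y := add_zero y
    simp only [sh, this]
  -- positivity on `Sg`
  have hpos : ∀ᵐ V ∂(PP (Ed d) ν), ∀ᵐ E : ℝ, E ∈ Sg → 0 < (h 0 (V, E)).im := by
    filter_upwards [r0, r1] with V ⟨_, h2⟩ h3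
    have hsa := HC_sa ha hab V
    have hBm : MeasurableSet (Sg ∩ {E : ℝ |
        (spm hsa (be (0, 0) : L2 d)).rnDeriv volume E = 0}) :=
      hSg.inter ((Measure.measurable_rnDeriv _ _) (measurableSet_singleton 0))
    have hsing : ((spm hsa (be (0, 0) : L2 d)).restrict (Sg ∩ {E : ℝ |
        (spm hsa (be (0, 0) : L2 d)).rnDeriv volume E = 0})) ⟂ₘ volume := by
      apply mutuallySingular_of_rnDeriv hBm
      filter_upwards [ae_restrict_mem hBm] with E hE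
      exact hE.2
    have h4 : volume ((Sg ∩ {E : ℝ |
        (spm hsa (be (0, 0) : L2 d)).rnDeriv volume E = 0}) ∩ Sg) = 0 := by
      by_contra hne
      exact (h2 _ hBm).2 hne (spm hsa (be (0, 0))) inferInstance
        (fun z hz => BT_spm hsa (be (0, 0)) hz) hsing
    have h5 : ∀ᵐ E : ℝ, E ∉ (Sg ∩ {E : ℝ |
        (spm hsa (be (0, 0) : L2 d)).rnDeriv volume E = 0}) ∩ Sg := by
      rw [ae_iff]
      simpa only [not_not] using! h4
    filter_upwards [h3, h5, boundary_spm hsa (be (0, 0) : L2 d),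
      Measure.rnDeriv_lt_top (spm hsa (be (0, 0) : L2 d)) volume] with E e1 e2 ⟨l, hl, hl2⟩ e4 hES
    have e5 := e1 0 0
    rw [hsh, sub_zero] at e5
    have e6 := tendsto_nhds_unique hl e5
    rw [← e6, hl2]
    apply mul_pos kap_pos
    unfold dn
    apply ENNReal.toReal_pos _ e4.ne
    intro h0
    exact e2 ⟨⟨hES, h0⟩, hES⟩
  have hposE : ∀ᵐ E : ℝ, ∀ᵐ V ∂(PP (Ed d) ν), E ∈ Sg → 0 < (h 0 (V, E)).im := by
    have hmeas : MeasurableSet {q : (Ed d → ℝ) × ℝ | q.2 ∈ Sg → 0 < (h 0 q).im} := by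
      have e : {q : (Ed d → ℝ) × ℝ | q.2 ∈ Sg → 0 < (h 0 q).im} =
          (Prod.snd ⁻¹' Sg)ᶜ ∪ {q | 0 < (h 0 q).im} := by
        ext q
        simp only [Set.mem_ofPred_eq, mem_union, mem_compl_iff, mem_preimage]
        tauto
      rw [e]
      exact (measurable_snd hSg).compl.union
        (measurableSet_lt measurable_const (Complex.measurable_im.comp (hm 0)))
    exact (Measure.ae_ae_comm hmeas).1 hpos
  -- the configurations
  have r2 : ∀ᵐ V ∂(PP (Ed d) ν), ∀ᵐ E : ℝ,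
      E ∈ Sg → ∀ n : ℕ, ∃ (j : ℕ) (x : Fin (n + 1) → Sd d), (V, E) ∈ PhiE h n j x := by
    have hmeas : MeasurableSet {q : (Ed d → ℝ) × ℝ | q.2 ∈ Sg → ∀ n : ℕ,
        ∃ (j : ℕ) (x : Fin (n + 1) → Sd d), q ∈ PhiE h n j x} := by
      have e : {q : (Ed d → ℝ) × ℝ | q.2 ∈ Sg → ∀ n : ℕ,
          ∃ (j : ℕ) (x : Fin (n + 1) → Sd d), q ∈ PhiE h n j x} =
          (Prod.snd ⁻¹' Sg)ᶜ ∪ ⋂ n : ℕ, ⋃ j : ℕ, ⋃ x : Fin (n + 1) → Sd d, PhiE h n j x := by
        ext q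
        simp only [Set.mem_ofPred_eq, mem_union, mem_compl_iff, mem_preimage, mem_iInter,
          mem_iUnion]
        tauto
      rw [e]
      apply MeasurableSet.union (measurable_snd hSg).compl
      exact MeasurableSet.iInter fun n => MeasurableSet.iUnion fun j =>
        MeasurableSet.iUnion fun x => meas_PhiE hm n j x
    have h1 : ∀ᵐ E : ℝ, ∀ᵐ V ∂(PP (Ed d) ν), (V, E) ∈ {q : (Ed d → ℝ) × ℝ | q.2 ∈ Sg → ∀ n : ℕ,
        ∃ (j : ℕ) (x : Fin (n + 1) → Sd d), q ∈ PhiE h n j x} := by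
      filter_upwards [lim_decayE ha hab hD hν hm hh, hposE] with E hE hE2
      by_cases hEg : E ∈ Sg
      · have hmE : ∀ w, Measurable fun V : Ed d → ℝ => (h w (V, E)).im := fun w =>
          Complex.measurable_im.comp ((hm w).comp (measurable_id.prodMk measurable_const))
        have hdec : ∀ δ' : ℝ, 0 < δ' →
            Tendsto (fun w => PP (Ed d) ν {V | δ' ≤ |(h w (V, E)).im|}) cofinite (𝓝 0) := by
          intro δ' hδ'
          refine tendsto_of_tendsto_of_tendsto_of_le_of_le tendsto_const_nhds (hE δ' hδ')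
            (fun _ => zero_le) fun w => ?_
          apply measure_mono
          intro V hV
          exact le_trans (show δ' ≤ |(h w (V, E)).im| from hV) (Complex.abs_im_le_norm _)
        have hp : ∀ᵐ V ∂(PP (Ed d) ν), 0 < (h 0 (V, E)).im := by
          filter_upwards [hE2] with V hV
          exact hV hEg
        have h2 : ∀ᵐ V ∂(PP (Ed d) ν), ∀ n : ℕ, ∃ (j : ℕ) (x : Fin (n + 1) → Sd d),
            (∀ i, 1 / ((j : ℝ) + 1) ≤ (h 0 (sh ((x i, 0) : Ed d) V, E)).im) ∧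
            ∀ i k, i ≠ k → |(h (x k - x i) (sh ((x i, 0) : Ed d) V, E)).im| <
              1 / ((j : ℝ) + 1) / (2 * ((n : ℝ) + 1)) := by
          rw [ae_all_iff]
          intro n
          exact manyE (m := fun V => (h 0 (V, E)).im) (hmE 0) (o := fun w V => (h w (V, E)).im)
            hmE hdec hp (n + 1) (c := fun j => 1 / ((j : ℝ) + 1) / (2 * ((n : ℝ) + 1)))
            (fun j => by positivity)
        filter_upwards [h2] with V hV _ n
        obtain ⟨j, x, hx⟩ := hV n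
        exact ⟨j, x, hx⟩
      · exact ae_of_all _ fun V hE' => absurd hE' hEg
    exact (Measure.ae_ae_comm hmeas).2 h1
  refine ⟨h, Sg, hSg, hm, ?_⟩
  filter_upwards [r0, r1, r2] with V e0 e1 e2
  exact ⟨e0.1, e1, e2, fun B hB hB0 => (e0.2 B hB).1 hB0⟩

/-- the deterministic part of the main theorem -/
theorem main_detE [NeZero d] {a b : ℝ} (ha : 0 < a) (hab : a ≤ b) {V : Ed d → ℝ}
    {h : Sd d → (Ed d → ℝ) × ℝ → ℂ} {Sg : Set ℝ}
    (hSg : MeasurableSet Sg) (hm : ∀ w, Measurable (h w))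
    (h1 : ∀ᵐ E : ℝ, ∀ x y : Sd d, Tendsto (fun k =>
      inner ℂ (be (x, 0)) (Rz (HC a b V) (zk k E) (be (y, 0)))) atTop
      (𝓝 (h (y - x) (sh ((x, 0) : Ed d) V, E))))
    (h2 : ∀ᵐ E : ℝ, E ∈ Sg → ∀ n : ℕ, ∃ (j : ℕ) (x : Fin (n + 1) → Sd d),
      (V, E) ∈ PhiE h n j x)
    {B : Set ℝ} (hB : MeasurableSet B) (hpos : volume (B ∩ Sg) ≠ 0)
    (n : ℕ) (ψ : Fin n → L2 d) :
    ∃ χ : L2 d, χ ≠ 0 ∧ (∀ (m : ℕ) (j : Fin n), inner ℂ (((HC a b V) ^ m) (ψ j)) χ = 0) ∧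
      spm (HC_sa ha hab V) χ ≪ volume ∧ spm (HC_sa ha hab V) χ Bᶜ = 0 := by
  have hsa := HC_sa ha hab V
  -- choose the edges
  obtain ⟨j, x, hjx⟩ : ∃ (j : ℕ) (x : Fin (n + 1) → Sd d),
      volume ((B ∩ Sg) ∩ {E | (V, E) ∈ PhiE h n j x}) ≠ 0 := by
    by_contra hcon
    push Not at hcon
    apply hpos
    have h5 : ∀ᵐ E : ℝ, E ∈ B ∩ Sg →
        E ∈ ⋃ (j : ℕ) (x : Fin (n + 1) → Sd d), ((B ∩ Sg) ∩ {E | (V, E) ∈ PhiE h n j x}) := by
      filter_upwards [h2] with E hE hEB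
      obtain ⟨j, x, hjx⟩ := hE hEB.2 n
      exact mem_iUnion.2 ⟨j, mem_iUnion.2 ⟨x, hEB, hjx⟩⟩
    have h6 : volume (⋃ (j : ℕ) (x : Fin (n + 1) → Sd d),
        ((B ∩ Sg) ∩ {E | (V, E) ∈ PhiE h n j x})) = 0 :=
      measure_iUnion_null fun j => measure_iUnion_null fun x => hcon j x
    have h7 : (B ∩ Sg : Set ℝ) ≤ᵐ[volume] (⋃ (j : ℕ) (x : Fin (n + 1) → Sd d),
        ((B ∩ Sg) ∩ {E | (V, E) ∈ PhiE h n j x}) : Set ℝ) := h5
    exact measure_mono_null_ae h7 h6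
  have hPm : MeasurableSet {E : ℝ | (V, E) ∈ PhiE h n j x} :=
    (measurable_const.prodMk measurable_id) (meas_PhiE hm n j x)
  have hS1m : MeasurableSet ((B ∩ Sg) ∩ {E | (V, E) ∈ PhiE h n j x}) := (hB.inter hSg).inter hPm
  -- remove the singular parts
  have hms : ∀ i, ∃ s : Set ℝ, MeasurableSet s ∧
      (spm hsa (be (x i, 0) : L2 d)).singularPart volume s = 0 ∧ volume sᶜ = 0 :=
    fun i => Measure.mutuallySingular_singularPart (spm hsa (be (x i, 0))) volume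
  choose s hs1 hs2 hs3 using hms
  set S : Set ℝ := ((B ∩ Sg) ∩ {E | (V, E) ∈ PhiE h n j x}) ∩ ⋂ i, s i with hS
  have hSm : MeasurableSet S := hS1m.inter (MeasurableSet.iInter hs1)
  have hS0 : volume S ≠ 0 := by
    have h8 : volume (⋂ i, s i)ᶜ = 0 := by
      rw [compl_iInter]
      exact measure_iUnion_null hs3
    rw [hS, measure_inter_conull h8]
    exact hjx
  have hPD : ∀ᵐ E ∂(volume.restrict S), ∀ s : Fin (n + 1) → ℂ, ∀ᶠ k in atTop,
      1 / (4 * ((j : ℝ) + 1)) * ∑ i, ‖s i‖ ^ 2 ≤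
        qn (HC a b V) (zk k E) (∑ i, s i • be (x i, 0)) ^ 2 := by
    filter_upwards [ae_restrict_of_ae h1, ae_restrict_mem hSm] with E e1 e2 s
    exact posdefE ha hab e1 e2.1.2 s
  obtain ⟨χ, hχ0, hχ1, i, hχ2⟩ := exists_chi hsa (fun i => (be (x i, 0) : L2 d)) ψ hSm hS0
    (by positivity) hPD
  refine ⟨χ, hχ0, hχ1, ?_, ?_⟩
  · apply Measure.absolutelyContinuous_of_le hχ2 |>.trans
    have h9 := Measure.haveLebesgueDecomposition_add (spm hsa (be (x i, 0) : L2 d))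
      (volume : Measure ℝ)
    rw [h9, Measure.restrict_add]
    have h10 : ((spm hsa (be (x i, 0) : L2 d)).singularPart volume).restrict S = 0 := by
      rw [Measure.restrict_eq_zero]
      refine measure_mono_null ?_ (hs2 i)
      exact inter_subset_right.trans (iInter_subset _ i)
    rw [h10, zero_add]
    exact Measure.restrict_le_self.absolutelyContinuous.trans
      (withDensity_absolutelyContinuous _ _)
  · have h11 : spm (HC_sa ha hab V) χ Bᶜ ≤ (spm hsa (be (x i, 0))).restrict S Bᶜ := hχ2 Bᶜ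
    rw [Measure.restrict_apply hB.compl] at h11
    have h12 : Bᶜ ∩ S = ∅ := by
      rw [eq_empty_iff_forall_notMem]
      rintro E ⟨e1, e2⟩
      exact e1 e2.1.1.1
    rw [h12, measure_empty] at h11
    exact nonpos_iff_eq_zero.1 h11

theorem mult_final (hd : 1 ≤ d) {a b : ℝ} (ha : 0 < a) (ν : Measure ℝ) [IsProbabilityMeasure ν]
    (hν1 : ν (Icc a b) = 1) (hν : ∀ r : ℝ, ν {r} ≠ 1) :
    ∀ᵐ w ∂(Measure.infinitePi fun _ : Ed d => ν), ∃ H : L2 d →L[ℂ] L2 d, IsC w H ∧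
      (∀ H' : L2 d →L[ℂ] L2 d, IsC w H' → H' = H) ∧
      ∀ (φ : L2 d) (μ : Measure ℝ), IsFiniteMeasure μ →
      (∀ z : ℂ, z.im ≠ 0 → (∫ x, ((x : ℂ) - z)⁻¹ ∂μ) = inner ℂ φ (Rz H z φ)) →
      ∀ B : Set ℝ, MeasurableSet B → ¬ (μ.restrict B) ⟂ₘ volume →
      ∀ (n : ℕ) (ψ : Fin n → L2 d), ∃ χ : L2 d, χ ≠ 0 ∧
        (∀ (m : ℕ) (j : Fin n), inner ℂ ((H ^ m) (ψ j)) χ = 0) ∧
        ∃ ρ : Measure ℝ, (IsFiniteMeasure ρ ∧
          ∀ z : ℂ, z.im ≠ 0 → (∫ x, ((x : ℂ) - z)⁻¹ ∂ρ) = inner ℂ χ (Rz H z χ)) ∧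
          ρ ≪ volume ∧ ρ Bᶜ = 0 := by
  haveI : NeZero d := ⟨by omega⟩
  have hab : a ≤ b := by
    by_contra hcon
    rw [Icc_eq_empty hcon, measure_empty] at hν1
    exact zero_ne_one hν1
  obtain ⟨h, Sg, hSg, hm, hcore⟩ := coreE (d := d) ha hν1 hν
  filter_upwards [hcore] with w ⟨hw, h1, h2, h3⟩
  have hex : IsC w (HC a b w) := by
    intro u x
    rw [HC_apply ha hab]
    refine Finset.sum_congr rfl fun i _ => ?_
    rw [cc_eq (hw _), cc_eq (hw _)]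
  refine ⟨HC a b w, hex, fun H hH => ?_, fun φ μ hμf hμ B hB hns n ψ => ?_⟩
  · apply ContinuousLinearMap.ext
    intro u
    apply lp.ext
    funext j
    exact (hH u j).trans (hex u j).symm
  · have hpos : volume (B ∩ Sg) ≠ 0 := fun hz => hns (h3 B hB hz φ μ hμf hμ)
    obtain ⟨χ, g1, g2, g3, g4⟩ := main_detE ha hab hSg hm h1 h2 hB hpos n ψ
    exact ⟨χ, g1, g2, spm (HC_sa ha hab w) χ,
      ⟨inferInstance, fun z hz => BT_spm (HC_sa ha hab w) χ hz⟩, g3, g4⟩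

end Pool.Agent.TH980.CN
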