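import Pool.Agent.TH980.IM.Lat

set_option autoImplicit false

/-! The random conductance operator on `ℤ^d`. -/

open MeasureTheory Filter Topology Set
open scoped ENNReal NNReal
open Pool.Agent.H12R2.And (Rz isUnit_sub sub_Rz im_inner norm_Rz_le diff_inner diff_Rz)
open Pool.Agent.TH980.IM Pool.Agent.TH980.IM.PR

namespace Pool.Agent.TH980.CN

/-- edges -/
abbrev Ed (d : ℕ) : Type := (Fin d → ℤ) × Fin d

variable {d : ℕ}

/-- clipping to `[a,b]` -/
noncomputable def cc (a b v : ℝ) : ℝ := max a (min b v)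

theorem cc_ge (a b v : ℝ) : a ≤ cc a b v := le_max_left _ _

theorem cc_le {a b : ℝ} (hab : a ≤ b) (v : ℝ) : cc a b v ≤ b := max_le hab (min_le_left _ _)

theorem cc_eq {a b v : ℝ} (h : v ∈ Icc a b) : cc a b v = v := by
  unfold cc
  rw [min_eq_right h.2, max_eq_right h.1]

theorem cc_cont (a b : ℝ) : Continuous (cc a b) := by
  unfold cc; fun_prop

/-- `HV K V - HV K 0` is multiplication by the clipped potential -/
noncomputable def Mul (K : ℝ) (V : Sd d → ℝ) : L2 d →L[ℂ] L2 d := HV K V - HV K 0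

theorem Mul_apply {K : ℝ} (hK : 0 ≤ K) (V : Sd d → ℝ) (hV : ∀ x, |V x| ≤ K) (f : L2 d)
    (x : Sd d) : (Mul K V f) x = (V x : ℂ) * f x := by
  change (HV K V f) x - (HV K 0 f) x = _
  rw [HV_apply, HV_apply, cl_eq (hV x)]
  have h0 : cl K ((0 : Sd d → ℝ) x) = 0 := cl_eq (by simpa using hK)
  rw [h0]
  push_cast
  ring

theorem Mul_cont (K : ℝ) (f : L2 d) : Continuous fun V : Sd d → ℝ => Mul K V f := by
  have h : Continuous fun V : Sd d → ℝ => HV K V f := by
    rw [continuous_iff_seqContinuous]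
    intro W V hW
    rw [tendsto_iff_norm_sub_tendsto_zero]
    exact HV_tendsto K hW f
  exact h.sub continuous_const

theorem exists_shf (v : Sd d) : ∃ S : L2 d →L[ℂ] L2 d, ∀ f x, (S f) x = f (x + v) := by
  obtain ⟨S, hS⟩ := Pool.Agent.H4R2.AE.Exist.exists_op (ι := Sd d) (fun x => x + v)
    (add_left_injective v) (fun _ => 1) 1 zero_le_one (fun x => by simp)
  exact ⟨S, fun f x => by rw [hS]; simp⟩

/-- translations -/
noncomputable def shf (v : Sd d) : L2 d →L[ℂ] L2 d := (exists_shf v).choose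

theorem shf_apply (v : Sd d) (f : L2 d) (x : Sd d) : (shf v f) x = f (x + v) :=
  (exists_shf v).choose_spec f x

/-- the conductance operator with clipped conductances -/
noncomputable def HC (a b : ℝ) (w : Ed d → ℝ) : L2 d →L[ℂ] L2 d :=
  ∑ i : Fin d, (Mul b (fun x => cc a b (w (x, i))) ∘L (1 - shf (Pi.single i 1)) +
    Mul b (fun x => cc a b (w (x - Pi.single i 1, i))) ∘L (1 - shf (-Pi.single i 1)))

theorem cc_abs {a b : ℝ} (ha : 0 < a) (hab : a ≤ b) (v : ℝ) : |cc a b v| ≤ b := by
  rw [abs_of_nonneg (ha.le.trans (cc_ge a b v))]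
  exact cc_le hab v

theorem HC_apply {a b : ℝ} (ha : 0 < a) (hab : a ≤ b) (w : Ed d → ℝ) (f : L2 d) (x : Sd d) :
    (HC a b w f) x = ∑ i : Fin d, ((cc a b (w (x, i)) : ℂ) * (f x - f (x + Pi.single i 1)) +
      (cc a b (w (x - Pi.single i 1, i)) : ℂ) * (f x - f (x - Pi.single i 1))) := by
  have hb : 0 ≤ b := ha.le.trans hab
  have e1 : HC a b w f = ∑ i : Fin d, (Mul b (fun x => cc a b (w (x, i)))
      (f - shf (Pi.single i 1) f) + Mul b (fun x => cc a b (w (x - Pi.single i 1, i)))
      (f - shf (-Pi.single i 1) f)) := by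
    unfold HC
    rw [sum_apply]
    rfl
  rw [e1, lp.coeFn_sum, Finset.sum_apply]
  refine Finset.sum_congr rfl fun i _ => ?_
  rw [lp.coeFn_add, Pi.add_apply, Mul_apply hb _ (fun x => cc_abs ha hab _),
    Mul_apply hb _ (fun x => cc_abs ha hab _), lp.coeFn_sub, Pi.sub_apply, lp.coeFn_sub,
    Pi.sub_apply, shf_apply, shf_apply, ← sub_eq_add_neg]

theorem HC_cont (a b : ℝ) (f : L2 d) : Continuous fun w : Ed d → ℝ => HC a b w f := by
  have e1 : (fun w : Ed d → ℝ => HC a b w f) = fun w => ∑ i : Fin d,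
      (Mul b (fun x => cc a b (w (x, i))) (f - shf (Pi.single i 1) f) +
        Mul b (fun x => cc a b (w (x - Pi.single i 1, i))) (f - shf (-Pi.single i 1) f)) := by
    funext w
    unfold HC
    rw [sum_apply]
    rfl
  rw [e1]
  refine continuous_finsetSum _ fun i _ => ?_
  refine ((Mul_cont b _).comp ?_).add ((Mul_cont b _).comp ?_)
  · exact continuous_pi fun x => (cc_cont a b).comp (continuous_apply _)
  · exact continuous_pi fun x => (cc_cont a b).comp (continuous_apply _)

theorem HC_ee {a b : ℝ} (ha : 0 < a) (hab : a ≤ b) (w : Ed d → ℝ) (x y : Sd d) :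
    (HC a b w (ee x)) y = (HC a b w (ee y)) x := by
  rw [HC_apply ha hab, HC_apply ha hab]
  simp only [ee_apply]
  refine Finset.sum_congr rfl fun i _ => ?_
  have h1 : (y + Pi.single i 1 = x) ↔ (x - Pi.single i 1 = y) :=
    ⟨fun h => by rw [← h]; simp, fun h => by rw [← h]; simp⟩
  have h2 : (y - Pi.single i 1 = x) ↔ (x + Pi.single i 1 = y) :=
    ⟨fun h => by rw [← h]; simp, fun h => by rw [← h]; simp⟩
  by_cases hxy : y = x
  · subst hxy
    ring
  · rw [if_neg hxy, if_neg (show ¬ x = y from fun h => hxy h.symm)]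
    by_cases c1 : x - Pi.single i 1 = y
    · have c1' : y + Pi.single i 1 = x := h1.2 c1
      rw [if_pos c1', if_pos c1]
      by_cases c2 : x + Pi.single i 1 = y
      · exfalso
        have := congrFun (c1.trans c2.symm) i
        simp only [Pi.sub_apply, Pi.add_apply, Pi.single_eq_same] at this
        omega
      · rw [if_neg (fun h => c2 (h2.1 h)), if_neg c2, c1]
        ring
    · rw [if_neg (fun h => c1 (h1.1 h)), if_neg c1]
      by_cases c2 : x + Pi.single i 1 = y
      · have c2' : y - Pi.single i 1 = x := h2.2 c2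
        rw [if_pos c2', if_pos c2, c2']
        ring
      · rw [if_neg (fun h => c2 (h2.1 h)), if_neg c2]
        ring

theorem HC_ee_conj {a b : ℝ} (ha : 0 < a) (hab : a ≤ b) (w : Ed d → ℝ) (x y : Sd d) :
    (starRingEnd ℂ) ((HC a b w (ee x)) y) = (HC a b w (ee x)) y := by
  rw [HC_apply ha hab]
  simp only [ee_apply]
  rw [map_sum]
  refine Finset.sum_congr rfl fun i _ => ?_
  rw [map_add, map_mul, map_mul, Complex.conj_ofReal, Complex.conj_ofReal]
  simp only [map_sub, apply_ite (starRingEnd ℂ), map_one, map_zero]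

theorem HC_sa {a b : ℝ} (ha : 0 < a) (hab : a ≤ b) (w : Ed d → ℝ) :
    IsSelfAdjoint (HC a b w) := by
  rw [ContinuousLinearMap.isSelfAdjoint_iff']
  apply lp.ext_continuousLinearMap (by norm_num)
  intro i
  ext
  rename_i j
  simp only [ContinuousLinearMap.comp_apply, lp.singleContinuousLinearMap_apply]
  change (ContinuousLinearMap.adjoint (HC a b w) (ee i)) j = (HC a b w (ee i)) j
  rw [← inner_ee j, ContinuousLinearMap.adjoint_inner_right, inner_ee', HC_ee ha hab w i j]
  exact HC_ee_conj ha hab w j i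

/-- the vector of an edge -/
noncomputable def be (e : Ed d) : L2 d := ee e.1 - ee (e.1 + Pi.single e.2 1)

theorem inner_be (e : Ed d) (f : L2 d) :
    inner ℂ (be e) f = f e.1 - f (e.1 + Pi.single e.2 1) := by
  unfold be
  rw [inner_sub_left, inner_ee, inner_ee]

theorem be_apply (e : Ed d) (x : Sd d) :
    (be e : L2 d) x = (if x = e.1 then 1 else 0) - if x = e.1 + Pi.single e.2 1 then 1 else 0 := by
  change (ee e.1 : L2 d) x - (ee (e.1 + Pi.single e.2 1) : L2 d) x = _
  rw [ee_apply, ee_apply]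

theorem be_ne (e : Ed d) : (be e : L2 d) ≠ 0 := by
  intro h
  have h1 := be_apply e e.1
  rw [h] at h1
  have h2 : e.1 ≠ e.1 + Pi.single e.2 1 := by
    intro h3
    have := congrFun h3 e.2
    simp only [Pi.add_apply, Pi.single_eq_same] at this
    omega
  rw [if_pos rfl, if_neg h2] at h1
  simp at h1

/-- resampling one edge -/
theorem HC_up {a b : ℝ} (ha : 0 < a) (hab : a ≤ b) (w : Ed d → ℝ) (e : Ed d) (v : ℝ) (f : L2 d) :
    HC a b (up e (w, v)) f = HC a b w f +
      (((cc a b v - cc a b (w e) : ℝ) : ℂ) * inner ℂ (be e) f) • be e := by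
  obtain ⟨x, i0⟩ := e
  refine lp.ext (funext fun j => ?_)
  change (HC a b (up (x, i0) (w, v)) f) j = (HC a b w f) j +
    (((cc a b v - cc a b (w (x, i0)) : ℝ) : ℂ) * inner ℂ (be (x, i0)) f) * (be (x, i0) : L2 d) j
  rw [HC_apply ha hab, HC_apply ha hab, inner_be, be_apply]
  simp only
  set κ : ℂ := ((cc a b v - cc a b (w (x, i0)) : ℝ) : ℂ) with hκ
  have hk : ∀ e : Ed d, (cc a b (up (x, i0) (w, v) e) : ℂ) =
      (cc a b (w e) : ℂ) + if e = (x, i0) then κ else 0 := by
    intro e
    by_cases he : e = (x, i0)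
    · subst he
      rw [if_pos rfl, hκ]
      simp only [up, Function.update_self]
      push_cast
      ring
    · rw [if_neg he, add_zero]
      simp only [up, Function.update_of_ne he]
  simp only [hk]
  have h1 : ∀ i : Fin d, ((cc a b (w (j, i)) : ℂ) + if (j, i) = (x, i0) then κ else 0) *
        (f j - f (j + Pi.single i 1)) +
      ((cc a b (w (j - Pi.single i 1, i)) : ℂ) +
        if (j - Pi.single i 1, i) = (x, i0) then κ else 0) * (f j - f (j - Pi.single i 1)) =
      ((cc a b (w (j, i)) : ℂ) * (f j - f (j + Pi.single i 1)) +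
        (cc a b (w (j - Pi.single i 1, i)) : ℂ) * (f j - f (j - Pi.single i 1))) +
      if i = i0 then ((if j = x then κ else 0) * (f j - f (j + Pi.single i0 1)) +
        (if j - Pi.single i0 1 = x then κ else 0) * (f j - f (j - Pi.single i0 1))) else 0 := by
    intro i
    by_cases hi : i = i0
    · subst hi
      rw [if_pos rfl]
      simp only [Prod.mk.injEq, and_true]
      ring
    · rw [if_neg hi, if_neg (fun h => hi (Prod.mk.inj h).2), if_neg (fun h => hi (Prod.mk.inj h).2)]
      ring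
  rw [Finset.sum_congr rfl fun i _ => h1 i, Finset.sum_add_distrib, Finset.sum_ite_eq',
    if_pos (Finset.mem_univ _)]
  congr 1
  have h2 : (j - Pi.single i0 1 = x) ↔ (j = x + Pi.single i0 1) := sub_eq_iff_eq_add
  simp only [h2]
  by_cases c1 : j = x
  · subst c1
    have c2 : j ≠ j + Pi.single i0 1 := by
      intro h3
      have := congrFun h3 i0
      simp only [Pi.add_apply, Pi.single_eq_same] at this
      omega
    rw [if_pos rfl, if_neg c2, if_pos rfl, if_neg c2]
    ring
  · rw [if_neg c1, if_neg c1]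
    by_cases c2 : j = x + Pi.single i0 1
    · rw [if_pos c2, if_pos c2, c2, add_sub_cancel_right]
      ring
    · rw [if_neg c2, if_neg c2]
      ring

/-- translation covariance -/
theorem HC_shift [NeZero d] {a b : ℝ} (ha : 0 < a) (hab : a ≤ b) (w : Ed d → ℝ) (x : Sd d) (f : L2 d) :
    HC a b (sh ((x, 0) : Ed d) w) (shf x f) = shf x (HC a b w f) := by
  refine lp.ext (funext fun j => ?_)
  rw [shf_apply, HC_apply ha hab, HC_apply ha hab]
  refine Finset.sum_congr rfl fun i _ => ?_
  simp only [shf_apply, sh, Prod.mk_add_mk, add_zero]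
  rw [add_right_comm, sub_add_eq_add_sub]

theorem Rz_shift [NeZero d] {a b : ℝ} (ha : 0 < a) (hab : a ≤ b) (w : Ed d → ℝ) (x : Sd d) {z : ℂ}
    (hz : z.im ≠ 0) (f : L2 d) :
    Rz (HC a b (sh ((x, 0) : Ed d) w)) z (shf x f) = shf x (Rz (HC a b w) z f) := by
  symm
  apply Rz_unique (HC_sa ha hab _) hz
  rw [HC_shift ha hab, ← map_smul, ← map_sub, sub_Rz (HC_sa ha hab w) hz]

theorem shf_be (x : Sd d) (i : Fin d) : shf x (be (x, i)) = (be (0, i) : L2 d) := by
  refine lp.ext (funext fun j => ?_)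
  rw [shf_apply, be_apply, be_apply]
  simp only [add_eq_right, zero_add]
  rw [add_comm x (Pi.single i 1)]
  simp only [add_left_inj]

theorem be_cov [NeZero d] {a b : ℝ} (ha : 0 < a) (hab : a ≤ b) (w : Ed d → ℝ) (x : Sd d) (i : Fin d) {z : ℂ}
    (hz : z.im ≠ 0) : inner ℂ (be (x, i)) (Rz (HC a b w) z (be (x, i))) =
      inner ℂ (be (0, i)) (Rz (HC a b (sh ((x, 0) : Ed d) w)) z (be (0, i))) := by
  rw [← shf_be x i, Rz_shift ha hab w x hz, shf_be, inner_be, inner_be, shf_apply, shf_apply]
  simp only [zero_add]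
  rw [add_comm (Pi.single i 1) x]

/-- the operator applied to a unit vector is a combination of edge vectors -/
theorem HC_unit {a b : ℝ} (ha : 0 < a) (hab : a ≤ b) (w : Ed d → ℝ) (x : Sd d) :
    HC a b w (ee x) = ∑ i : Fin d, ((cc a b (w (x, i)) : ℂ) • be (x, i) +
      (-(cc a b (w (x - Pi.single i 1, i))) : ℂ) • be (x - Pi.single i 1, i)) := by
  refine lp.ext (funext fun j => ?_)
  rw [HC_apply ha hab, lp.coeFn_sum, Finset.sum_apply]
  refine Finset.sum_congr rfl fun i _ => ?_
  change _ = (cc a b (w (x, i)) : ℂ) * (be (x, i) : L2 d) j +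
    (-(cc a b (w (x - Pi.single i 1, i))) : ℂ) * (be (x - Pi.single i 1, i) : L2 d) j
  rw [be_apply, be_apply, ee_apply, ee_apply, ee_apply]
  simp only [sub_add_cancel]
  have h1 : (j + Pi.single i 1 = x) ↔ (j = x - Pi.single i 1) := eq_sub_iff_add_eq.symm
  have h2 : (j - Pi.single i 1 = x) ↔ (j = x + Pi.single i 1) := sub_eq_iff_eq_add
  simp only [h1, h2]
  by_cases c0 : j = x
  · subst c0
    have c1 : j ≠ j - Pi.single i 1 := by
      intro h3
      have := congrFun h3 i
      simp only [Pi.sub_apply, Pi.single_eq_same] at this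
      omega
    have c2 : j ≠ j + Pi.single i 1 := by
      intro h3
      have := congrFun h3 i
      simp only [Pi.add_apply, Pi.single_eq_same] at this
      omega
    rw [if_pos rfl, if_neg c1, if_neg c2]
    ring
  · rw [if_neg c0]
    by_cases c1 : j = x - Pi.single i 1
    · have c2 : j ≠ x + Pi.single i 1 := by
        intro h3
        have := congrFun (c1.symm.trans h3) i
        simp only [Pi.sub_apply, Pi.add_apply, Pi.single_eq_same] at this
        omega
      rw [if_pos c1, if_neg c2, c1]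
      ring
    · rw [if_neg c1]
      by_cases c2 : j = x + Pi.single i 1
      · rw [if_pos c2, c2, add_sub_cancel_right]
        ring
      · rw [if_neg c2]
        ring

end Pool.Agent.TH980.CN
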