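import Pool.Agent.TH980.CN.Op

set_option autoImplicit false

/-! Edges at which the moments of a vector do not vanish. -/

open MeasureTheory Filter Topology Set
open scoped ENNReal NNReal
open Pool.Agent.TH980.IM Pool.Agent.TH980.IM.PR

namespace Pool.Agent.TH980.CN

variable {d : ℕ}

/-- the outermost layer of the support moves outwards by one step -/
theorem top_layer {a b : ℝ} (ha : 0 < a) (hab : a ≤ b) (w : Ed d → ℝ) (u : L2 d) (i0 : Fin d)
    (x : Sd d) (hx : ∀ j : Sd d, x i0 < j i0 → u j = 0) (hux : u x ≠ 0) (k : ℕ) :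
    (∀ j : Sd d, x i0 + k < j i0 → (((HC a b w) ^ k) u) j = 0) ∧
      (((HC a b w) ^ k) u) (x + (k : ℤ) • Pi.single i0 1) ≠ 0 := by
  induction k with
  | zero =>
    constructor
    · intro j hj
      rw [pow_zero]
      apply hx
      simpa using hj
    · rw [pow_zero]
      simpa using hux
  | succ k ih =>
    obtain ⟨h1, h2⟩ := ih
    have hsing : ∀ i : Fin d, (0 : ℤ) ≤ (Pi.single i (1 : ℤ) : Sd d) i0 ∧
        (Pi.single i (1 : ℤ) : Sd d) i0 ≤ 1 := by
      intro i
      by_cases h : i = i0
      · subst h; simp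
      · rw [Pi.single_eq_of_ne (Ne.symm h)]; simp
    have hstep : ∀ j : Sd d, (((HC a b w) ^ (k + 1)) u) j =
        (HC a b w (((HC a b w) ^ k) u)) j := by
      intro j
      rw [pow_succ']
      rfl
    constructor
    · intro j hj
      push_cast at hj
      rw [hstep, HC_apply ha hab]
      have e1 : ∀ i : Fin d, (((HC a b w) ^ k) u) (j + Pi.single i 1) = 0 := by
        intro i
        apply h1
        rw [Pi.add_apply]
        linarith [(hsing i).1]
      have e2 : ∀ i : Fin d, (((HC a b w) ^ k) u) (j - Pi.single i 1) = 0 := by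
        intro i
        apply h1
        rw [Pi.sub_apply]
        linarith [(hsing i).2]
      have e3 : (((HC a b w) ^ k) u) j = 0 := h1 j (by linarith)
      simp only [e1, e2, e3]
      simp
    · set j : Sd d := x + ((k + 1 : ℕ) : ℤ) • Pi.single i0 1 with hj
      have hj0 : j i0 = x i0 + k + 1 := by
        rw [hj, Pi.add_apply, Pi.smul_apply, Pi.single_eq_same]
        push_cast
        simp only [smul_eq_mul, mul_one]
        ring
      rw [hstep, HC_apply ha hab]
      have e1 : ∀ i : Fin d, (((HC a b w) ^ k) u) (j + Pi.single i 1) = 0 := by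
        intro i
        apply h1
        rw [Pi.add_apply, hj0]
        linarith [(hsing i).1]
      have e3 : (((HC a b w) ^ k) u) j = 0 := h1 j (by rw [hj0]; linarith)
      have e2 : ∀ i : Fin d, (cc a b (w (j - Pi.single i 1, i)) : ℂ) *
          (((HC a b w) ^ k) u) (j - Pi.single i 1) =
          if i = i0 then (cc a b (w (j - Pi.single i0 1, i0)) : ℂ) *
            (((HC a b w) ^ k) u) (x + (k : ℤ) • Pi.single i0 1) else 0 := by
        intro i
        by_cases h : i = i0
        · subst h
          have e : x + (k : ℤ) • Pi.single i 1 = j - Pi.single i 1 := by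
            rw [hj]
            push_cast
            rw [add_smul, one_smul, add_sub_assoc, add_sub_cancel_right]
          rw [if_pos rfl, e]
        · rw [if_neg h]
          apply mul_eq_zero_of_right
          apply h1
          rw [Pi.sub_apply, hj0, Pi.single_eq_of_ne (Ne.symm h)]
          linarith
      simp only [e1, e3, sub_zero, mul_zero, zero_add, zero_sub, mul_neg, e2,
        Finset.sum_neg_distrib, Finset.sum_ite_eq', Finset.mem_univ, if_true]
      refine neg_ne_zero.2 (mul_ne_zero ?_ h2)
      exact_mod_cast (ha.trans_le (cc_ge a b _)).ne'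

/-- if `u` differs from its translate at finitely many points only then it vanishes on a half
space -/
theorem half_space (u : L2 d) (i0 : Fin d)
    (hfin : {x : Sd d | u x ≠ u (x + Pi.single i0 1)}.Finite) :
    ∃ M : ℤ, ∀ x : Sd d, M < x i0 → u x = 0 := by
  obtain ⟨M, hM⟩ := (hfin.image fun x => x i0).bddAbove
  refine ⟨M, fun x hx => ?_⟩
  have h1 : ∀ k : ℕ, u (x + (k : ℤ) • Pi.single i0 1) = u x := by
    intro k
    induction k with
    | zero => simp
    | succ k ih =>
      rw [← ih]
      have e : x + ((k + 1 : ℕ) : ℤ) • (Pi.single i0 1 : Sd d) =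
          (x + (k : ℤ) • Pi.single i0 1) + Pi.single i0 1 := by
        push_cast
        rw [add_smul, one_smul, add_assoc]
      rw [e]
      by_contra hne
      have h2 : (x + (k : ℤ) • (Pi.single i0 1 : Sd d)) i0 ≤ M :=
        hM ⟨_, fun h => hne h.symm, rfl⟩
      rw [Pi.add_apply, Pi.smul_apply, Pi.single_eq_same, smul_eq_mul, mul_one] at h2
      omega
  have hsum : Summable fun x => ‖u x‖ ^ 2 := by
    have := (lp.memℓp u).summable (by norm_num : 0 < (2 : ℝ≥0∞).toReal)
    simpa using this
  have hinj : Function.Injective fun k : ℕ => x + (k : ℤ) • (Pi.single i0 1 : Sd d) := by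
    intro k l hkl
    have h := congrFun hkl i0
    simp only [Pi.add_apply, Pi.smul_apply, Pi.single_eq_same, smul_eq_mul, mul_one,
      add_right_inj, Nat.cast_inj] at h
    exact h
  have h2 := hsum.comp_injective hinj
  have h3 : ((fun x => ‖u x‖ ^ 2) ∘ fun k : ℕ => x + (k : ℤ) • (Pi.single i0 1 : Sd d)) =
      fun _ => ‖u x‖ ^ 2 := by
    funext k
    simp only [Function.comp_apply, h1 k]
  rw [h3, summable_const_iff] at h2
  have h4 : ‖u x‖ = 0 := (pow_eq_zero_iff two_ne_zero).1 h2
  exact norm_eq_zero.1 h4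

/-- for every nonzero vector there are infinitely many edges in a given direction at which some
moment does not vanish, whatever the conductances -/
theorem exists_sites {a b : ℝ} (ha : 0 < a) (hab : a ≤ b) (i0 : Fin d) (u : L2 d) (hu : u ≠ 0) :
    ∃ y : ℕ → Sd d, Function.Injective y ∧ ∀ (k : ℕ) (w : Ed d → ℝ), ∃ n : ℕ,
      inner ℂ (be (y k, i0)) (((HC a b w) ^ n) u) ≠ 0 := by
  obtain ⟨x0, hx0⟩ : ∃ x, u x ≠ 0 := by
    by_contra hcon
    push Not at hcon
    apply hu
    apply lp.ext
    funext x
    exact hcon x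
  rcases Set.finite_or_infinite {x : Sd d | u x ≠ u (x + Pi.single i0 1)} with hfin | hinf
  · obtain ⟨M, hM⟩ := half_space u i0 hfin
    obtain ⟨m, ⟨x, hx, hxm⟩, hmax⟩ := Int.exists_greatest_of_bdd
      (P := fun m : ℤ => ∃ x : Sd d, u x ≠ 0 ∧ x i0 = m)
      ⟨M, fun m ⟨x, hx, hxm⟩ => by
        by_contra hcon
        exact hx (hM x (by omega))⟩ ⟨x0 i0, x0, hx0, rfl⟩
    refine ⟨fun k => x + (k : ℤ) • Pi.single i0 1, ?_, fun k w => ⟨k, ?_⟩⟩
    · intro k l hkl
      have h := congrFun hkl i0
      simp only [Pi.add_apply, Pi.smul_apply, Pi.single_eq_same, smul_eq_mul, mul_one,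
        add_right_inj, Nat.cast_inj] at h
      exact h
    · have hxz : ∀ j : Sd d, x i0 < j i0 → u j = 0 := by
        intro j hj
        by_contra hne
        have := hmax (j i0) ⟨j, hne, rfl⟩
        omega
      have h1 := top_layer ha hab w u i0 x hxz hx k
      rw [inner_be]
      simp only
      rw [h1.1 (x + (k : ℤ) • Pi.single i0 1 + Pi.single i0 1) ?_, sub_zero]
      · exact h1.2
      · rw [Pi.add_apply, Pi.add_apply, Pi.smul_apply, Pi.single_eq_same, smul_eq_mul, mul_one]
        omega
  · refine ⟨fun k => (hinf.natEmbedding _ k : Sd d), ?_, fun k w => ⟨0, ?_⟩⟩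
    · intro k l hkl
      exact (hinf.natEmbedding _).injective (Subtype.ext hkl)
    · rw [inner_be, pow_zero]
      exact sub_ne_zero.2 (hinf.natEmbedding _ k).2

end Pool.Agent.TH980.CN
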